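import Pool.Agent.Helper88.MP.SmoothX
import Pool.Agent.Helper24.TG.G15

/-!
MP_120218: all but `m` small translates of a set of integers are good for every `X`; from the theorem behind
`Helper24/Slots/TranslatesSlot.lean`.
-/

set_option autoImplicit false

namespace Pool.Agent.Helper88.MP

open Finset
open scoped Pointwise Polynomial

theorem pow_image_sub {k : ℕ} (S : Finset ℤ) (t : ℤ) (X : Finset ℂ) :
    ({y : ℂ | ∃ a : Fin k → ℤ, (∀ i, a i ∈ S) ∧ ∃ b ∈ X,
      y = (∏ i, ((((Polynomial.X + Polynomial.C t : ℤ[X])).eval (a i) : ℤ) : ℂ)) * b}.ncard : ℝ) ≤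
      ((((S.image (fun s => s + t)) ^ k).image (fun z : ℤ => (z : ℂ)) * X).card : ℝ) := by
  classical
  have h1 : {y : ℂ | ∃ a : Fin k → ℤ, (∀ i, a i ∈ S) ∧ ∃ b ∈ X,
      y = (∏ i, ((((Polynomial.X + Polynomial.C t : ℤ[X])).eval (a i) : ℤ) : ℂ)) * b} ⊆
      ((((S.image (fun s => s + t)) ^ k).image (fun z : ℤ => (z : ℂ)) * X : Finset ℂ) : Set ℂ) := by
    rintro y ⟨a, ha, b, hb, rfl⟩
    rw [mem_coe, Finset.mem_mul]
    refine ⟨_, mem_image.2 ⟨∏ i, (a i + t), ?_, rfl⟩, b, hb, ?_⟩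
    · rw [Finset.mem_pow]
      refine ⟨fun i => ⟨a i + t, mem_image.2 ⟨a i, ha i, rfl⟩⟩, ?_⟩
      rw [List.prod_ofFn]
    · congr 1
      push_cast
      refine prod_congr rfl fun i _ => ?_
      simp
  have h2 := Set.ncard_le_ncard h1 (Finset.finite_toSet _)
  rw [Set.ncard_coe_finset] at h2
  exact_mod_cast h2

theorem allX (k : ℕ) (ε : ℝ) (hk : 1 ≤ k) (hε : 0 < ε) :
    ∃ (m : ℕ) (c : ℝ), 0 < c ∧ AllX k ε m c := by
  classical
  obtain ⟨m0, c, hc, h1, -⟩ := Pool.Agent.Helper99.FS.result_of2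
    (Pool.Agent.Helper99.TR.trz Pool.Agent.Helper34.TR.nzMixT)
    (Pool.Agent.Helper99.RT.rtz Pool.Agent.Helper99.RT.nrMix)
    Pool.Agent.Helper99.FS.fewZU k 1 hk ε hε
  obtain ⟨c', hc', hcA, hcB⟩ : ∃ c' : ℝ, 0 < c' ∧ c' ≤ c ∧ c' ≤ ((16 : ℝ) ^ k)⁻¹ :=
    ⟨min c ((16 : ℝ) ^ k)⁻¹, lt_min hc (by positivity), min_le_left _ _, min_le_right _ _⟩
  refine ⟨max m0 1, c', hc', ?_⟩
  intro S hS
  have hS1 : (1 : ℝ) ≤ S.card := by exact_mod_cast card_pos.2 hS
  have hS0 : (0 : ℝ) < S.card := by linarith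
  by_cases hbig : 16 ≤ S.card
  swap
  · obtain ⟨a0, ha0⟩ := hS
    refine ⟨{-a0}, by rw [card_singleton]; exact le_max_right _ _, ?_⟩
    intro t _ _ htZ X hX hX0
    have hz : a0 + t ≠ 0 := by
      intro h
      apply htZ
      rw [mem_singleton]
      omega
    have hX1 : (1 : ℝ) ≤ X.card := by exact_mod_cast card_pos.2 hX
    have h2 : (X.card : ℝ) ≤ ((((S.image (fun s => s + t)) ^ k).image (fun z : ℤ => (z : ℂ)) *
        X).card : ℝ) := by
      apply Nat.cast_le.2
      have h3 : (X.image (fun x => (((a0 + t) ^ k : ℤ) : ℂ) * x)).card = X.card := by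
        apply card_image_of_injective
        intro x y hxy
        have h4 : (((a0 + t) ^ k : ℤ) : ℂ) ≠ 0 := by
          exact_mod_cast pow_ne_zero k hz
        exact mul_left_cancel₀ h4 hxy
      rw [← h3]
      apply card_le_card
      intro y hy
      obtain ⟨x, hx, rfl⟩ := mem_image.1 hy
      refine mul_mem_mul (mem_image.2 ⟨(a0 + t) ^ k, ?_, rfl⟩) hx
      exact Finset.pow_mem_pow (mem_image.2 ⟨a0, ha0, rfl⟩)
    refine le_trans ?_ h2
    have h5 : (S.card : ℝ) ^ ((k : ℝ) - ε) ≤ (16 : ℝ) ^ k := by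
      calc (S.card : ℝ) ^ ((k : ℝ) - ε) ≤ (S.card : ℝ) ^ (k : ℝ) :=
            Real.rpow_le_rpow_of_exponent_le hS1 (by linarith)
        _ = (S.card : ℝ) ^ k := Real.rpow_natCast _ _
        _ ≤ (16 : ℝ) ^ k := by
            apply pow_le_pow_left₀ hS0.le
            exact_mod_cast (not_le.1 hbig).le
    have h6 : (X.card : ℝ) ^ (1 - ε) ≤ X.card := by
      calc (X.card : ℝ) ^ (1 - ε) ≤ (X.card : ℝ) ^ (1 : ℝ) :=
            Real.rpow_le_rpow_of_exponent_le hX1 (by linarith)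
        _ = X.card := Real.rpow_one _
    calc c' * (S.card : ℝ) ^ ((k : ℝ) - ε) * (X.card : ℝ) ^ (1 - ε)
        ≤ ((16 : ℝ) ^ k)⁻¹ * (16 : ℝ) ^ k * X.card := by
          apply mul_le_mul _ h6 (by positivity) (by positivity)
          exact mul_le_mul hcB h5 (by positivity) (by positivity)
      _ = X.card := by
          rw [inv_mul_cancel₀ (by positivity), one_mul]
  obtain ⟨Z, hZc, hZ⟩ := h1 S hS
  have hbigR : (16 : ℝ) ≤ S.card := by exact_mod_cast hbig
  have hll : 1 ≤ Real.log (Real.log S.card) := by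
    have h2 : Real.log 16 ≤ Real.log S.card := Real.log_le_log (by norm_num) hbigR
    have h3 : Real.log 16 = 4 * Real.log 2 := by
      rw [show (16 : ℝ) = 2 ^ (4 : ℕ) by norm_num, Real.log_pow]
      norm_num
    have h4 := Real.log_two_gt_d9
    have h5 := Real.exp_one_lt_d9
    rw [Real.le_log_iff_exp_le (by linarith)]
    linarith
  obtain ⟨H, hH⟩ : ∃ H : ℝ, H = (S.card : ℝ) ^ (c * Real.log (Real.log S.card)) := ⟨_, rfl⟩
  have hH1 : 1 ≤ H := by
    rw [hH]
    exact Real.one_le_rpow hS1 (by positivity)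
  have hcH : (S.card : ℝ) ^ c' ≤ H := by
    rw [hH]
    apply Real.rpow_le_rpow_of_exponent_le hS1
    nlinarith
  refine ⟨Z.image (fun z => if h : ∃ t : ℤ, (t : ℂ) = -z then h.choose else 0),
    le_trans card_image_le (le_trans hZc (le_max_left _ _)), ?_⟩
  intro t ht0 htS htZ X hX hX0
  have hF := hZ (fun _ => Polynomial.X + Polynomial.C t) (fun _ => by
    rw [Polynomial.natDegree_X_add_C]
    exact ⟨le_rfl, le_rfl⟩) (Or.inl fun _ => ⟨?_, ?_⟩) X hX
  · refine le_trans ?_ (le_trans (hF.1 hX0) (pow_image_sub S t X))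
    apply mul_le_mul_of_nonneg_right _ (by positivity)
    exact mul_le_mul_of_nonneg_right hcA (by positivity)
  · intro j
    rw [← hH]
    rw [Polynomial.coeff_add, Polynomial.coeff_X, Polynomial.coeff_C]
    have htH : |(t : ℝ)| ≤ H := by
      rw [abs_of_nonneg (by exact_mod_cast ht0)]
      linarith
    by_cases hj0 : j = 0
    · subst hj0
      simpa using htH
    · by_cases hj1 : j = 1
      · subst hj1
        simpa using hH1
      · have h6 : ¬ (1 = j) := fun h => hj1 h.symm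
        rw [if_neg h6, if_neg hj0]
        simp only [add_zero, Int.cast_zero, abs_zero]
        linarith
  · intro z hz h0
    apply htZ
    have h2 : (t : ℂ) = -z := by
      have : (Polynomial.aeval z) (Polynomial.X + Polynomial.C t : ℤ[X]) = z + (t : ℂ) := by
        simp
      rw [this] at h0
      linear_combination h0
    have h3 : ∃ t : ℤ, (t : ℂ) = -z := ⟨t, h2⟩
    refine mem_image.2 ⟨z, hz, ?_⟩
    rw [dif_pos h3]
    have h4 := h3.choose_spec
    exact_mod_cast h4.trans h2.symm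

end Pool.Agent.Helper88.MP
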