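import Pool.Agent.Helper88.MP.Rand

/-!
MP_120218, random bounded perturbations: the induction over the blocks.
-/

set_option autoImplicit false

namespace Pool.Agent.Helper88.MP

open Finset
open scoped Pointwise

/-- the one-step theorem (many translates) for given constants -/
def Step (ε : ℝ) (M : ℕ) (c : ℝ) : Prop :=
  ∀ X B : Finset ℤ, X.Nonempty → B.Nonempty → (∀ x ∈ X, x ≠ 0) →
    ((∀ b ∈ B, 0 < b) ∨ (∀ b ∈ B, b < -(M : ℤ))) →
    ∃ t : ℕ, t ≤ M ∧
      c * ((X.card : ℝ) * (B.card : ℝ)) ^ (1 - ε) ≤ ((X * B.image (fun b => b + (t : ℤ))).card : ℝ)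

/-- the perturbed set -/
def per {α : Type} [Fintype α] {q : ℕ} (v : α → ℤ) (f : α → Fin q) : Finset ℤ :=
  univ.image (fun a => v a + ((f a : ℕ) : ℤ))

theorem bad_count {α β γ : Type} [Fintype α] [Fintype β] [Fintype γ] (E : α ≃ β × γ)
    (P : α → Prop) (Q : β → Prop) (R : β → γ → Prop) [DecidablePred P] [DecidablePred Q]
    [∀ b, DecidablePred (R b)]
    (h : ∀ a, P a → Q (E a).1 ∨ (¬ Q (E a).1 ∧ R (E a).1 (E a).2)) (x y : ℝ) (hy : 0 ≤ y)
    (h1 : ((univ.filter Q).card : ℝ) ≤ x)
    (h2 : ∀ b, ¬ Q b → ((univ.filter (R b)).card : ℝ) ≤ y) :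
    ((univ.filter P).card : ℝ) ≤ x * (Fintype.card γ : ℝ) + (Fintype.card β : ℝ) * y := by
  classical
  have hc : (univ.filter P).card ≤
      ((univ : Finset (β × γ)).filter (fun z => Q z.1 ∨ (¬ Q z.1 ∧ R z.1 z.2))).card := by
    refine card_le_card_of_injOn E ?_ E.injective.injOn
    intro a ha
    have := (mem_filter.1 ha).2
    exact mem_filter.2 ⟨mem_univ _, h a this⟩
  have hsum : ((univ : Finset (β × γ)).filter (fun z => Q z.1 ∨ (¬ Q z.1 ∧ R z.1 z.2))).card =
      ∑ b : β, ((univ : Finset γ).filter (fun g => Q b ∨ (¬ Q b ∧ R b g))).card := by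
    rw [card_filter, ← univ_product_univ, sum_product]
    refine sum_congr rfl fun b _ => ?_
    rw [card_filter]
  have hterm : ∀ b : β, (((univ : Finset γ).filter (fun g => Q b ∨ (¬ Q b ∧ R b g))).card : ℝ) ≤
      (if Q b then (Fintype.card γ : ℝ) else 0) + y := by
    intro b
    by_cases hb : Q b
    · rw [if_pos hb]
      have : (((univ : Finset γ).filter (fun g => Q b ∨ (¬ Q b ∧ R b g))).card : ℝ) ≤
          (Fintype.card γ : ℝ) := by
        exact_mod_cast card_le_univ _
      linarith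
    · rw [if_neg hb, zero_add]
      refine le_trans ?_ (h2 b hb)
      apply Nat.cast_le.2
      apply card_le_card
      intro g hg
      have := (mem_filter.1 hg).2
      exact mem_filter.2 ⟨mem_univ _, (this.resolve_left hb).2⟩
  calc ((univ.filter P).card : ℝ) ≤
      ((∑ b : β, ((univ : Finset γ).filter (fun g => Q b ∨ (¬ Q b ∧ R b g))).card : ℕ) : ℝ) := by
        rw [← hsum]
        exact_mod_cast hc
    _ = ∑ b : β, (((univ : Finset γ).filter (fun g => Q b ∨ (¬ Q b ∧ R b g))).card : ℝ) := by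
        push_cast
        rfl
    _ ≤ ∑ b : β, ((if Q b then (Fintype.card γ : ℝ) else 0) + y) := sum_le_sum fun b _ => hterm b
    _ = ((univ.filter Q).card : ℝ) * (Fintype.card γ : ℝ) + (Fintype.card β : ℝ) * y := by
        rw [sum_add_distrib, sum_const, card_univ, nsmul_eq_mul, ← sum_filter, sum_const,
          nsmul_eq_mul]
    _ ≤ x * (Fintype.card γ : ℝ) + (Fintype.card β : ℝ) * y := by
        have : (0 : ℝ) ≤ (Fintype.card γ : ℝ) := by positivity
        nlinarith

theorem ind (ε : ℝ) (M : ℕ) (c : ℝ) (hS : Step ε M c) (hε : 0 ≤ ε) (hc : 0 < c) (hc1 : c ≤ 1)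
    (n K : ℕ) (hn : 1 ≤ n) :
    ∀ k : ℕ, k ≤ K → ∀ (α : Type) [Fintype α] [DecidableEq α] (v : α → ℤ),
      Function.Injective v → ∀ e : Fin k → Fin n → α,
      (∀ i j i' j', e i j = e i' j' → i = i' ∧ j = j') →
      ((∀ i j, 0 < v (e i j)) ∨ (∀ i j, v (e i j) < -(M : ℤ))) →
      ∀ X : Finset ℤ, X.Nonempty → (∀ x ∈ X, x ≠ 0) → X.card ≤ n ^ (K - k) →
      (((univ : Finset (α → Fin (M + 1))).filter (fun f =>
          ¬ ((c / (4 * (M + 1)) * (n : ℝ) ^ (1 - K * ε)) ^ k * (X.card : ℝ) ≤
            ((X * (per v f) ^ k).card : ℝ)))).card : ℝ) ≤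
        k * Real.exp (-(c / (4 * (M + 1)) * (n : ℝ) ^ (1 - K * ε))) *
          ((M : ℝ) + 1) ^ (Fintype.card α) := by
  classical
  intro k
  induction k with
  | zero =>
    intro _ α _ _ v _ e _ _ X _ _ _
    have : ((univ : Finset (α → Fin (M + 1))).filter (fun f =>
          ¬ ((c / (4 * (M + 1)) * (n : ℝ) ^ (1 - K * ε)) ^ 0 * (X.card : ℝ) ≤
            ((X * (per v f) ^ 0).card : ℝ)))) = ∅ := by
      rw [filter_eq_empty_iff]
      intro f _
      simp
    rw [this]
    simp
  | succ k ih =>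
    intro hk α _ _ v hv e he hadm X hX hX0 hXc
    have hn0 : (0 : ℝ) < n := by exact_mod_cast hn
    have hn1 : (1 : ℝ) ≤ n := by exact_mod_cast hn
    set q : ℕ := M + 1 with hq
    have hq0 : (0 : ℝ) < q := by exact_mod_cast Nat.succ_pos M
    have hqM : ((M : ℝ) + 1) = (q : ℝ) := by rw [hq]; push_cast; ring
    rw [hqM]
    simp only [hqM] at ih
    set θ : ℝ := c / (4 * q) * (n : ℝ) ^ (1 - K * ε) with hθ
    have hθ0 : 0 < θ := by positivity
    -- the first block
    let p : α → Prop := fun a => a ∈ (univ : Finset (Fin n)).image (e 0)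
    let B : Finset ℤ := ((univ : Finset (Fin n)).image (e 0)).image v
    have hBcard : B.card = n := by
      rw [card_image_of_injective _ hv, card_image_of_injective _ ?_, card_univ, Fintype.card_fin]
      intro j j' h
      exact (he 0 j 0 j' h).2
    have hBne : B.Nonempty := by
      rw [← card_pos, hBcard]
      omega
    have hBadm : (∀ b ∈ B, 0 < b) ∨ (∀ b ∈ B, b < -(M : ℤ)) := by
      rcases hadm with h | h
      · left
        intro b hb
        obtain ⟨a, ha, rfl⟩ := mem_image.1 hb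
        obtain ⟨j, -, rfl⟩ := mem_image.1 ha
        exact h 0 j
      · right
        intro b hb
        obtain ⟨a, ha, rfl⟩ := mem_image.1 hb
        obtain ⟨j, -, rfl⟩ := mem_image.1 ha
        exact h 0 j
    obtain ⟨t, htM, hP⟩ := hS X B hX hBne hX0 hBadm
    rw [hBcard] at hP
    let t' : Fin q := ⟨t, by omega⟩
    let v1 : {a // p a} → ℤ := fun a => v a
    let v2 : {a // ¬ p a} → ℤ := fun a => v a
    have hshf : shf v1 t = B.image (fun b => b + (t : ℤ)) := by
      ext z
      simp only [shf, v1, B, mem_image, mem_univ, true_and]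
      constructor
      · rintro ⟨⟨a, ha⟩, rfl⟩
        obtain ⟨j, -, hj⟩ := mem_image.1 ha
        exact ⟨v a, ⟨a, ⟨j, hj⟩, rfl⟩, rfl⟩
      · rintro ⟨_, ⟨a, ⟨j, hj⟩, rfl⟩, rfl⟩
        exact ⟨⟨a, mem_image.2 ⟨j, mem_univ _, hj⟩⟩, rfl⟩
    -- size of the full product
    have hXn : ((X.card : ℝ) * n) ≤ (n : ℝ) ^ K := by
      have h1 : (X.card : ℝ) ≤ (n : ℝ) ^ (K - (k + 1)) := by exact_mod_cast hXc
      calc (X.card : ℝ) * n ≤ (n : ℝ) ^ (K - (k + 1)) * n := mul_le_mul_of_nonneg_right h1 hn0.le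
        _ = (n : ℝ) ^ (K - (k + 1) + 1) := by rw [pow_succ]
        _ ≤ (n : ℝ) ^ K := pow_le_pow_right₀ hn1 (by omega)
    have hXc0 : (0 : ℝ) < X.card := by exact_mod_cast card_pos.2 hX
    have hP2 : 4 * q * θ * (X.card : ℝ) ≤ ((X * shf v1 t).card : ℝ) := by
      rw [hshf]
      refine le_trans ?_ hP
      have h1 : (n : ℝ) ^ (-(K * ε)) ≤ ((X.card : ℝ) * n) ^ (-ε) := by
        have h2 : (n : ℝ) ^ (-(K * ε)) = ((n : ℝ) ^ K) ^ (-ε) := by
          rw [← Real.rpow_natCast, ← Real.rpow_mul hn0.le]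
          congr 1
          ring
        rw [h2]
        exact Real.rpow_le_rpow_of_nonpos (by positivity) hXn (by linarith)
      have h3 : ((X.card : ℝ) * n) ^ (1 - ε) = ((X.card : ℝ) * n) * ((X.card : ℝ) * n) ^ (-ε) := by
        rw [sub_eq_add_neg, Real.rpow_add (by positivity), Real.rpow_one]
      have h4 : (n : ℝ) ^ (1 - K * ε) = n * (n : ℝ) ^ (-(K * ε)) := by
        rw [sub_eq_add_neg, Real.rpow_add hn0, Real.rpow_one]
      rw [h3]
      calc 4 * q * θ * (X.card : ℝ) = c * ((X.card : ℝ) * n * (n : ℝ) ^ (-(K * ε))) := by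
            rw [hθ, h4]
            field_simp
        _ ≤ c * ((X.card : ℝ) * n * ((X.card : ℝ) * n) ^ (-ε)) := by
            apply mul_le_mul_of_nonneg_left _ hc.le
            exact mul_le_mul_of_nonneg_left h1 (by positivity)
    -- the equivalence
    let E : (α → Fin q) ≃ ({a // p a} → Fin q) × ({a // ¬ p a} → Fin q) :=
      Equiv.piEquivPiSubtypeProd p (fun _ => Fin q)
    have hstep := rand_step v1 X hX t'
    have hlower : ∀ h : {a // p a} → Fin q,
        ¬ (4 * (q : ℝ) * ((X * sel v1 t' h).card : ℝ) < ((X * shf v1 t).card : ℝ)) →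
        θ * (X.card : ℝ) ≤ ((X * sel v1 t' h).card : ℝ) := by
      intro h hh
      push Not at hh
      have := le_trans hP2 hh
      have h5 : 4 * (q : ℝ) * (θ * (X.card : ℝ)) ≤ 4 * q * ((X * sel v1 t' h).card : ℝ) := by
        linarith
      exact le_of_mul_le_mul_left h5 (by positivity)
    have hselcard : ∀ h : {a // p a} → Fin q, (sel v1 t' h).card ≤ n := by
      intro h
      refine le_trans card_image_le (le_trans (card_filter_le _ _) ?_)
      rw [card_univ, Fintype.card_subtype]
      have : (univ.filter p) = (univ : Finset (Fin n)).image (e 0) := by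
        ext a
        simp [p]
      rw [this]
      refine le_trans card_image_le ?_
      rw [card_univ, Fintype.card_fin]
    have hsel0 : ∀ h : {a // p a} → Fin q, ∀ z ∈ sel v1 t' h, z ≠ 0 := by
      intro h z hz
      obtain ⟨a, -, rfl⟩ := mem_image.1 hz
      have ha : v1 a ∈ B := mem_image.2 ⟨a.1, a.2, rfl⟩
      rcases hBadm with h1 | h1
      · have := h1 _ ha
        have h2 : (0 : ℤ) ≤ ((t' : ℕ) : ℤ) := by positivity
        omega
      · have := h1 _ ha
        have h2 : ((t' : ℕ) : ℤ) ≤ M := by exact_mod_cast htM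
        omega
    have hper : ∀ f : α → Fin q, X * sel v1 t' (E f).1 * (per v2 (E f).2) ^ k ⊆
        X * (per v f) ^ (k + 1) := by
      intro f
      rw [pow_succ', ← mul_assoc]
      refine mul_subset_mul (mul_subset_mul_left ?_) (pow_subset_pow_left ?_)
      · intro z hz
        obtain ⟨a, ha, rfl⟩ := mem_image.1 hz
        have h1 : (E f).1 a = t' := (mem_filter.1 ha).2
        have h2 : f a.1 = t' := h1
        refine mem_image.2 ⟨a.1, mem_univ _, ?_⟩
        rw [h2]
      · intro z hz
        obtain ⟨a, -, rfl⟩ := mem_image.1 hz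
        exact mem_image.2 ⟨a.1, mem_univ _, rfl⟩
    have hcount := bad_count E
      (P := fun f => ¬ (θ ^ (k + 1) * (X.card : ℝ) ≤ ((X * (per v f) ^ (k + 1)).card : ℝ)))
      (Q := fun h => 4 * (q : ℝ) * ((X * sel v1 t' h).card : ℝ) < ((X * shf v1 t').card : ℝ))
      (R := fun h g => ¬ (θ ^ k * ((X * sel v1 t' h).card : ℝ) ≤
        ((X * sel v1 t' h * (per v2 g) ^ k).card : ℝ)))
      ?_ (Real.exp (-θ) * (q : ℝ) ^ (Fintype.card {a // p a}))
      (k * Real.exp (-θ) * (q : ℝ) ^ (Fintype.card {a // ¬ p a})) (by positivity) ?_ ?_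
    · refine le_trans hcount (le_of_eq ?_)
      have hcard : Fintype.card {a // p a} + Fintype.card {a // ¬ p a} = Fintype.card α := by
        rw [Fintype.card_subtype_compl]
        have := Fintype.card_subtype_le p
        omega
      rw [Fintype.card_fun, Fintype.card_fun, Fintype.card_fin, ← hcard, pow_add]
      push_cast
      ring
    · intro f hf
      by_cases hQ : 4 * (q : ℝ) * ((X * sel v1 t' (E f).1).card : ℝ) < ((X * shf v1 t').card : ℝ)
      · exact Or.inl hQ
      · refine Or.inr ⟨hQ, ?_⟩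
        intro hR
        apply hf
        have h6 := hlower _ hQ
        have h7 : ((X * sel v1 t' (E f).1 * (per v2 (E f).2) ^ k).card : ℝ) ≤
            ((X * (per v f) ^ (k + 1)).card : ℝ) := by
          exact_mod_cast card_le_card (hper f)
        calc θ ^ (k + 1) * (X.card : ℝ) = θ ^ k * (θ * (X.card : ℝ)) := by ring
          _ ≤ θ ^ k * ((X * sel v1 t' (E f).1).card : ℝ) :=
              mul_le_mul_of_nonneg_left h6 (by positivity)
          _ ≤ _ := le_trans hR h7
    · refine le_trans hstep ?_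
      apply mul_le_mul_of_nonneg_right _ (by positivity)
      apply Real.exp_le_exp.2
      apply neg_le_neg
      rw [le_div_iff₀ (by positivity)]
      have h8 : ((X * shf v1 t).card : ℝ) = ((X * shf v1 t').card : ℝ) := rfl
      rw [← h8]
      nlinarith [hP2]
    · intro h hQ
      have h6 := hlower _ hQ
      have hpos : 0 < (X * sel v1 t' h).card := by
        have : (0 : ℝ) < ((X * sel v1 t' h).card : ℝ) := lt_of_lt_of_le (by positivity) h6
        exact_mod_cast this
      refine ih (by omega) {a // ¬ p a} v2 (fun a b hab => Subtype.ext (hv hab))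
        (fun i j => ⟨e i.succ j, ?_⟩) ?_ ?_ (X * sel v1 t' h) (card_pos.1 hpos) ?_ ?_
      · intro hp
        obtain ⟨j', -, hj'⟩ := mem_image.1 hp
        have := (he 0 j' i.succ j hj').1
        exact absurd this (Fin.succ_ne_zero i).symm
      · intro i j i' j' hh
        have := he i.succ j i'.succ j' (congrArg Subtype.val hh)
        exact ⟨Fin.succ_injective _ this.1, this.2⟩
      · rcases hadm with h1 | h1
        · exact Or.inl fun i j => h1 i.succ j
        · exact Or.inr fun i j => h1 i.succ j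
      · intro z hz
        obtain ⟨x, hx, y, hy, rfl⟩ := mem_mul.1 hz
        exact mul_ne_zero (hX0 x hx) (hsel0 h y hy)
      · refine le_trans card_mul_le (le_trans (Nat.mul_le_mul hXc (hselcard h)) ?_)
        rw [← pow_succ]
        exact Nat.pow_le_pow_right hn (by omega)

end Pool.Agent.Helper88.MP
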