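import Pool.Agent.Helper88.MP.SmoothB

/-!
MP_120218, smoothed version: at most `C ^ N` maps are bad, for `q ≤ N ^ (c log log N)`.
-/

set_option autoImplicit false

namespace Pool.Agent.Helper88.MP

open Finset
open scoped Pointwise

theorem fewbadG (hone : ∀ ε : ℝ, 0 < ε → ∃ (m : ℕ) (c : ℝ), 1 ≤ m ∧ 0 < c ∧ Groups ε m c)
    (k : ℕ) (hk : 1 ≤ k) (ε : ℝ) (hε : 0 < ε) :
    ∃ (C : ℕ) (c : ℝ), 1 ≤ C ∧ 0 < c ∧ ∀ (α : Type) [Fintype α] [DecidableEq α] [Nonempty α]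
      (v : α → ℤ), Function.Injective v → ∀ q : ℕ, 1 ≤ q →
      (q : ℝ) ≤ (Fintype.card α : ℝ) ^ (c * Real.log (Real.log (Fintype.card α))) →
      (∀ x : ℤ, (((univ : Finset α).filter (fun a => x ≤ v a ∧ v a < x + q)).card : ℝ) ≤
        (Fintype.card α : ℝ) ^ c) →
      ((univ : Finset (α → Fin q)).filter (fun f =>
        ¬ (c * (Fintype.card α : ℝ) ^ ((k : ℝ) - ε) ≤ (((per v f) ^ k).card : ℝ)))).card ≤
        C ^ Fintype.card α := by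
  classical
  have hk1 : (1 : ℝ) ≤ k := by exact_mod_cast hk
  have hk0 : (0 : ℝ) < k := by linarith
  obtain ⟨d, hd0, hd1, hdε⟩ : ∃ d : ℝ, 0 < d ∧ d ≤ 1 ∧ d ≤ ε :=
    ⟨min ε 1, lt_min hε one_pos, min_le_right _ _, min_le_left _ _⟩
  obtain ⟨e', he', he0⟩ : ∃ e' : ℝ, (k : ℝ) ^ 2 * e' = d / 2 ∧ 0 < e' :=
    ⟨d / (2 * (k : ℝ) ^ 2), by field_simp, by positivity⟩
  obtain ⟨μ, hμ, hμ0⟩ : ∃ μ : ℝ, μ * k = d / 2 ∧ 0 < μ :=
    ⟨d / (2 * k), by field_simp, by positivity⟩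
  have hμ1 : μ ≤ 1 / 2 := by nlinarith
  have hke2 : (k : ℝ) * e' ≤ 1 / 2 := by
    have : (k : ℝ) * e' ≤ (k : ℝ) ^ 2 * e' := by
      apply mul_le_mul_of_nonneg_right _ he0.le
      nlinarith
    linarith
  obtain ⟨m, c₀, hm, hc₀, hG⟩ := hone e' he0
  obtain ⟨p, rfl⟩ : ∃ p, m = p + 1 := ⟨m - 1, by omega⟩
  obtain ⟨N₁, hN₁⟩ := losses μ hμ0 (by linarith) (4 * ((p : ℝ) + 2) * k) (by positivity)
  obtain ⟨N₀, hN₀⟩ : ∃ N₀ : ℕ, N₀ = max N₁ (max 1 ⌈Real.exp 4⌉₊) := ⟨_, rfl⟩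
  have hN₀1 : N₁ ≤ N₀ := by
    rw [hN₀]
    exact le_max_left _ _
  have hN₀2 : 1 ≤ N₀ := by
    rw [hN₀]
    exact le_trans (le_max_left _ _) (le_max_right _ _)
  have hN₀3 : Real.exp 4 ≤ N₀ := by
    refine le_trans (Nat.le_ceil _) ?_
    rw [hN₀]
    exact_mod_cast le_trans (le_max_right _ _) (le_max_right _ _)
  have hN₀p : (0 : ℝ) < N₀ := by exact_mod_cast hN₀2
  obtain ⟨D, hD, hD0⟩ : ∃ D : ℝ, D = c₀ / ((p + 1 : ℕ) : ℝ) ∧ 0 < D := ⟨_, rfl, by positivity⟩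
  obtain ⟨c, hc, hcA, hcB, hcC, hcD⟩ : ∃ c : ℝ, 0 < c ∧ c ≤ c₀ / 4 ∧ c ≤ μ / 8 ∧ c ≤ D ^ k ∧
      c ≤ ((N₀ : ℝ) ^ k)⁻¹ := by
    refine ⟨min (min (c₀ / 4) (μ / 8)) (min (D ^ k) ((N₀ : ℝ) ^ k)⁻¹), ?_, ?_, ?_, ?_, ?_⟩
    · exact lt_min (lt_min (by positivity) (by positivity)) (lt_min (by positivity) (by positivity))
    · exact le_trans (min_le_left _ _) (min_le_left _ _)
    · exact le_trans (min_le_left _ _) (min_le_right _ _)
    · exact le_trans (min_le_right _ _) (min_le_left _ _)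
    · exact le_trans (min_le_right _ _) (min_le_right _ _)
  refine ⟨2 * (p + 1), c, by omega, hc, ?_⟩
  intro α _ _ _ v hv q hq hqN hint
  obtain ⟨N, hN⟩ : ∃ N : ℕ, N = Fintype.card α := ⟨_, rfl⟩
  have hNpos : 0 < N := by
    rw [hN]
    exact Fintype.card_pos
  have hN1 : (1 : ℝ) ≤ N := by exact_mod_cast hNpos
  have hNr : (0 : ℝ) < N := by linarith
  rw [← hN] at hqN hint ⊢
  by_cases hbig : N₀ ≤ N
  swap
  · have hemp : ((univ : Finset (α → Fin q)).filter (fun f =>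
        ¬ (c * (N : ℝ) ^ ((k : ℝ) - ε) ≤ (((per v f) ^ k).card : ℝ)))) = ∅ := by
      rw [filter_eq_empty_iff]
      intro f _
      rw [not_not]
      have h1 : (N : ℝ) ^ ((k : ℝ) - ε) ≤ (N : ℝ) ^ k := by
        rw [← Real.rpow_natCast]
        exact Real.rpow_le_rpow_of_exponent_le hN1 (by linarith)
      have h2 : (1 : ℝ) ≤ (((per v f) ^ k).card : ℝ) := by
        have : 0 < ((per v f) ^ k).card := by
          rw [card_pos]
          apply Finset.Nonempty.pow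
          obtain ⟨a⟩ := (inferInstance : Nonempty α)
          exact ⟨_, mem_image.2 ⟨a, mem_univ _, rfl⟩⟩
        exact_mod_cast this
      refine le_trans ?_ h2
      have h3 : (N : ℝ) ^ k ≤ (N₀ : ℝ) ^ k := by
        apply pow_le_pow_left₀ hNr.le
        exact_mod_cast (not_le.1 hbig).le
      calc c * (N : ℝ) ^ ((k : ℝ) - ε) ≤ ((N₀ : ℝ) ^ k)⁻¹ * (N₀ : ℝ) ^ k :=
            mul_le_mul hcD (le_trans h1 h3) (by positivity) (by positivity)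
        _ = 1 := inv_mul_cancel₀ (by positivity)
    rw [hemp, card_empty]
    exact Nat.zero_le _
  have hbigR : (N₀ : ℝ) ≤ N := by exact_mod_cast hbig
  by_contra hcon
  rw [not_le] at hcon
  obtain ⟨n, hn⟩ : ∃ n : ℕ, n = ⌈(N : ℝ) ^ (1 - μ)⌉₊ := ⟨_, rfl⟩
  have hn1 : (N : ℝ) ^ (1 - μ) ≤ n := by
    rw [hn]
    exact Nat.le_ceil _
  have hNμ : (1 : ℝ) ≤ (N : ℝ) ^ (1 - μ) := Real.one_le_rpow hN1 (by linarith)
  have hn2 : (n : ℝ) ≤ 2 * (N : ℝ) ^ (1 - μ) := by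
    have := Nat.ceil_lt_add_one (show (0 : ℝ) ≤ (N : ℝ) ^ (1 - μ) by positivity)
    rw [← hn] at this
    linarith
  have hnp : 1 ≤ n := by
    have : (1 : ℝ) ≤ n := le_trans hNμ hn1
    exact_mod_cast this
  have hqn := window c₀ c hc₀ hcA μ hμ1 q N n (le_trans hN₀3 hbigR) hn1 hqN
  have hloss := hN₁ c hc.le hcB N q (le_trans hN₀1 hbig) hq hqN
  obtain ⟨w, hw⟩ : ∃ w : ℕ, w = ⌊(N : ℝ) ^ c⌋₊ := ⟨_, rfl⟩
  have hwN : (w : ℝ) ≤ (N : ℝ) ^ c := by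
    rw [hw]
    exact Nat.floor_le (by positivity)
  have hNn : (p + 2) * (Nat.log 2 q + 1) * (w * (k * n + 1)) ≤ Fintype.card α := by
    rw [← hN]
    have h1 : (((p + 2) * (Nat.log 2 q + 1) * (w * (k * n + 1)) : ℕ) : ℝ) ≤ N := by
      push_cast
      have h2 : (k : ℝ) * n + 1 ≤ 4 * k * (N : ℝ) ^ (1 - μ) := by
        have h3 : (k : ℝ) * n ≤ k * (2 * (N : ℝ) ^ (1 - μ)) := mul_le_mul_of_nonneg_left hn2 hk0.le
        nlinarith
      calc ((p : ℝ) + 2) * ((Nat.log 2 q : ℝ) + 1) * ((w : ℝ) * (k * n + 1))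
          ≤ ((p : ℝ) + 2) * ((Nat.log 2 q : ℝ) + 1) *
            ((N : ℝ) ^ c * (4 * k * (N : ℝ) ^ (1 - μ))) := by
            apply mul_le_mul_of_nonneg_left _ (by positivity)
            exact mul_le_mul hwN h2 (by positivity) (by positivity)
        _ = (4 * ((p : ℝ) + 2) * k * ((Nat.log 2 q : ℝ) + 1) * (N : ℝ) ^ c) *
            (N : ℝ) ^ (1 - μ) := by ring
        _ ≤ (N : ℝ) ^ μ * (N : ℝ) ^ (1 - μ) := mul_le_mul_of_nonneg_right hloss (by positivity)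
        _ = N := by
            rw [← Real.rpow_add hNr]
            rw [show μ + (1 - μ) = 1 by ring, Real.rpow_one]
    exact_mod_cast h1
  obtain ⟨f, hf, hfk⟩ := extract p c₀ hc₀ e' he0.le hG k hk α v hv q hq w n hnp hqn
    (fun x => by
      rw [hw]
      exact Nat.le_floor (hint x)) hNn _ (by rw [← hN]; exact hcon)
  apply (mem_filter.1 hf).2
  refine le_trans ?_ hfk
  rw [← hD]
  have hs0 : 0 ≤ 1 - (k : ℝ) * e' := by linarith
  have h1 : (N : ℝ) ^ ((1 - μ) * (1 - k * e')) ≤ (n : ℝ) ^ (1 - k * e') := by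
    rw [Real.rpow_mul hNr.le]
    exact Real.rpow_le_rpow (by positivity) hn1 hs0
  have h2 : (N : ℝ) ^ ((k : ℝ) - ε) ≤ ((N : ℝ) ^ ((1 - μ) * (1 - k * e'))) ^ k := by
    rw [← Real.rpow_natCast ((N : ℝ) ^ ((1 - μ) * (1 - k * e'))), ← Real.rpow_mul hNr.le]
    apply Real.rpow_le_rpow_of_exponent_le hN1
    have h3 : (1 - μ) * (1 - k * e') * (k : ℝ) =
        k - μ * k - (k : ℝ) ^ 2 * e' + μ * ((k : ℝ) ^ 2 * e') := by ring
    rw [h3, he', hμ]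
    have h4 : 0 ≤ μ * (d / 2) := by positivity
    linarith
  calc c * (N : ℝ) ^ ((k : ℝ) - ε) ≤ D ^ k * ((N : ℝ) ^ ((1 - μ) * (1 - k * e'))) ^ k :=
        mul_le_mul hcC h2 (by positivity) (by positivity)
    _ = (D * (N : ℝ) ^ ((1 - μ) * (1 - k * e'))) ^ k := (mul_pow _ _ _).symm
    _ ≤ (D * (n : ℝ) ^ (1 - k * e')) ^ k := by
        apply pow_le_pow_left₀ (by positivity)
        exact mul_le_mul_of_nonneg_left h1 hD0.le

end Pool.Agent.Helper88.MP
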