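import Pool.Agent.Helper23.SM.FinalS
import Pool.Agent.Helper88.MP.SmoothC

/-!
MP_120218, smoothed version with lists: every element `a` is replaced by an element of an arbitrary `q`-element set
`S a` in `[a, a + Q)`.
-/

set_option autoImplicit false

namespace Pool.Agent.Helper88.MP

open Finset Pool.Agent.Helper23.SM
open scoped Pointwise

theorem mem_univ_any {β : Type} (i : Fintype β) (x : β) : x ∈ @Finset.univ β i :=
  @Finset.mem_univ β i x

open Classical in
/-- the union bound for lists -/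
theorem listCore (A : Finset ℤ) (hA : A.Nonempty) (Q q n C0 : ℕ) (hq : 1 ≤ q) (hn : 1 ≤ n)
    (hC0 : 1 ≤ C0) (Good : ℕ → Finset ℤ → Prop)
    (hfew : ∀ B : Finset {a // a ∈ A}, n ≤ B.card →
      ((univ : Finset ({b // b ∈ B} → Fin Q)).filter (fun h =>
        ¬ Good B.card (per (fun b : {b // b ∈ B} => (b.1 : ℤ)) h))).card ≤ C0 ^ B.card)
    (S : {a // a ∈ A} → Finset ℤ) (hS : ∀ a, (S a).card = q)
    (hSQ : ∀ a, ∀ s ∈ S a, (a : ℤ) ≤ s ∧ s < (a : ℤ) + Q) :
    ({f : {a // a ∈ A} → ℤ | (∀ a, f a ∈ S a) ∧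
        ¬ ∀ B : Finset {a // a ∈ A}, n ≤ B.card → Good B.card (B.image f)}.ncard : ℝ) ≤
      (3 * C0 * A.card / (q * n)) ^ n * (q : ℝ) ^ A.card := by
  have hq0 : (0 : ℝ) < (q : ℝ) := by exact_mod_cast hq
  have hn0 : (0 : ℝ) < (n : ℝ) := by exact_mod_cast hn
  have hC0' : (0 : ℝ) < (C0 : ℝ) := by exact_mod_cast hC0
  have hAc : 0 < A.card := Finset.card_pos.2 hA
  have hN : (0 : ℝ) < (A.card : ℝ) := by exact_mod_cast hAc
  have hcardA : Fintype.card {a // a ∈ A} = A.card := Fintype.card_coe A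
  obtain ⟨all, hall⟩ : ∃ all : Finset ({a // a ∈ A} → ℤ), all = Fintype.piFinset S := ⟨_, rfl⟩
  have hallc : all.card = q ^ A.card := by
    rw [hall, Fintype.card_piFinset, prod_congr rfl fun a _ => hS a, prod_const, card_univ, hcardA]
  obtain ⟨bad, hbad⟩ : ∃ bad : Finset {a // a ∈ A} → Finset ({a // a ∈ A} → ℤ), ∀ B, bad B =
      all.filter (fun f => ¬ Good B.card (B.image f)) := ⟨_, fun _ => rfl⟩
  have hone : ∀ B : Finset {a // a ∈ A}, n ≤ B.card →
      (bad B).card ≤ C0 ^ B.card * q ^ (A.card - B.card) := by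
    intro B hB
    obtain ⟨P, hP⟩ : ∃ P : Finset ({b // b ∈ B} → ℤ), P =
        ((univ : Finset ({b // b ∈ B} → Fin Q)).filter (fun h =>
          ¬ Good B.card (per (fun b : {b // b ∈ B} => (b.1 : ℤ)) h))).image
          (fun h b => (b.1 : ℤ) + ((h b : ℕ) : ℤ)) := ⟨_, rfl⟩
    have hPc : P.card ≤ C0 ^ B.card := by
      rw [hP]
      exact le_trans card_image_le (hfew B hB)
    obtain ⟨R, hR⟩ : ∃ R : Finset ({a // ¬ a ∈ B} → ℤ), R =
        Fintype.piFinset (fun a : {a // ¬ a ∈ B} => S a) := ⟨_, rfl⟩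
    have hRc : R.card = q ^ (A.card - B.card) := by
      rw [hR, Fintype.card_piFinset, prod_congr rfl fun a _ => hS _, prod_const, card_univ,
        Fintype.card_subtype_compl, hcardA, Fintype.card_coe]
    let E : ({a // a ∈ A} → ℤ) ≃ ({a // a ∈ B} → ℤ) × ({a // ¬ a ∈ B} → ℤ) :=
      Equiv.piEquivPiSubtypeProd (fun a => a ∈ B) (fun _ => ℤ)
    have h2 : (bad B).card ≤ (P ×ˢ R).card := by
      refine card_le_card_of_injOn E ?_ E.injective.injOn
      intro f hf
      rw [mem_coe, hbad, mem_filter, hall, Fintype.mem_piFinset] at hf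
      refine mem_coe.2 (mem_product.2 ⟨?_, ?_⟩)
      · have hlt : ∀ b : {b // b ∈ B}, (f b.1 - (b.1 : ℤ)).toNat < Q := by
          intro b
          have h3 := hSQ b.1 _ (hf.1 b.1)
          omega
        have hoff : ∀ b : {b // b ∈ B}, (b.1 : ℤ) + (((f b.1 - (b.1 : ℤ)).toNat : ℕ) : ℤ) = f b.1 := by
          intro b
          have h3 := hSQ b.1 _ (hf.1 b.1)
          omega
        rw [hP]
        refine mem_image.2 ⟨fun b => ⟨(f b.1 - (b.1 : ℤ)).toNat, hlt b⟩,
          mem_filter.2 ⟨mem_univ _, ?_⟩, ?_⟩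
        · intro h4
          apply hf.2
          have h5 : per (fun b : {b // b ∈ B} => (b.1 : ℤ))
              (fun b => (⟨(f b.1 - (b.1 : ℤ)).toNat, hlt b⟩ : Fin Q)) = B.image f := by
            ext z
            simp only [per, mem_image, mem_univ, true_and]
            constructor
            · rintro ⟨b, rfl⟩
              exact ⟨b.1, b.2, (hoff b).symm⟩
            · rintro ⟨a, ha, rfl⟩
              exact ⟨⟨a, ha⟩, hoff ⟨a, ha⟩⟩
          rw [h5] at h4
          exact h4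
        · funext b
          exact hoff b
      · rw [hR, Fintype.mem_piFinset]
        intro a
        exact hf.1 a
    rw [card_product, hRc] at h2
    exact le_trans h2 (Nat.mul_le_mul_right _ hPc)
  have hsub : {f : {a // a ∈ A} → ℤ | (∀ a, f a ∈ S a) ∧
        ¬ ∀ B : Finset {a // a ∈ A}, n ≤ B.card → Good B.card (B.image f)} ⊆
      ((((univ : Finset (Finset {a // a ∈ A})).filter (fun B => n ≤ B.card)).biUnion bad :
        Finset ({a // a ∈ A} → ℤ)) : Set ({a // a ∈ A} → ℤ)) := by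
    intro f hf
    obtain ⟨h1, h2⟩ := hf
    push Not at h2
    obtain ⟨B, hB1, hB2⟩ := h2
    rw [mem_coe]
    refine mem_biUnion.2 ⟨B, mem_filter.2 ⟨mem_univ _, hB1⟩, ?_⟩
    rw [hbad, mem_filter, hall, Fintype.mem_piFinset]
    exact ⟨h1, hB2⟩
  have h1 := Set.ncard_le_ncard hsub (Finset.finite_toSet _)
  rw [Set.ncard_coe_finset] at h1
  refine le_trans (Nat.cast_le.2 h1) ?_
  by_cases hx : (C0 : ℝ) / (q : ℝ) * (A.card : ℝ) ≤ (n : ℝ)
  · have hterm : ∀ B ∈ (univ : Finset (Finset {a // a ∈ A})).filter (fun B => n ≤ B.card),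
        ((bad B).card : ℝ) ≤ ((C0 : ℝ) / (q : ℝ)) ^ B.card * (q : ℝ) ^ A.card := by
      intro B hB
      have h1 : ((bad B).card : ℝ) ≤ (C0 : ℝ) ^ B.card * (q : ℝ) ^ (A.card - B.card) := by
        exact_mod_cast hone B (mem_filter.1 hB).2
      refine h1.trans (le_of_eq ?_)
      have hBA : B.card ≤ A.card := by
        have := card_le_univ B
        rwa [Fintype.card_coe] at this
      have h6 : (q : ℝ) ^ A.card = (q : ℝ) ^ B.card * (q : ℝ) ^ (A.card - B.card) := by
        rw [← pow_add]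
        congr 1
        omega
      rw [h6, div_pow]
      field_simp
    calc ((((univ : Finset (Finset {a // a ∈ A})).filter
            (fun B => n ≤ B.card)).biUnion bad).card : ℝ)
        ≤ ∑ B ∈ (univ : Finset (Finset {a // a ∈ A})).filter (fun B => n ≤ B.card),
          ((bad B).card : ℝ) := by
          exact_mod_cast card_biUnion_le
      _ ≤ ∑ B ∈ (univ : Finset (Finset {a // a ∈ A})).filter (fun B => n ≤ B.card),
          ((C0 : ℝ) / (q : ℝ)) ^ B.card * (q : ℝ) ^ A.card := sum_le_sum hterm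
      _ = (∑ B ∈ (univ : Finset (Finset {a // a ∈ A})).filter (fun B => n ≤ B.card),
          ((C0 : ℝ) / (q : ℝ)) ^ B.card) * (q : ℝ) ^ A.card := by rw [sum_mul]
      _ ≤ (3 * ((C0 : ℝ) / (q : ℝ) * (A.card : ℝ) / n)) ^ n * (q : ℝ) ^ A.card := by
          apply mul_le_mul_of_nonneg_right _ (by positivity)
          have h2 := sum_sharp {a // a ∈ A} ((C0 : ℝ) / (q : ℝ)) (by positivity) n hn
            (by rw [hcardA]; exact hAc) (by rw [hcardA]; exact hx)
          rw [hcardA] at h2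
          exact h2
      _ = _ := by
          congr 2
          field_simp
  · push Not at hx
    have h2 : ((((univ : Finset (Finset {a // a ∈ A})).filter
            (fun B => n ≤ B.card)).biUnion bad).card : ℝ) ≤ (q : ℝ) ^ A.card := by
      have h3 : (((univ : Finset (Finset {a // a ∈ A})).filter
            (fun B => n ≤ B.card)).biUnion bad) ⊆ all := by
        intro f hf
        obtain ⟨B, _, hfB⟩ := mem_biUnion.1 hf
        rw [hbad] at hfB
        exact (mem_filter.1 hfB).1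
      have h4 := card_le_card h3
      rw [hallc] at h4
      exact_mod_cast h4
    have h3 : (1 : ℝ) ≤ 3 * C0 * A.card / (q * n) := by
      rw [le_div_iff₀ (by positivity)]
      rw [div_mul_eq_mul_div, lt_div_iff₀ hq0] at hx
      nlinarith
    calc ((((univ : Finset (Finset {a // a ∈ A})).filter
            (fun B => n ≤ B.card)).biUnion bad).card : ℝ) ≤ 1 * (q : ℝ) ^ A.card := by
          rw [one_mul]; exact h2
      _ ≤ _ := mul_le_mul_of_nonneg_right (one_le_pow₀ h3) (by positivity)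

/-- part (1) with lists -/
theorem listsX (hall : ∀ (k : ℕ) (ε : ℝ), 1 ≤ k → 0 < ε →
      ∃ (m : ℕ) (c : ℝ), 0 < c ∧ AllX k ε m c)
    (k : ℕ) (hk : 1 ≤ k) (ε δ : ℝ) (hε : 0 < ε) (hδ : 0 < δ) :
    ∃ C c : ℝ, 0 < C ∧ 0 < c ∧ ∀ A : Finset ℤ, A.Nonempty → ∀ Q q n : ℕ, 1 ≤ q →
      (A.card : ℝ) ^ δ ≤ n → (Q : ℝ) ≤ (A.card : ℝ) ^ c →
      ∀ S : {a // a ∈ A} → Finset ℤ, (∀ a, (S a).card = q) →
      (∀ a, ∀ s ∈ S a, (a : ℤ) ≤ s ∧ s < (a : ℤ) + Q) →
      ({f : {a // a ∈ A} → ℤ | (∀ a, f a ∈ S a) ∧ ¬ ∀ B : Finset {a // a ∈ A}, n ≤ B.card →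
          GoodX k c ε B.card (B.image f)}.ncard : ℝ) ≤
        (C * A.card / (q * n)) ^ n * (q : ℝ) ^ A.card := by
  classical
  obtain ⟨C0, c0, hC0, hc0, hf⟩ := fewbadX hall k hk ε hε
  obtain ⟨c, hc, hcc0, hcδ⟩ : ∃ c : ℝ, 0 < c ∧ c ≤ c0 ∧ c ≤ δ * c0 :=
    ⟨min c0 (δ * c0), by positivity, min_le_left _ _, min_le_right _ _⟩
  refine ⟨3 * (C0 : ℝ), c, by positivity, hc, ?_⟩
  intro A hA Q q n hq hn hQ S hS hSQ
  have hN1 : (1 : ℝ) ≤ A.card := by exact_mod_cast card_pos.2 hA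
  have hNp : (0 : ℝ) < A.card := by linarith
  have hnp : 0 < n := by
    have : (0 : ℝ) < (n : ℝ) := lt_of_lt_of_le (Real.rpow_pos_of_pos hNp δ) hn
    exact_mod_cast this
  have hQ1 : 1 ≤ Q := by
    obtain ⟨a, ha⟩ := hA
    have h1 : 0 < (S ⟨a, ha⟩).card := by
      rw [hS]
      exact hq
    obtain ⟨s, hs⟩ := card_pos.1 h1
    have := hSQ ⟨a, ha⟩ s hs
    simp only at this
    omega
  refine listCore A hA Q q n C0 hq hnp hC0 (fun b P => GoodX k c ε b P) ?_ S hS hSQ
  intro B hB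
  have hB0 : 0 < B.card := lt_of_lt_of_le hnp hB
  have hBn : (A.card : ℝ) ^ δ ≤ (B.card : ℝ) := hn.trans (by exact_mod_cast hB)
  haveI : Nonempty {b // b ∈ B} := by
    obtain ⟨b, hb⟩ := Finset.card_pos.1 hB0
    exact ⟨⟨b, hb⟩⟩
  have h3 := hf {b // b ∈ B} (fun b => (b.1 : ℤ))
    (fun b b' hbb => Subtype.ext (Subtype.ext hbb)) Q hQ1
    (by
      rw [Fintype.card_coe]
      refine hQ.trans ?_
      calc (A.card : ℝ) ^ c ≤ (A.card : ℝ) ^ (δ * c0) :=
            Real.rpow_le_rpow_of_exponent_le hN1 hcδ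
        _ = ((A.card : ℝ) ^ δ) ^ c0 := Real.rpow_mul hNp.le _ _
        _ ≤ (B.card : ℝ) ^ c0 := Real.rpow_le_rpow (by positivity) hBn hc0.le)
  rw [Fintype.card_coe] at h3
  refine le_trans (card_le_card ?_) h3
  intro h hh
  refine mem_filter.2 ⟨mem_univ_any _ h, ?_⟩
  intro hcon
  apply (mem_filter.1 hh).2
  intro X hX hX0
  refine le_trans ?_ (hcon X hX hX0)
  exact mul_le_mul_of_nonneg_right (mul_le_mul_of_nonneg_right hcc0 (by positivity))
    (by positivity)

/-- part (2) with lists -/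
theorem listsG (k : ℕ) (ε δ : ℝ) (hε : 0 < ε) (hδ : 0 < δ)
    (hfew : ∃ (C : ℕ) (c : ℝ), 1 ≤ C ∧ 0 < c ∧
      ∀ (α : Type) [Fintype α] [DecidableEq α] [Nonempty α] (v : α → ℤ), Function.Injective v →
        ∀ q : ℕ, 1 ≤ q →
        (q : ℝ) ≤ (Fintype.card α : ℝ) ^ (c * Real.log (Real.log (Fintype.card α))) →
        (∀ x : ℤ, (((univ : Finset α).filter (fun a => x ≤ v a ∧ v a < x + q)).card : ℝ) ≤
          (Fintype.card α : ℝ) ^ c) →
        ((univ : Finset (α → Fin q)).filter (fun f =>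
          ¬ (c * (Fintype.card α : ℝ) ^ ((k : ℝ) - ε) ≤ (((per v f) ^ k).card : ℝ)))).card ≤
          C ^ Fintype.card α) :
    ∃ C c : ℝ, 0 < C ∧ 0 < c ∧ ∀ A : Finset ℤ, A.Nonempty → ∀ Q q n : ℕ, 1 ≤ q →
      (A.card : ℝ) ^ δ ≤ n →
      (Q : ℝ) ≤ (A.card : ℝ) ^ (c * Real.log (Real.log A.card)) →
      (∀ x : ℤ, ((A.filter (fun a => x ≤ a ∧ a < x + Q)).card : ℝ) ≤ (A.card : ℝ) ^ c) →
      ∀ S : {a // a ∈ A} → Finset ℤ, (∀ a, (S a).card = q) →
      (∀ a, ∀ s ∈ S a, (a : ℤ) ≤ s ∧ s < (a : ℤ) + Q) →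
      ({f : {a // a ∈ A} → ℤ | (∀ a, f a ∈ S a) ∧ ¬ ∀ B : Finset {a // a ∈ A}, n ≤ B.card →
          c * (B.card : ℝ) ^ ((k : ℝ) - ε) ≤ ((((B.image f) ^ k)).card : ℝ)}.ncard : ℝ) ≤
        (C * A.card / (q * n)) ^ n * (q : ℝ) ^ A.card := by
  classical
  obtain ⟨C0, c0, hC0, hc0, hmain⟩ := hfew
  obtain ⟨N1, hN1⟩ : ∃ N1 : ℝ, N1 = Real.exp (Real.exp (2 * |Real.log δ| + 1)) := ⟨_, rfl⟩
  have hN1p : 1 ≤ N1 := by
    rw [hN1]
    exact Real.one_le_exp (Real.exp_pos _).le
  obtain ⟨c, hc, hcc0, hcδ, hcN⟩ : ∃ c : ℝ, 0 < c ∧ c ≤ c0 ∧ c ≤ c0 * δ / 2 ∧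
      c * N1 ^ k ≤ 1 := by
    refine ⟨min c0 (min (c0 * δ / 2) (1 / N1 ^ k)), by positivity, min_le_left _ _,
      (min_le_right _ _).trans (min_le_left _ _), ?_⟩
    have h1 : min c0 (min (c0 * δ / 2) (1 / N1 ^ k)) ≤ 1 / N1 ^ k :=
      (min_le_right _ _).trans (min_le_right _ _)
    have h2 : 0 < N1 ^ k := by positivity
    calc min c0 (min (c0 * δ / 2) (1 / N1 ^ k)) * N1 ^ k ≤ 1 / N1 ^ k * N1 ^ k :=
          mul_le_mul_of_nonneg_right h1 h2.le
      _ = 1 := by field_simp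
  refine ⟨3 * (C0 : ℝ), c, by positivity, hc, ?_⟩
  intro A hA Q q n hq hn hQ hint S hS hSQ
  obtain ⟨N, hN⟩ : ∃ N : ℝ, N = (A.card : ℝ) := ⟨_, rfl⟩
  have hN1' : 1 ≤ N := by
    rw [hN]
    exact_mod_cast Finset.card_pos.2 hA
  have hNp : 0 < N := by linarith
  have hnp : 0 < n := by
    have : (0 : ℝ) < (n : ℝ) := lt_of_lt_of_le (Real.rpow_pos_of_pos (by rw [← hN]; exact hNp) δ) hn
    exact_mod_cast this
  have hQ1 : 1 ≤ Q := by
    obtain ⟨a, ha⟩ := hA
    have h1 : 0 < (S ⟨a, ha⟩).card := by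
      rw [hS]
      exact hq
    obtain ⟨s, hs⟩ := card_pos.1 h1
    have := hSQ ⟨a, ha⟩ s hs
    simp only at this
    omega
  refine listCore A hA Q q n C0 hq hnp hC0
    (fun b P => c * (b : ℝ) ^ ((k : ℝ) - ε) ≤ ((P ^ k).card : ℝ)) ?_ S hS hSQ
  rw [← hN] at hQ hn hint
  intro B hB
  have hB0 : 0 < B.card := lt_of_lt_of_le hnp hB
  have hBn : N ^ δ ≤ (B.card : ℝ) := hn.trans (by exact_mod_cast hB)
  have hB1 : (1 : ℝ) ≤ (B.card : ℝ) := by exact_mod_cast hB0
  haveI : Nonempty {b // b ∈ B} := by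
    obtain ⟨b, hb⟩ := Finset.card_pos.1 hB0
    exact ⟨⟨b, hb⟩⟩
  have hBA : (B.card : ℝ) ≤ N := by
    have h1 : B.card ≤ A.card := by
      have := card_le_univ B
      rwa [Fintype.card_coe] at this
    rw [hN]
    exact_mod_cast h1
  by_cases hsmall : N < N1
  · have hempty : ((univ : Finset ({b // b ∈ B} → Fin Q)).filter (fun h =>
        ¬ (c * (B.card : ℝ) ^ ((k : ℝ) - ε) ≤
          (((per (fun b : {b // b ∈ B} => (b.1 : ℤ)) h) ^ k).card : ℝ)))) = ∅ := by
      rw [Finset.filter_eq_empty_iff]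
      intro h _
      rw [not_not]
      have h1 : (B.card : ℝ) ^ ((k : ℝ) - ε) ≤ N1 ^ k := by
        calc (B.card : ℝ) ^ ((k : ℝ) - ε) ≤ (B.card : ℝ) ^ (k : ℝ) :=
              Real.rpow_le_rpow_of_exponent_le hB1 (by linarith)
          _ = (B.card : ℝ) ^ k := Real.rpow_natCast _ _
          _ ≤ N1 ^ k := pow_le_pow_left₀ (by positivity) (by linarith) k
      have h2 : (1 : ℝ) ≤ (((per (fun b : {b // b ∈ B} => (b.1 : ℤ)) h) ^ k).card : ℝ) := by
        have h3 : 0 < ((per (fun b : {b // b ∈ B} => (b.1 : ℤ)) h) ^ k).card := by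
          rw [card_pos]
          apply Finset.Nonempty.pow
          obtain ⟨b⟩ := (inferInstance : Nonempty {b // b ∈ B})
          exact ⟨_, mem_image.2 ⟨b, mem_univ _, rfl⟩⟩
        exact_mod_cast h3
      calc c * (B.card : ℝ) ^ ((k : ℝ) - ε) ≤ c * N1 ^ k := mul_le_mul_of_nonneg_left h1 hc.le
        _ ≤ 1 := hcN
        _ ≤ _ := h2
    refine le_trans (card_le_card (t := (univ : Finset ({b // b ∈ B} → Fin Q)).filter (fun h =>
        ¬ (c * (B.card : ℝ) ^ ((k : ℝ) - ε) ≤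
          (((per (fun b : {b // b ∈ B} => (b.1 : ℤ)) h) ^ k).card : ℝ)))) ?_) ?_
    · intro h hh
      exact mem_filter.2 ⟨mem_univ _, (mem_filter.1 hh).2⟩
    · rw [hempty, Finset.card_empty]
      exact Nat.zero_le _
  · push Not at hsmall
    have hlogN : Real.exp (2 * |Real.log δ| + 1) ≤ Real.log N := by
      rw [Real.le_log_iff_exp_le hNp, ← hN1]
      exact hsmall
    have hlogNp : 0 < Real.log N := lt_of_lt_of_le (Real.exp_pos _) hlogN
    have hllN : 2 * |Real.log δ| + 1 ≤ Real.log (Real.log N) :=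
      (Real.le_log_iff_exp_le hlogNp).2 hlogN
    have hllNp : 0 ≤ Real.log (Real.log N) := by
      have := abs_nonneg (Real.log δ)
      linarith
    have hlogB : δ * Real.log N ≤ Real.log (B.card : ℝ) := by
      have := Real.log_le_log (Real.rpow_pos_of_pos hNp δ) hBn
      rwa [Real.log_rpow hNp] at this
    have hlogBp : 0 < Real.log (B.card : ℝ) := lt_of_lt_of_le (by positivity) hlogB
    have hllB : Real.log (Real.log N) / 2 ≤ Real.log (Real.log (B.card : ℝ)) := by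
      have h1 := Real.log_le_log (by positivity) hlogB
      rw [Real.log_mul hδ.ne' hlogNp.ne'] at h1
      have h2 := neg_abs_le (Real.log δ)
      linarith
    have h3 := hmain {b // b ∈ B} (fun b => (b.1 : ℤ))
      (fun b b' hbb => Subtype.ext (Subtype.ext hbb)) Q hQ1
      (by
        rw [Fintype.card_coe]
        refine hQ.trans ?_
        rw [Real.rpow_def_of_pos hNp, Real.rpow_def_of_pos (by linarith)]
        apply Real.exp_le_exp.2
        have h4 : c * (Real.log N * Real.log (Real.log N)) ≤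
            c0 * δ / 2 * (Real.log N * Real.log (Real.log N)) :=
          mul_le_mul_of_nonneg_right hcδ (by positivity)
        have h5 : δ * Real.log N * (Real.log (Real.log N) / 2) ≤
            Real.log (B.card : ℝ) * Real.log (Real.log (B.card : ℝ)) :=
          mul_le_mul hlogB hllB (by linarith) hlogBp.le
        have h6 : c0 * (δ * Real.log N * (Real.log (Real.log N) / 2)) ≤
            c0 * (Real.log (B.card : ℝ) * Real.log (Real.log (B.card : ℝ))) :=
          mul_le_mul_of_nonneg_left h5 hc0.le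
        nlinarith)
      (by
        intro x
        rw [Fintype.card_coe]
        have h5 : ((univ : Finset {b // b ∈ B}).filter (fun b : {b // b ∈ B} =>
            x ≤ b.1.1 ∧ b.1.1 < x + Q)).card ≤
            (A.filter (fun a => x ≤ a ∧ a < x + Q)).card := by
          refine card_le_card_of_injOn (fun b : {b // b ∈ B} => b.1.1) ?_ ?_
          · intro b hb
            rw [mem_coe, mem_filter] at hb
            rw [mem_coe, mem_filter]
            exact ⟨b.1.2, hb.2⟩
          · intro b _ b' _ hbb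
            exact Subtype.ext (Subtype.ext hbb)
        refine (Nat.cast_le.2 h5).trans ((hint x).trans ?_)
        calc N ^ c ≤ N ^ (δ * c0) := by
              apply Real.rpow_le_rpow_of_exponent_le hN1'
              have : 0 < c0 * δ := by positivity
              linarith
          _ = (N ^ δ) ^ c0 := Real.rpow_mul hNp.le _ _
          _ ≤ (B.card : ℝ) ^ c0 := Real.rpow_le_rpow (by positivity) hBn hc0.le)
    rw [Fintype.card_coe] at h3
    refine le_trans (card_le_card ?_) h3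
    intro h hh
    refine mem_filter.2 ⟨mem_univ _, ?_⟩
    intro hcon
    apply (mem_filter.1 hh).2
    exact (mul_le_mul_of_nonneg_right hcc0 (by positivity)).trans hcon

end Pool.Agent.Helper88.MP
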