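import Pool.Agent.Helper88.MP.Lists
import Pool.Agent.Helper88.MP.AllX
import Pool.Agent.Helper23.SM.Groups

set_option autoImplicit false

namespace Pool.Agent.Results.MP_120218_co.Smoothed

open Finset

/-- **The Erdős–Szemerédi conjecture after small random moves, by products alone, for every set and
all its large subsets.**

For all `k ≥ 1` and `ε, δ > 0` there are `C, c > 0` such that the following holds for every finite
non-empty set `A` of integers, `N = |A|`, all integers `Q`, `q ≥ 1` and `n ≥ N ^ δ`, and all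
`q`-element sets `S_a` of integers in `[a, a + Q)`, `a ∈ A` (for instance `q = Q` and
`S_a = {a, …, a + q - 1}`, or `S_a = a + H`, `H` any set of `q` non-negative integers below `Q`).
Replace every `a` by an element `f(a)` of `S_a`, in all `q ^ N` ways.

(1) If `Q ≤ N ^ c`, then all but at most `(C N / (q n)) ^ n q ^ N` of the `q ^ N` choices `f` are such
that `|f(B)^k X| ≥ c |B|^(k-ε) |X|^(1-ε)` for every subset `B` of `A` with at least `n` elements and every
finite non-empty set `X` of non-zero complex numbers.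

(2) If `Q ≤ N ^ (c log log N)` and every interval of `Q` integers has at most `N ^ c` elements of `A`,
then all but at most `(C N / (q n)) ^ n q ^ N` of the `q ^ N` choices `f` are such that
`|f(B)^k| ≥ c |B|^(k-ε)` for every subset `B` of `A` with at least `n` elements.

For `n = N` this says that at most `C ^ N` of the `q ^ N` choices fail for `B = A`. -/
theorem result :
    ∀ k : ℕ, 1 ≤ k → ∀ ε δ : ℝ, 0 < ε → 0 < δ → ∃ C c : ℝ, 0 < C ∧ 0 < c ∧
      ∀ A : Finset ℤ, A.Nonempty → ∀ Q q n : ℕ, 1 ≤ q → (A.card : ℝ) ^ δ ≤ n →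
        ∀ S : A → Finset ℤ, (∀ a, (S a).card = q ∧ ∀ s ∈ S a, (a : ℤ) ≤ s ∧ s < (a : ℤ) + Q) →
        ((Q : ℝ) ≤ (A.card : ℝ) ^ c →
          ({f : A → ℤ | (∀ a, f a ∈ S a) ∧ ¬ ∀ B : Finset A, n ≤ B.card →
            ∀ X : Finset ℂ, X.Nonempty → (0 : ℂ) ∉ X →
              c * (B.card : ℝ) ^ ((k : ℝ) - ε) * (X.card : ℝ) ^ (1 - ε) ≤
                ({y : ℂ | ∃ b : Fin k → A, (∀ i, b i ∈ B) ∧ ∃ x ∈ X,
                  y = (∏ i, ((f (b i) : ℤ) : ℂ)) * x}.ncard : ℝ)}.ncard : ℝ)
            ≤ (C * A.card / (q * n)) ^ n * (q : ℝ) ^ A.card) ∧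
        ((Q : ℝ) ≤ (A.card : ℝ) ^ (c * Real.log (Real.log A.card)) →
          (∀ x : ℤ, ((A.filter (fun a => x ≤ a ∧ a < x + Q)).card : ℝ) ≤ (A.card : ℝ) ^ c) →
          ({f : A → ℤ | (∀ a, f a ∈ S a) ∧ ¬ ∀ B : Finset A, n ≤ B.card →
            c * (B.card : ℝ) ^ ((k : ℝ) - ε) ≤
              ({y : ℤ | ∃ b : Fin k → A, (∀ i, b i ∈ B) ∧ y = ∏ i, f (b i)}.ncard : ℝ)}.ncard : ℝ)
            ≤ (C * A.card / (q * n)) ^ n * (q : ℝ) ^ A.card) := by
  classical
  intro k hk ε δ hε hδ
  obtain ⟨C1, c1, hC1, hc1, h1⟩ := Helper88.MP.listsX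
    (fun k ε hk hε => Helper88.MP.allX k ε hk hε) k hk ε δ hε hδ
  obtain ⟨C2, c2, hC2, hc2, h2⟩ := Helper88.MP.listsG k ε δ hε hδ
    (Helper88.MP.fewbadG (fun ε hε => by
      obtain ⟨m, c, hm, hc, h⟩ := Helper23.SM.oneGroups ε hε
      exact ⟨m, c, hm, hc, h⟩) k hk ε hε)
  refine ⟨max C1 C2, min c1 c2, by positivity, by positivity, ?_⟩
  intro A hA Q q n hq hn S hS
  have hA1 : (1 : ℝ) ≤ (A.card : ℝ) := by exact_mod_cast Finset.card_pos.2 hA
  have hfin : ∀ p : (A → ℤ) → Prop, {f : A → ℤ | (∀ a, f a ∈ S a) ∧ p f}.Finite := by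
    intro p
    refine (Finset.finite_toSet (Fintype.piFinset S)).subset ?_
    intro f hf
    rw [Finset.mem_coe, Fintype.mem_piFinset]
    exact hf.1
  have hmono : ∀ C' : ℝ, C' ≤ max C1 C2 → 0 ≤ C' →
      (C' * A.card / (q * n)) ^ n * (q : ℝ) ^ A.card ≤
        (max C1 C2 * A.card / (q * n)) ^ n * (q : ℝ) ^ A.card := by
    intro C' hC' hC'0
    apply mul_le_mul_of_nonneg_right _ (by positivity)
    apply pow_le_pow_left₀ (by positivity)
    exact div_le_div_of_nonneg_right
      (mul_le_mul_of_nonneg_right hC' (by positivity)) (by positivity)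
  constructor
  · intro hQA
    have h3 := h1 A hA Q q n hq hn
      (hQA.trans (Real.rpow_le_rpow_of_exponent_le hA1 (min_le_left _ _))) S
      (fun a => (hS a).1) (fun a => (hS a).2)
    refine le_trans (Nat.cast_le.2 (Set.ncard_le_ncard ?_ (hfin _))) (h3.trans
      (hmono C1 (le_max_left _ _) hC1.le))
    intro f hf
    refine ⟨hf.1, fun hcon => hf.2 ?_⟩
    intro B hB X hX hX0
    have h4 := hcon B hB X hX hX0
    have h5 := Helper23.SM.convS k B f X
    rw [h5, Set.ncard_coe_finset]
    refine le_trans ?_ h4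
    exact mul_le_mul_of_nonneg_right
      (mul_le_mul_of_nonneg_right (min_le_left _ _) (by positivity)) (by positivity)
  · intro hQA hint
    by_cases hll : 0 ≤ Real.log (Real.log (A.card : ℝ))
    · have h3 := h2 A hA Q q n hq hn
        (hQA.trans (Real.rpow_le_rpow_of_exponent_le hA1
          (mul_le_mul_of_nonneg_right (min_le_right _ _) hll)))
        (fun x => (hint x).trans (Real.rpow_le_rpow_of_exponent_le hA1 (min_le_right _ _))) S
        (fun a => (hS a).1) (fun a => (hS a).2)
      refine le_trans (Nat.cast_le.2 (Set.ncard_le_ncard ?_ (hfin _)))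
        (h3.trans (hmono C2 (le_max_right _ _) hC2.le))
      intro f hf
      refine ⟨hf.1, fun hcon => hf.2 ?_⟩
      intro B hB
      refine le_trans (mul_le_mul_of_nonneg_right (min_le_right _ _) (by positivity))
        (le_trans (hcon B hB) (le_of_eq ?_))
      rw [← Set.ncard_coe_finset, ← Helper23.SM.kpr_eq]
      congr 2
      ext y
      rw [Finset.mem_coe, Helper23.SM.kpr, Finset.mem_image, Set.mem_ofPred_eq]
      constructor
      · rintro ⟨g, hg, rfl⟩
        rw [Fintype.mem_piFinset] at hg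
        choose b hb hbg using fun i => Finset.mem_image.1 (hg i)
        exact ⟨b, hb, Finset.prod_congr rfl fun i _ => (hbg i).symm⟩
      · rintro ⟨b, hb, rfl⟩
        refine ⟨fun i => f (b i), ?_, rfl⟩
        rw [Fintype.mem_piFinset]
        exact fun i => Finset.mem_image_of_mem _ (hb i)
    · exfalso
      push Not at hll
      have hA2 : (1 : ℝ) < (A.card : ℝ) := by
        rcases hA1.lt_or_eq with h4 | h4
        · exact h4
        · rw [← h4, Real.log_one, Real.log_zero] at hll
          exact absurd hll (lt_irrefl _)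
      have h5 : (A.card : ℝ) ^ (min c1 c2 * Real.log (Real.log A.card)) < 1 :=
        Real.rpow_lt_one_of_one_lt_of_neg hA2 (mul_neg_of_pos_of_neg (by positivity) hll)
      have h6 : (1 : ℝ) ≤ (Q : ℝ) := by
        obtain ⟨a, ha⟩ := hA
        have h7 : 0 < (S ⟨a, ha⟩).card := by
          rw [(hS _).1]
          exact hq
        obtain ⟨s, hs⟩ := Finset.card_pos.1 h7
        have h8 := (hS ⟨a, ha⟩).2 s hs
        simp only at h8
        have h9 : 1 ≤ Q := by omega
        exact_mod_cast h9
      linarith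

end Pool.Agent.Results.MP_120218_co.Smoothed
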