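import Pool.Agent.Helper88.MP.Ind
import Pool.Agent.Helper23.BK.Sides

/-!
MP_120218, random bounded perturbations: the theorem, from the one-step theorem for many translates.
-/

set_option autoImplicit false

namespace Pool.Agent.Helper88.MP

open Finset Pool.Agent.Helper23.BK
open scoped Pointwise

/-- the products of `k` elements -/
def kprod (k : ℕ) (A : Finset ℤ) : Finset ℤ :=
  (Fintype.piFinset (fun _ : Fin k => A)).image (fun f : Fin k → ℤ => ∏ i, f i)

theorem kprod_eq (k : ℕ) (A : Finset ℤ) : kprod k A = A ^ k := by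
  ext x
  rw [Finset.mem_pow]
  constructor
  · intro h
    obtain ⟨f, hf, rfl⟩ := Finset.mem_image.1 h
    rw [Fintype.mem_piFinset] at hf
    refine ⟨fun i => ⟨f i, hf i⟩, ?_⟩
    rw [List.prod_ofFn]
  · rintro ⟨f, rfl⟩
    refine Finset.mem_image.2 ⟨fun i => (f i : ℤ), ?_, ?_⟩
    · rw [Fintype.mem_piFinset]
      exact fun i => (f i).2
    · rw [List.prod_ofFn]

/-- the one-step theorem, as a hypothesis -/
def OneStep : Prop :=
  ∀ ε : ℝ, 0 < ε → ∃ m : ℕ, 0 < m ∧ ∀ T : Finset ℤ, m + (badZ T).card ≤ T.card →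
    ∃ c : ℝ, 0 < c ∧ ∀ X B : Finset ℤ, X.Nonempty → B.Nonempty → (0 : ℤ) ∉ X →
      ∃ t ∈ T, c * ((X.card : ℝ) * (B.card : ℝ)) ^ (1 - ε) ≤
        ((Finset.image₂ (fun x b : ℤ => x * (b + t)) X B).card : ℝ)

theorem bad_range (m : ℕ) :
    (badZ ((Finset.range (2 * m + 3)).image (fun t : ℕ => (t : ℤ)))).card ≤ m + 2 := by
  have hsub : badZ ((Finset.range (2 * m + 3)).image (fun t : ℕ => (t : ℤ))) ⊆
      insert 2 ((Finset.range (m + 1)).image (fun i => 2 * i + 1)) := by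
    intro p hp
    unfold badZ at hp
    obtain ⟨⟨a, b⟩, hab, hp⟩ := Finset.mem_biUnion.1 hp
    obtain ⟨ha, hb⟩ := Finset.mem_product.1 hab
    obtain ⟨s, hs, hs'⟩ := Finset.mem_image.1 ha
    obtain ⟨t, ht, ht'⟩ := Finset.mem_image.1 hb
    rw [Finset.mem_range] at hs ht
    simp only at hs' ht' hp
    rw [Nat.mem_primeFactors] at hp
    obtain ⟨hpp, hpd, hp0⟩ := hp
    have hle := Nat.le_of_dvd (Nat.pos_of_ne_zero hp0) hpd
    have hle2 : p ≤ 2 * m + 2 := by omega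
    rcases hpp.eq_two_or_odd with h | h
    · exact Finset.mem_insert.2 (Or.inl h)
    · refine Finset.mem_insert.2 (Or.inr (Finset.mem_image.2 ⟨p / 2, ?_, ?_⟩))
      · rw [Finset.mem_range]
        omega
      · omega
  refine le_trans (card_le_card hsub) (le_trans (card_insert_le _ _) ?_)
  have := card_image_le (s := Finset.range (m + 1)) (f := fun i => 2 * i + 1)
  rw [card_range] at this
  omega

theorem step_of (h : OneStep) (ε : ℝ) (hε : 0 < ε) :
    ∃ M : ℕ, ∃ c : ℝ, 0 < c ∧ c ≤ 1 ∧ Step ε M c := by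
  obtain ⟨m, hm, hT⟩ := h ε hε
  obtain ⟨c, hc, hX⟩ := hT ((Finset.range (2 * m + 3)).image (fun t : ℕ => (t : ℤ))) (by
    rw [card_image_of_injective _ Nat.cast_injective, card_range]
    have := bad_range m
    omega)
  refine ⟨2 * m + 2, min c 1, lt_min hc one_pos, min_le_right _ _, ?_⟩
  intro X B hXn hBn hX0 _
  obtain ⟨t, ht, hle⟩ := hX X B hXn hBn (fun h0 => hX0 0 h0 rfl)
  obtain ⟨s, hs, rfl⟩ := Finset.mem_image.1 ht
  rw [Finset.mem_range] at hs
  refine ⟨s, by omega, ?_⟩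
  have heq : X * B.image (fun b => b + (s : ℤ)) =
      Finset.image₂ (fun x b : ℤ => x * (b + (s : ℤ))) X B := by
    ext z
    rw [Finset.mem_mul, Finset.mem_image₂]
    constructor
    · rintro ⟨x, hx, y, hy, rfl⟩
      obtain ⟨b, hb, rfl⟩ := Finset.mem_image.1 hy
      exact ⟨x, hx, b, hb, rfl⟩
    · rintro ⟨x, hx, b, hb, rfl⟩
      exact ⟨x, hx, _, Finset.mem_image.2 ⟨b, hb, rfl⟩, rfl⟩
  rw [heq]
  refine le_trans ?_ hle
  exact mul_le_mul_of_nonneg_right (min_le_left _ _) (by positivity)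

/-- a family of `k` blocks of `n` elements of one sign -/
theorem blocks (A : Finset ℤ) (M k n : ℕ) (h : 2 * (k * n) + (M + 1) ≤ A.card + 1) :
    ∃ e : Fin k → Fin n → {a // a ∈ A},
      (∀ i j i' j', e i j = e i' j' → i = i' ∧ j = j') ∧
      ((∀ i j, (0 : ℤ) < (e i j : ℤ)) ∨ (∀ i j, ((e i j : ℤ)) < -(M : ℤ))) := by
  classical
  have key : ∀ S : Finset ℤ, S ⊆ A → k * n ≤ S.card → ∃ e : Fin k → Fin n → {a // a ∈ A},
      (∀ i j i' j', e i j = e i' j' → i = i' ∧ j = j') ∧ ∀ i j, (e i j : ℤ) ∈ S := by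
    intro S hS hc
    have : Fintype.card (Fin k × Fin n) ≤ Fintype.card {a // a ∈ S} := by
      rw [Fintype.card_prod, Fintype.card_fin, Fintype.card_fin, Fintype.card_coe]
      exact hc
    obtain ⟨g⟩ := Function.Embedding.nonempty_of_card_le this
    refine ⟨fun i j => ⟨(g (i, j) : ℤ), hS (g (i, j)).2⟩, ?_, fun i j => (g (i, j)).2⟩
    intro i j i' j' hh
    have h1 : (g (i, j) : ℤ) = (g (i', j') : ℤ) := by
      simpa using congrArg Subtype.val hh
    have h2 := g.injective (Subtype.ext h1)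
    exact ⟨congrArg Prod.fst h2, congrArg Prod.snd h2⟩
  have hsub : A ⊆ (A.filter (fun a => 0 < a) ∪ A.filter (fun a => a < -(M : ℤ))) ∪
      Finset.Icc (-(M : ℤ)) 0 := by
    intro a ha
    rw [mem_union, mem_union, mem_filter, mem_filter, Finset.mem_Icc]
    by_cases h1 : 0 < a
    · exact Or.inl (Or.inl ⟨ha, h1⟩)
    · by_cases h2 : a < -(M : ℤ)
      · exact Or.inl (Or.inr ⟨ha, h2⟩)
      · exact Or.inr ⟨not_lt.1 h2, not_lt.1 h1⟩
  have hI : (Finset.Icc (-(M : ℤ)) 0).card = M + 1 := by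
    rw [Int.card_Icc]
    omega
  have h3 := (card_le_card hsub).trans (card_union_le _ _)
  have h4 := card_union_le (A.filter (fun a => 0 < a)) (A.filter (fun a => a < -(M : ℤ)))
  by_cases hP : k * n ≤ (A.filter (fun a => 0 < a)).card
  · obtain ⟨e, he, hm⟩ := key _ (filter_subset _ _) hP
    exact ⟨e, he, Or.inl fun i j => (mem_filter.1 (hm i j)).2⟩
  · have hR : k * n ≤ (A.filter (fun a => a < -(M : ℤ))).card := by omega
    obtain ⟨e, he, hm⟩ := key _ (filter_subset _ _) hR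
    exact ⟨e, he, Or.inr fun i j => (mem_filter.1 (hm i j)).2⟩

/-- few bounded perturbations of a set of integers have a small `k`-fold product set -/
theorem perturb (hone : OneStep) (k : ℕ) (ε : ℝ) (hε : 0 < ε) :
    ∃ M : ℕ, ∃ c : ℝ, 0 < c ∧ ∀ A : Finset ℤ, A.Nonempty →
      (((univ : Finset ({a // a ∈ A} → Fin (M + 1))).filter (fun f =>
        ¬ (c * (A.card : ℝ) ^ ((k : ℝ) - ε) ≤
          ((kprod k (per (fun a : {a // a ∈ A} => (a : ℤ)) f)).card : ℝ)))).card : ℝ) ≤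
      Real.exp (-(c * (A.card : ℝ) ^ (1 - ε))) * ((M : ℝ) + 1) ^ A.card := by
  classical
  -- small sets
  have hsmall : ∀ (M k : ℕ) (c : ℝ) (A : Finset ℤ), A.Nonempty → 0 < c →
      c * (A.card : ℝ) ^ k ≤ 1 →
      (((univ : Finset ({a // a ∈ A} → Fin (M + 1))).filter (fun f =>
        ¬ (c * (A.card : ℝ) ^ ((k : ℝ) - ε) ≤
          ((kprod k (per (fun a : {a // a ∈ A} => (a : ℤ)) f)).card : ℝ)))).card : ℝ) ≤
      Real.exp (-(c * (A.card : ℝ) ^ (1 - ε))) * ((M : ℝ) + 1) ^ A.card := by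
    intro M k c A hA hc hcA
    have hA1 : (1 : ℝ) ≤ A.card := by exact_mod_cast card_pos.2 hA
    have hemp : ((univ : Finset ({a // a ∈ A} → Fin (M + 1))).filter (fun f =>
        ¬ (c * (A.card : ℝ) ^ ((k : ℝ) - ε) ≤
          ((kprod k (per (fun a : {a // a ∈ A} => (a : ℤ)) f)).card : ℝ)))) = ∅ := by
      rw [filter_eq_empty_iff]
      intro f _
      rw [not_not]
      have h1 : (A.card : ℝ) ^ ((k : ℝ) - ε) ≤ (A.card : ℝ) ^ k := by
        rw [← Real.rpow_natCast]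
        exact Real.rpow_le_rpow_of_exponent_le hA1 (by linarith)
      have h2 : (1 : ℝ) ≤ ((kprod k (per (fun a : {a // a ∈ A} => (a : ℤ)) f)).card : ℝ) := by
        have : 0 < (kprod k (per (fun a : {a // a ∈ A} => (a : ℤ)) f)).card := by
          rw [card_pos, kprod_eq]
          apply Finset.Nonempty.pow
          obtain ⟨a, ha⟩ := hA
          exact ⟨_, mem_image.2 ⟨⟨a, ha⟩, mem_univ _, rfl⟩⟩
        exact_mod_cast this
      exact le_trans (le_trans (mul_le_mul_of_nonneg_left h1 hc.le) hcA) h2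
    rw [hemp]
    simp only [card_empty, Nat.cast_zero]
    positivity
  rcases Nat.eq_zero_or_pos k with hk | hk
  · subst hk
    refine ⟨0, 1, one_pos, ?_⟩
    intro A hA
    exact hsmall 0 0 1 A hA one_pos (by simp)
  have hk1 : (1 : ℝ) ≤ k := by exact_mod_cast hk
  have hk0 : (0 : ℝ) < k := by linarith
  obtain ⟨d, hd0, hd1, hdε⟩ : ∃ d : ℝ, 0 < d ∧ d ≤ 1 ∧ d ≤ ε :=
    ⟨min ε 1, lt_min hε one_pos, min_le_right _ _, min_le_left _ _⟩
  obtain ⟨e', he', he0⟩ : ∃ e' : ℝ, e' * (2 * (k : ℝ) ^ 2) = d ∧ 0 < e' :=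
    ⟨d / (2 * (k : ℝ) ^ 2), by field_simp, by positivity⟩
  have hke1 : (k : ℝ) ^ 2 * e' ≤ d / 2 := by nlinarith
  have hke2 : (k : ℝ) * e' ≤ d / 2 := by
    have : (k : ℝ) * e' ≤ (k : ℝ) ^ 2 * e' := by
      apply mul_le_mul_of_nonneg_right _ he0.le
      nlinarith
    linarith
  obtain ⟨M, c1, hc1, hc11, hS⟩ := step_of hone e' he0
  obtain ⟨s, hs⟩ : ∃ s : ℝ, s = 1 - k * e' := ⟨_, rfl⟩
  have hs1 : s ≤ 1 := by
    rw [hs]
    have : 0 < (k : ℝ) * e' := by positivity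
    linarith
  have hs2 : 1 / 2 ≤ s := by
    rw [hs]
    linarith
  have hsε : 1 - ε ≤ s := by
    rw [hs]
    linarith
  have hsk : (k : ℝ) - ε ≤ s * k := by
    rw [hs]
    nlinarith
  obtain ⟨C2, hC2, hC20⟩ : ∃ C2 : ℝ, C2 = c1 / (4 * (M + 1)) / (4 * k) ∧ 0 < C2 :=
    ⟨_, rfl, by positivity⟩
  obtain ⟨N0, hN0⟩ : ∃ N0 : ℕ, N0 = max (2 * (M + 1) + 4 * k) ⌈(2 * k / C2) ^ 2⌉₊ := ⟨_, rfl⟩
  have hN01 : 2 * (M + 1) + 4 * k ≤ N0 := by rw [hN0]; exact le_max_left _ _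
  have hN02 : (2 * k / C2) ^ 2 ≤ (N0 : ℝ) := by
    rw [hN0]
    refine le_trans (Nat.le_ceil _) ?_
    exact_mod_cast le_max_right _ _
  have hN0p : (0 : ℝ) < N0 := by
    have : 0 < N0 := by omega
    exact_mod_cast this
  obtain ⟨c, hc0, hcA, hcB, hcC⟩ : ∃ c : ℝ, 0 < c ∧ c ≤ C2 ^ k ∧ c ≤ C2 / 2 ∧
      c ≤ ((N0 : ℝ) ^ k)⁻¹ := by
    refine ⟨min (C2 ^ k) (min (C2 / 2) ((N0 : ℝ) ^ k)⁻¹), ?_, min_le_left _ _, ?_, ?_⟩
    · exact lt_min (by positivity) (lt_min (by positivity) (by positivity))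
    · exact le_trans (min_le_right _ _) (min_le_left _ _)
    · exact le_trans (min_le_right _ _) (min_le_right _ _)
  refine ⟨M, c, hc0, ?_⟩
  intro A hA
  have hA1 : (1 : ℝ) ≤ A.card := by exact_mod_cast card_pos.2 hA
  have hA0 : (0 : ℝ) < A.card := by linarith
  by_cases hbig : N0 ≤ A.card
  swap
  · apply hsmall M k c A hA hc0
    have h1 : (A.card : ℝ) ^ k ≤ (N0 : ℝ) ^ k := by
      apply pow_le_pow_left₀ hA0.le
      exact_mod_cast (not_le.1 hbig).le
    calc c * (A.card : ℝ) ^ k ≤ ((N0 : ℝ) ^ k)⁻¹ * (N0 : ℝ) ^ k :=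
          mul_le_mul hcC h1 (by positivity) (by positivity)
      _ = 1 := inv_mul_cancel₀ (by positivity)
  -- large sets
  obtain ⟨n, hn⟩ : ∃ n : ℕ, n = (A.card - M - 1) / (2 * k) := ⟨_, rfl⟩
  have hn1 : 2 * (k * n) + (M + 1) ≤ A.card := by
    have := Nat.div_mul_le_self (A.card - M - 1) (2 * k)
    rw [← hn] at this
    have h2 : 2 * (k * n) = n * (2 * k) := by ring
    omega
  have hn2 : A.card ≤ 4 * k * n := by
    have h1 : A.card - M - 1 < (n + 1) * (2 * k) := by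
      rw [hn]
      exact (Nat.div_lt_iff_lt_mul (by omega)).1 (Nat.lt_succ_self _)
    have h2 : (n + 1) * (2 * k) = 2 * k * n + 2 * k := by ring
    have h3 : 4 * k * n = 2 * (2 * k * n) := by ring
    omega
  have hnp : 1 ≤ n := by
    by_contra hcon
    have : n = 0 := by omega
    rw [this] at hn2
    have := card_pos.2 hA
    omega
  obtain ⟨e, he, hadm⟩ := blocks A M k n (by omega)
  have hind := ind e' M c1 hS he0.le hc1 hc11 n k hnp k le_rfl {a // a ∈ A}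
    (fun a => (a : ℤ)) Subtype.val_injective e he hadm {1} (singleton_nonempty _)
    (by intro x hx; rw [mem_singleton] at hx; rw [hx]; norm_num)
    (by rw [card_singleton]; exact Nat.one_le_pow _ _ hnp)
  rw [Fintype.card_coe, ← hs] at hind
  -- comparison of the exponents
  have hnR : (0 : ℝ) < n := by exact_mod_cast hnp
  have hn2R : (A.card : ℝ) ≤ 4 * k * n := by exact_mod_cast hn2
  have hθ : C2 * (A.card : ℝ) ^ s ≤ c1 / (4 * (M + 1)) * (n : ℝ) ^ s := by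
    have h1 : (A.card : ℝ) ^ s ≤ (4 * k) * (n : ℝ) ^ s := by
      calc (A.card : ℝ) ^ s ≤ (4 * k * n) ^ s :=
            Real.rpow_le_rpow hA0.le hn2R (by linarith)
        _ = (4 * (k : ℝ)) ^ s * (n : ℝ) ^ s := Real.mul_rpow (by positivity) hnR.le
        _ ≤ (4 * k) * (n : ℝ) ^ s := by
            apply mul_le_mul_of_nonneg_right _ (by positivity)
            calc (4 * (k : ℝ)) ^ s ≤ (4 * (k : ℝ)) ^ (1 : ℝ) :=
                  Real.rpow_le_rpow_of_exponent_le (by linarith) hs1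
              _ = 4 * k := Real.rpow_one _
    rw [hC2, div_mul_eq_mul_div, div_le_iff₀ (by positivity)]
    calc c1 / (4 * (M + 1)) * (A.card : ℝ) ^ s ≤ c1 / (4 * (M + 1)) * ((4 * k) * (n : ℝ) ^ s) :=
          mul_le_mul_of_nonneg_left h1 (by positivity)
      _ = _ := by ring
  obtain ⟨θ, hθd⟩ : ∃ θ : ℝ, θ = c1 / (4 * (M + 1)) * (n : ℝ) ^ s := ⟨_, rfl⟩
  rw [← hθd] at hind hθ
  have hNs : (A.card : ℝ) ^ (1 - ε) ≤ (A.card : ℝ) ^ s :=
    Real.rpow_le_rpow_of_exponent_le hA1 hsε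
  have hk2 : (k : ℝ) ≤ C2 * (A.card : ℝ) ^ s / 2 := by
    have h1 : 2 * k / C2 ≤ (A.card : ℝ) ^ (1 / 2 : ℝ) := by
      have h2 : (2 * k / C2) ^ 2 ≤ (A.card : ℝ) := le_trans hN02 (by exact_mod_cast hbig)
      rw [← Real.sqrt_eq_rpow]
      exact Real.le_sqrt_of_sq_le h2
    have h3 : (A.card : ℝ) ^ (1 / 2 : ℝ) ≤ (A.card : ℝ) ^ s :=
      Real.rpow_le_rpow_of_exponent_le hA1 hs2
    have h4 := le_trans h1 h3
    rw [div_le_iff₀ hC20] at h4
    linarith
  have hexp : (k : ℝ) * Real.exp (-θ) ≤ Real.exp (-(c * (A.card : ℝ) ^ (1 - ε))) := by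
    have h1 : (k : ℝ) ≤ Real.exp (C2 * (A.card : ℝ) ^ s / 2) := by
      have := Real.add_one_le_exp (C2 * (A.card : ℝ) ^ s / 2)
      linarith
    calc (k : ℝ) * Real.exp (-θ) ≤
        Real.exp (C2 * (A.card : ℝ) ^ s / 2) * Real.exp (-(C2 * (A.card : ℝ) ^ s)) :=
          mul_le_mul h1 (Real.exp_le_exp.2 (by linarith)) (Real.exp_pos _).le (Real.exp_pos _).le
      _ = Real.exp (-(C2 / 2 * (A.card : ℝ) ^ s)) := by
          rw [← Real.exp_add]
          congr 1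
          ring
      _ ≤ Real.exp (-(c * (A.card : ℝ) ^ (1 - ε))) := by
          apply Real.exp_le_exp.2
          apply neg_le_neg
          exact mul_le_mul hcB hNs (by positivity) (by positivity)
  have hpow : c * (A.card : ℝ) ^ ((k : ℝ) - ε) ≤ θ ^ k := by
    have h1 : (A.card : ℝ) ^ ((k : ℝ) - ε) ≤ ((A.card : ℝ) ^ s) ^ k := by
      rw [← Real.rpow_natCast ((A.card : ℝ) ^ s), ← Real.rpow_mul hA0.le]
      exact Real.rpow_le_rpow_of_exponent_le hA1 hsk
    calc c * (A.card : ℝ) ^ ((k : ℝ) - ε) ≤ C2 ^ k * ((A.card : ℝ) ^ s) ^ k :=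
          mul_le_mul hcA h1 (by positivity) (by positivity)
      _ = (C2 * (A.card : ℝ) ^ s) ^ k := (mul_pow _ _ _).symm
      _ ≤ θ ^ k := pow_le_pow_left₀ (by positivity) hθ k
  refine le_trans ?_ (mul_le_mul_of_nonneg_right hexp (by positivity))
  refine le_trans ?_ hind
  apply Nat.cast_le.2
  apply card_le_card
  intro f hf
  rw [mem_filter] at hf ⊢
  refine ⟨mem_univ _, ?_⟩
  intro hcon
  apply hf.2
  rw [kprod_eq]
  refine le_trans hpow ?_
  rw [card_singleton, Nat.cast_one, mul_one] at hcon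
  have h1 : ({1} : Finset ℤ) * (per (fun a : {a // a ∈ A} => (a : ℤ)) f) ^ k =
      (per (fun a : {a // a ∈ A} => (a : ℤ)) f) ^ k := by
    have : ({1} : Finset ℤ) = 1 := rfl
    rw [this, one_mul]
  rw [h1] at hcon
  exact hcon

end Pool.Agent.Helper88.MP
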