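import Pool.Agent.Helper88.MP.Rand

/-!
MP_120218, one random step for an arbitrary operation.

`β` a finite index set, `op : ι → β → κ`, `X` a finite subset of `ι`, `t : Fin q`.  For most maps `h : β → Fin q` the set
of the `op x b`, `x` in `X`, `h b = t`, is at least `1 / (4 q)` times as large as that of all `op x b`.
-/

set_option autoImplicit false

namespace Pool.Agent.Helper88.MP

open Finset

section

variable {β : Type} [Fintype β] [DecidableEq β]

theorem rand_op {ι κ : Type} [DecidableEq κ] {q : ℕ} (op : ι → β → κ) (X : Finset ι)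
    (hX : X.Nonempty) (t : Fin q) :
    (((univ : Finset (β → Fin q)).filter
      (fun h => 4 * (q : ℝ) * ((image₂ op X (univ.filter (fun b => h b = t))).card : ℝ) <
        ((image₂ op X univ).card : ℝ))).card : ℝ) ≤
    Real.exp (-(((image₂ op X univ).card : ℝ) / (4 * q * X.card))) * (q : ℝ) ^ (Fintype.card β) := by
  classical
  have hq : 0 < q := lt_of_le_of_lt (Nat.zero_le _) t.2
  have hq' : (0 : ℝ) < q := by exact_mod_cast hq
  have hXc : (0 : ℝ) < X.card := by exact_mod_cast card_pos.2 hX
  set W := image₂ op X univ with hW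
  -- representations
  have hrep : ∀ w ∈ W, ∃ b : β, ∃ x ∈ X, op x b = w := by
    intro w hw
    obtain ⟨x, hx, b, _, rfl⟩ := mem_image₂.1 hw
    exact ⟨b, x, hx, rfl⟩
  by_cases hβ : Nonempty β
  swap
  · -- no elements
    have hW0 : W = ∅ := by
      rw [eq_empty_iff_forall_notMem]
      intro w hw
      obtain ⟨b, -⟩ := hrep w hw
      exact hβ ⟨b⟩
    rw [hW0]
    simp only [card_empty, Nat.cast_zero]
    have : ((univ : Finset (β → Fin q)).filter
        (fun h => 4 * (q : ℝ) *
          ((image₂ op X (univ.filter (fun b => h b = t))).card : ℝ) < 0)) = ∅ := by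
      rw [filter_eq_empty_iff]
      intro h _
      push Not
      positivity
    rw [this]
    simp only [card_empty, Nat.cast_zero]
    positivity
  obtain ⟨b0⟩ := hβ
  set r : κ → β := fun w => if hw : w ∈ W then (hrep w hw).choose else b0 with hr
  have hrs : ∀ w ∈ W, ∃ x ∈ X, op x (r w) = w := by
    intro w hw
    have := (hrep w hw).choose_spec
    simpa only [hr, dif_pos hw] using this
  set m : β → ℕ := fun b => (W.filter (fun w => r w = b)).card with hm
  have hmX : ∀ b, m b ≤ X.card := by
    intro b
    have hsub : W.filter (fun w => r w = b) ⊆ X.image (fun x => op x b) := by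
      intro w hw
      obtain ⟨hw1, hw2⟩ := mem_filter.1 hw
      obtain ⟨x, hx, hxw⟩ := hrs w hw1
      rw [hw2] at hxw
      exact mem_image.2 ⟨x, hx, hxw⟩
    exact le_trans (card_le_card hsub) card_image_le
  have hmsum : ∑ b, m b = W.card := by
    rw [hm]
    exact (card_eq_sum_card_fiberwise (f := r) (s := W) (t := univ) fun w _ => by simp).symm
  have hg : ∀ h : β → Fin q, (∑ b, if h b = t then m b else 0) ≤
      (image₂ op X (univ.filter (fun b => h b = t))).card := by
    intro h
    have h1 : (∑ b, if h b = t then m b else 0) = (W.filter (fun w => h (r w) = t)).card := by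
      have h2 : (W.filter (fun w => h (r w) = t)).card =
          ∑ b, ((W.filter (fun w => h (r w) = t)).filter (fun w => r w = b)).card :=
        card_eq_sum_card_fiberwise (f := r) (s := W.filter (fun w => h (r w) = t)) (t := univ)
          fun w _ => by simp
      rw [h2]
      refine sum_congr rfl fun b _ => ?_
      split_ifs with hb
      · refine congrArg Finset.card ?_
        ext w
        simp only [mem_filter]
        constructor
        · rintro ⟨hw, rfl⟩
          exact ⟨⟨hw, hb⟩, rfl⟩
        · rintro ⟨⟨hw, _⟩, hb'⟩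
          exact ⟨hw, hb'⟩
      · symm
        rw [card_eq_zero, filter_eq_empty_iff]
        intro w hw hwb
        rw [← hwb] at hb
        exact hb (mem_filter.1 hw).2
    rw [h1]
    apply card_le_card
    intro w hw
    obtain ⟨hw1, hw2⟩ := mem_filter.1 hw
    obtain ⟨x, hx, hxw⟩ := hrs w hw1
    rw [← hxw]
    exact mem_image₂.2 ⟨x, hx, r w, mem_filter.2 ⟨mem_univ _, hw2⟩, rfl⟩
  -- exponential moments
  set L : ℝ := 1 / (X.card : ℝ) with hL
  have hL0 : 0 < L := by positivity
  have hmom : ∑ h : β → Fin q, Real.exp (-(L * ((∑ b, if h b = t then m b else 0 : ℕ) : ℝ))) ≤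
      (q : ℝ) ^ (Fintype.card β) * Real.exp (-((W.card : ℝ) / (2 * q * X.card))) := by
    have h1 : ∀ h : β → Fin q, Real.exp (-(L * ((∑ b, if h b = t then m b else 0 : ℕ) : ℝ))) =
        ∏ b, (if h b = t then Real.exp (-(L * m b)) else 1) := by
      intro h
      push_cast
      rw [mul_sum, ← sum_neg_distrib, Real.exp_sum]
      refine prod_congr rfl fun b _ => ?_
      split_ifs <;> simp
    rw [sum_congr rfl fun h _ => h1 h]
    have h2 : ∑ h : β → Fin q, ∏ b, (if h b = t then Real.exp (-(L * m b)) else 1) =
        ∏ b : β, ∑ s : Fin q, (if s = t then Real.exp (-(L * m b)) else 1) := by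
      rw [prod_univ_sum]
      rw [Fintype.piFinset_univ]
    rw [h2]
    have h3 : ∀ b : β, ∑ s : Fin q, (if s = t then Real.exp (-(L * m b)) else 1) ≤
        (q : ℝ) * Real.exp (-(L * m b / (2 * q))) := by
      intro b
      have h4 : ∑ s : Fin q, (if s = t then Real.exp (-(L * m b)) else 1) =
          (q : ℝ) - 1 + Real.exp (-(L * m b)) := by
        have h5 : ∀ s : Fin q, (if s = t then Real.exp (-(L * m b)) else (1 : ℝ)) =
            1 + (if s = t then Real.exp (-(L * m b)) - 1 else 0) := by
          intro s
          split_ifs <;> ring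
        rw [sum_congr rfl fun s _ => h5 s, sum_add_distrib, sum_ite_eq']
        simp
        ring
      rw [h4]
      have hu0 : 0 ≤ L * m b := by positivity
      have hu1 : L * m b ≤ 1 := by
        rw [hL, one_div, inv_mul_le_iff₀ hXc, mul_one]
        exact_mod_cast hmX b
      have h6 := exp_neg_le hu0 hu1
      have h7 : 1 - L * m b / (2 * q) ≤ Real.exp (-(L * m b / (2 * q))) := by
        have := Real.add_one_le_exp (-(L * m b / (2 * q)))
        linarith
      have h8 : (q : ℝ) - L * m b / 2 ≤ (q : ℝ) * Real.exp (-(L * m b / (2 * q))) := by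
        calc (q : ℝ) - L * m b / 2 = (q : ℝ) * (1 - L * m b / (2 * q)) := by
              field_simp
          _ ≤ _ := mul_le_mul_of_nonneg_left h7 hq'.le
      linarith
    calc ∏ b : β, ∑ s : Fin q, (if s = t then Real.exp (-(L * m b)) else 1)
        ≤ ∏ b : β, ((q : ℝ) * Real.exp (-(L * m b / (2 * q)))) := by
          refine prod_le_prod (fun b _ => ?_) fun b _ => h3 b
          refine sum_nonneg fun s _ => ?_
          split_ifs
          · positivity
          · exact zero_le_one
      _ = (q : ℝ) ^ (Fintype.card β) * Real.exp (∑ b, -(L * m b / (2 * q))) := by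
          rw [prod_mul_distrib, prod_const, card_univ, Real.exp_sum]
      _ = (q : ℝ) ^ (Fintype.card β) * Real.exp (-((W.card : ℝ) / (2 * q * X.card))) := by
          congr 2
          rw [sum_neg_distrib, ← sum_div, ← mul_sum, ← hmsum, hL]
          push_cast
          field_simp
  -- Markov
  set Bad := (univ : Finset (β → Fin q)).filter
      (fun h => 4 * (q : ℝ) * ((image₂ op X (univ.filter (fun b => h b = t))).card : ℝ) < (W.card : ℝ)) with hBad
  have hlow : (Bad.card : ℝ) * Real.exp (-((W.card : ℝ) / (4 * q * X.card))) ≤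
      ∑ h : β → Fin q, Real.exp (-(L * ((∑ b, if h b = t then m b else 0 : ℕ) : ℝ))) := by
    rw [← nsmul_eq_mul, ← sum_const]
    refine le_trans (sum_le_sum fun h hh => ?_)
      (sum_le_sum_of_subset_of_nonneg (subset_univ Bad) fun _ _ _ => (Real.exp_pos _).le)
    apply Real.exp_le_exp.2
    have h1 := (mem_filter.1 hh).2
    have h2 : ((∑ b, if h b = t then m b else 0 : ℕ) : ℝ) ≤ ((image₂ op X (univ.filter (fun b => h b = t))).card : ℝ) := by
      exact_mod_cast hg h
    have h3 : L * ((∑ b, if h b = t then m b else 0 : ℕ) : ℝ) ≤ (W.card : ℝ) / (4 * q * X.card) := by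
      have h4 : ((∑ b, if h b = t then m b else 0 : ℕ) : ℝ) ≤ (W.card : ℝ) / (4 * q) := by
        rw [le_div_iff₀ (by positivity)]
        nlinarith
      calc L * ((∑ b, if h b = t then m b else 0 : ℕ) : ℝ) ≤ L * ((W.card : ℝ) / (4 * q)) :=
            mul_le_mul_of_nonneg_left h4 hL0.le
        _ = (W.card : ℝ) / (4 * q * X.card) := by
            rw [hL]
            field_simp
    linarith
  have hfin := le_trans hlow hmom
  have he : Real.exp (-((W.card : ℝ) / (2 * q * X.card))) =
      Real.exp (-((W.card : ℝ) / (4 * q * X.card))) * Real.exp (-((W.card : ℝ) / (4 * q * X.card))) := by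
    rw [← Real.exp_add]
    congr 1
    field_simp
    ring
  rw [he, ← mul_assoc] at hfin
  have := le_of_mul_le_mul_right hfin (Real.exp_pos _)
  calc (Bad.card : ℝ) ≤ (q : ℝ) ^ (Fintype.card β) * Real.exp (-((W.card : ℝ) / (4 * q * X.card))) :=
        this
    _ = _ := by ring

end

end Pool.Agent.Helper88.MP
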