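import Pool.Agent.Helper88.MP.Sharp
import Pool.Agent.Helper23.SM.FinalX

/-!
MP_120218, smoothed version with every `X`, with the sharp number of exceptional maps (after
`Helper23/SM/FinalX.lean`).
-/

set_option autoImplicit false

namespace Pool.Agent.Helper88.MP

open Finset Pool.Agent.Helper23.SM
open scoped Pointwise

/-- **the smoothed version with every `X`** -/
theorem smoothedXSharp (hall : ∀ (k : ℕ) (ε : ℝ), 1 ≤ k → 0 < ε →
      ∃ (m : ℕ) (c : ℝ), 0 < c ∧ AllX k ε m c)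
    (k : ℕ) (hk : 1 ≤ k) (ε δ : ℝ) (hε : 0 < ε) (hδ : 0 < δ) :
    ∃ C c : ℝ, 0 < C ∧ 0 < c ∧ ∀ A : Finset ℤ, A.Nonempty → ∀ q n : ℕ, 1 ≤ q →
      (A.card : ℝ) ^ δ ≤ n → (q : ℝ) ≤ (A.card : ℝ) ^ c →
        ({f : A → Fin q | ¬ ∀ B : Finset A, n ≤ B.card →
          ∀ X : Finset ℂ, X.Nonempty → (0 : ℂ) ∉ X →
            c * (B.card : ℝ) ^ ((k : ℝ) - ε) * (X.card : ℝ) ^ (1 - ε) ≤
              ({y : ℂ | ∃ b : Fin k → A, (∀ i, b i ∈ B) ∧ ∃ x ∈ X,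
                y = (∏ i, (((b i : ℤ) + ((f (b i) : ℕ) : ℤ) : ℤ) : ℂ)) * x}.ncard : ℝ)}.ncard : ℝ) ≤
          (C * A.card / (q * n)) ^ n * (q : ℝ) ^ A.card := by
  classical
  obtain ⟨C0, c0, hC0, hc0, hf⟩ := fewbadX hall k hk ε hε
  obtain ⟨C, c, hC, hc, h⟩ := unionGoodSharp δ hδ (fun c b P => GoodX k c ε b P)
    (by
      intro c c' hc hcc b P hP X hX hX0
      refine le_trans ?_ (hP X hX hX0)
      have h1 : 0 ≤ (b : ℝ) ^ ((k : ℝ) - ε) := by positivity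
      have h2 : 0 ≤ (X.card : ℝ) ^ (1 - ε) := by positivity
      exact mul_le_mul_of_nonneg_right (mul_le_mul_of_nonneg_right hcc h1) h2)
    ⟨C0, c0, hC0, hc0, fun α _ _ _ v hv q hq hqα => by
      convert hf α v hv q hq hqα⟩
  refine ⟨C, c, hC, hc, ?_⟩
  intro A hA q n hq hn hqA
  have h1 := h A hA q hq hqA n hn
  refine le_trans (le_of_eq ?_) h1
  rw [← Set.ncard_coe_finset]
  congr 2
  ext f
  rw [Finset.mem_coe, Finset.mem_filter, Set.mem_ofPred_eq]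
  have h2 : ∀ (B : Finset A) (X : Finset ℂ),
      ({y : ℂ | ∃ b : Fin k → A, (∀ i, b i ∈ B) ∧ ∃ x ∈ X,
        y = (∏ i, (((b i : ℤ) + ((f (b i) : ℕ) : ℤ) : ℤ) : ℂ)) * x}.ncard : ℝ) =
      ((((B.image (fun a : {a // a ∈ A} => (a : ℤ) + ((f a : ℕ) : ℤ))) ^ k).image
        (fun z : ℤ => (z : ℂ)) * X).card : ℝ) := by
    intro B X
    rw [← Set.ncard_coe_finset,
      ← conv k B (fun a : {a // a ∈ A} => (a : ℤ) + ((f a : ℕ) : ℤ)) X]
  simp only [h2]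
  constructor
  · intro h3
    exact ⟨Finset.mem_univ _, h3⟩
  · intro h3
    exact h3.2

end Pool.Agent.Helper88.MP
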