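import Mathlib

/-!
MP_120218: a shattering lemma (Sauer-Shelah) for maps to `Fin q`.

If the maps `F` do not contain all values of a product of sets `T s`, `s` in `S`, with more than `p` elements each and
`S` of more than `d` elements, then `F` has at most `(q 2 ^ q) ^ d (p + 1) ^ N` elements.
-/

set_option autoImplicit false

namespace Pool.Agent.Helper88.MP

open Finset

/-- the restrictions of `F` to `S` contain the product of the `T s`, each with more than `p` elements -/
def Shat {α : Type} {q : ℕ} (p : ℕ) (F : Finset (α → Fin q)) (S : Finset α)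
    (T : α → Finset (Fin q)) : Prop :=
  (∀ s ∈ S, p < (T s).card) ∧
    ∀ g : α → Fin q, (∀ s ∈ S, g s ∈ T s) → ∃ f ∈ F, ∀ s ∈ S, f s = g s

theorem shatter_fin {q : ℕ} (hq : 0 < q) (p : ℕ) : ∀ (N d : ℕ) (F : Finset (Fin N → Fin q)),
    (∀ S T, Shat p F S T → S.card ≤ d) → F.card ≤ (q * 2 ^ q) ^ d * (p + 1) ^ N := by
  classical
  intro N
  induction N with
  | zero =>
    intro d F _
    have h1 : F.card ≤ 1 := by
      refine le_trans (card_le_univ F) ?_
      simp
    have h2 : 0 < (q * 2 ^ q) ^ d * (p + 1) ^ 0 := by positivity
    omega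
  | succ N ih =>
    intro d F hF
    obtain ⟨fib, hfib⟩ : ∃ fib : (Fin N → Fin q) → Finset (Fin q), ∀ y x,
        x ∈ fib y ↔ (Fin.cons x y : Fin (N + 1) → Fin q) ∈ F :=
      ⟨fun y => univ.filter (fun x => (Fin.cons x y : Fin (N + 1) → Fin q) ∈ F), fun y x => by simp⟩
    obtain ⟨P, hP⟩ : ∃ P : Finset (Fin N → Fin q), P = F.image Fin.tail := ⟨_, rfl⟩
    have h1 : F.card ≤ ∑ y ∈ P, (fib y).card := by
      rw [hP, card_eq_sum_card_image Fin.tail F]
      refine sum_le_sum fun y _ => ?_
      refine card_le_card_of_injOn (fun f => f 0) ?_ ?_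
      · intro f hf
        obtain ⟨hf1, hf2⟩ := mem_filter.1 (mem_coe.1 hf)
        refine mem_coe.2 ((hfib _ _).2 ?_)
        rw [← hf2, Fin.cons_self_tail]
        exact hf1
      · intro f hf f' hf' h
        obtain ⟨_, hf2⟩ := mem_filter.1 (mem_coe.1 hf)
        obtain ⟨_, hf2'⟩ := mem_filter.1 (mem_coe.1 hf')
        simp only at h
        rw [← Fin.cons_self_tail f, ← Fin.cons_self_tail f', hf2, hf2', h]
    have hPc : P.card ≤ (q * 2 ^ q) ^ d * (p + 1) ^ N := by
      apply ih
      intro S T hST
      have := hF (S.map (Fin.succEmb N)) (Fin.cons ∅ T) ⟨?_, ?_⟩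
      · rwa [card_map] at this
      · intro s hs
        obtain ⟨s', hs', rfl⟩ := mem_map.1 hs
        rw [Fin.coe_succEmb, Fin.cons_succ]
        exact hST.1 s' hs'
      · intro g hg
        obtain ⟨y, hy, hys⟩ := hST.2 (fun s => g s.succ) (fun s hs => by
          have := hg s.succ (mem_map.2 ⟨s, hs, rfl⟩)
          rwa [Fin.cons_succ] at this)
        rw [hP] at hy
        obtain ⟨f, hf, rfl⟩ := mem_image.1 hy
        refine ⟨f, hf, ?_⟩
        intro s hs
        obtain ⟨s', hs', rfl⟩ := mem_map.1 hs
        exact hys s' hs'
    obtain ⟨G, hG⟩ : ∃ G : Finset (Fin N → Fin q), G = P.filter (fun y => p < (fib y).card) :=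
      ⟨_, rfl⟩
    have h2 : ∑ y ∈ P, (fib y).card ≤ p * P.card + q * G.card := by
      have h3 : ∀ y ∈ P, (fib y).card ≤ p + (if p < (fib y).card then q else 0) := by
        intro y _
        split_ifs with h
        · have : (fib y).card ≤ q := le_trans (card_le_univ _) (by simp)
          omega
        · omega
      refine le_trans (sum_le_sum h3) ?_
      rw [sum_add_distrib, sum_const, ← sum_filter, sum_const, smul_eq_mul, smul_eq_mul, ← hG]
      exact le_of_eq (by ring)
    have hGc : q * G.card ≤ (q * 2 ^ q) ^ d * (p + 1) ^ N := by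
      cases d with
      | zero =>
        have : G = ∅ := by
          rw [eq_empty_iff_forall_notMem]
          intro y hy
          rw [hG] at hy
          obtain ⟨_, hy2⟩ := mem_filter.1 hy
          have := hF {0} (fun _ => fib y) ⟨fun s _ => hy2, ?_⟩
          · simp at this
          · intro g hg
            refine ⟨_, (hfib _ _).1 (hg 0 (mem_singleton_self _)), ?_⟩
            intro s hs
            rw [mem_singleton.1 hs, Fin.cons_zero]
        rw [this, card_empty, mul_zero]
        exact Nat.zero_le _
      | succ d =>
        have h4 : G.card ≤ ((q * 2 ^ q) ^ d * (p + 1) ^ N) *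
            (univ : Finset (Finset (Fin q))).card := by
          refine card_le_mul_card_image_of_maps_to (f := fib) (fun _ _ => mem_univ _) _ ?_
          intro T _
          by_cases hT : p < T.card
          · apply ih
            intro S T' hST
            have := hF (insert 0 (S.map (Fin.succEmb N))) (Fin.cons T T') ⟨?_, ?_⟩
            · rw [card_insert_of_notMem, card_map] at this
              · omega
              · intro h
                obtain ⟨s', _, hs''⟩ := mem_map.1 h
                exact Fin.succ_ne_zero _ hs''
            · intro s hs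
              rcases mem_insert.1 hs with rfl | hs
              · rw [Fin.cons_zero]
                exact hT
              · obtain ⟨s', hs', rfl⟩ := mem_map.1 hs
                rw [Fin.coe_succEmb, Fin.cons_succ]
                exact hST.1 s' hs'
            · intro g hg
              obtain ⟨y, hy, hys⟩ := hST.2 (fun s => g s.succ) (fun s hs => by
                have := hg s.succ (mem_insert_of_mem (mem_map.2 ⟨s, hs, rfl⟩))
                rwa [Fin.cons_succ] at this)
              obtain ⟨hy1, hy2⟩ := mem_filter.1 hy
              have h0 : g 0 ∈ T := by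
                have := hg 0 (mem_insert_self _ _)
                rwa [Fin.cons_zero] at this
              rw [← hy2] at h0
              refine ⟨_, (hfib _ _).1 h0, ?_⟩
              intro s hs
              rcases mem_insert.1 hs with rfl | hs
              · rw [Fin.cons_zero]
              · obtain ⟨s', hs', rfl⟩ := mem_map.1 hs
                rw [Fin.coe_succEmb, Fin.cons_succ]
                exact hys s' hs'
          · have : G.filter (fun y => fib y = T) = ∅ := by
              rw [filter_eq_empty_iff]
              intro y hy h
              rw [hG] at hy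
              rw [← h] at hT
              exact hT (mem_filter.1 hy).2
            rw [this, card_empty]
            exact Nat.zero_le _
        rw [card_univ, Fintype.card_finset, Fintype.card_fin] at h4
        calc q * G.card ≤ q * (((q * 2 ^ q) ^ d * (p + 1) ^ N) * 2 ^ q) :=
              Nat.mul_le_mul_left _ h4
          _ = _ := by ring
    calc F.card ≤ p * P.card + q * G.card := le_trans h1 h2
      _ ≤ p * ((q * 2 ^ q) ^ d * (p + 1) ^ N) + (q * 2 ^ q) ^ d * (p + 1) ^ N :=
          Nat.add_le_add (Nat.mul_le_mul_left _ hPc) hGc
      _ = _ := by ring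

theorem shatter {α : Type} [Fintype α] [DecidableEq α] {q : ℕ} (hq : 0 < q) (p d : ℕ)
    (F : Finset (α → Fin q)) (h : (q * 2 ^ q) ^ d * (p + 1) ^ (Fintype.card α) < F.card) :
    ∃ (S : Finset α) (T : α → Finset (Fin q)), Shat p F S T ∧ d < S.card := by
  classical
  by_contra hcon
  push Not at hcon
  let e := Fintype.equivFin α
  have hinj : Function.Injective (fun (f : α → Fin q) => f ∘ e.symm) := by
    intro f f' hff
    funext a
    have := congrFun hff (e a)
    simpa using this
  have h1 := shatter_fin hq p (Fintype.card α) d (F.image (fun f => f ∘ e.symm)) ?_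
  · rw [card_image_of_injective _ hinj] at h1
    omega
  · intro S T hST
    have := hcon (S.map e.symm.toEmbedding) (fun a => T (e a)) ⟨?_, ?_⟩
    · rwa [card_map] at this
    · intro s hs
      obtain ⟨s', hs', rfl⟩ := mem_map.1 hs
      have := hST.1 s' hs'
      simpa using this
    · intro g hg
      obtain ⟨y, hy, hys⟩ := hST.2 (fun s => g (e.symm s)) (fun s hs => by
        have := hg (e.symm s) (mem_map.2 ⟨s, hs, rfl⟩)
        simpa using this)
      obtain ⟨f, hf, rfl⟩ := mem_image.1 hy
      refine ⟨f, hf, ?_⟩
      intro s hs
      obtain ⟨s', hs', rfl⟩ := mem_map.1 hs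
      exact hys s' hs'

end Pool.Agent.Helper88.MP
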