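import Mathlib

/-!
MP_120218: the shattering lemma (Sauer-Shelah) for maps to `Fin q`, with sets `T s` of exactly `p + 1` elements.

If the restrictions of `F` to `S` contain no product of `(p + 1)`-element sets `T s`, `s` in `S`, for `S` with more than
`d` elements, then `|F| z ^ d ≤ (p + q (q choose p + 1) z) ^ N` for `0 < z ≤ 1`.
-/

set_option autoImplicit false

namespace Pool.Agent.Helper88.MP

open Finset

/-- the restrictions of `F` to `S` contain the product of the `T s`, each with `p + 1` elements -/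
def ShatE {α : Type} {q : ℕ} (p : ℕ) (F : Finset (α → Fin q)) (S : Finset α)
    (T : α → Finset (Fin q)) : Prop :=
  (∀ s ∈ S, (T s).card = p + 1) ∧
    ∀ g : α → Fin q, (∀ s ∈ S, g s ∈ T s) → ∃ f ∈ F, ∀ s ∈ S, f s = g s

theorem shatE_fin {q : ℕ} (p : ℕ) (z : ℝ) (hz : 0 < z) (hz1 : z ≤ 1) :
    ∀ (N d : ℕ) (F : Finset (Fin N → Fin q)), (∀ S T, ShatE p F S T → S.card ≤ d) →
      (F.card : ℝ) * z ^ d ≤ (p + q * (q.choose (p + 1)) * z) ^ N := by
  classical
  intro N
  induction N with
  | zero =>
    intro d F _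
    have h1 : F.card ≤ 1 := by
      refine le_trans (card_le_univ F) ?_
      simp
    have h2 : (F.card : ℝ) ≤ 1 := by exact_mod_cast h1
    rw [pow_zero]
    have h3 : z ^ d ≤ 1 := pow_le_one₀ hz.le hz1
    have h4 : 0 ≤ z ^ d := by positivity
    nlinarith
  | succ N ih =>
    intro d F hF
    obtain ⟨W, hW⟩ : ∃ W : ℝ, W = p + q * (q.choose (p + 1)) * z := ⟨_, rfl⟩
    rw [← hW] at ih ⊢
    have hW0 : 0 ≤ W := by
      rw [hW]
      positivity
    obtain ⟨fib, hfib⟩ : ∃ fib : (Fin N → Fin q) → Finset (Fin q), ∀ y x,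
        x ∈ fib y ↔ (Fin.cons x y : Fin (N + 1) → Fin q) ∈ F :=
      ⟨fun y => univ.filter (fun x => (Fin.cons x y : Fin (N + 1) → Fin q) ∈ F), fun y x => by simp⟩
    obtain ⟨P, hP⟩ : ∃ P : Finset (Fin N → Fin q), P = F.image Fin.tail := ⟨_, rfl⟩
    have h1 : F.card ≤ ∑ y ∈ P, (fib y).card := by
      rw [hP, card_eq_sum_card_image Fin.tail F]
      refine sum_le_sum fun y _ => ?_
      refine card_le_card_of_injOn (fun f => f 0) ?_ ?_
      · intro f hf
        obtain ⟨hf1, hf2⟩ := mem_filter.1 (mem_coe.1 hf)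
        refine mem_coe.2 ((hfib _ _).2 ?_)
        rw [← hf2, Fin.cons_self_tail]
        exact hf1
      · intro f hf f' hf' h
        obtain ⟨_, hf2⟩ := mem_filter.1 (mem_coe.1 hf)
        obtain ⟨_, hf2'⟩ := mem_filter.1 (mem_coe.1 hf')
        simp only at h
        rw [← Fin.cons_self_tail f, ← Fin.cons_self_tail f', hf2, hf2', h]
    have hPc : (P.card : ℝ) * z ^ d ≤ W ^ N := by
      apply ih
      intro S T hST
      have := hF (S.map (Fin.succEmb N)) (Fin.cons ∅ T) ⟨?_, ?_⟩
      · rwa [card_map] at this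
      · intro s hs
        obtain ⟨s', hs', rfl⟩ := mem_map.1 hs
        rw [Fin.coe_succEmb, Fin.cons_succ]
        exact hST.1 s' hs'
      · intro g hg
        obtain ⟨y, hy, hys⟩ := hST.2 (fun s => g s.succ) (fun s hs => by
          have := hg s.succ (mem_map.2 ⟨s, hs, rfl⟩)
          rwa [Fin.cons_succ] at this)
        rw [hP] at hy
        obtain ⟨f, hf, rfl⟩ := mem_image.1 hy
        refine ⟨f, hf, ?_⟩
        intro s hs
        obtain ⟨s', hs', rfl⟩ := mem_map.1 hs
        exact hys s' hs'
    obtain ⟨G, hG⟩ : ∃ G : Finset (Fin N → Fin q), G = P.filter (fun y => p < (fib y).card) :=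
      ⟨_, rfl⟩
    have h2 : ∑ y ∈ P, (fib y).card ≤ p * P.card + q * G.card := by
      have h3 : ∀ y ∈ P, (fib y).card ≤ p + (if p < (fib y).card then q else 0) := by
        intro y _
        split_ifs with h
        · have : (fib y).card ≤ q := le_trans (card_le_univ _) (by simp)
          omega
        · omega
      refine le_trans (sum_le_sum h3) ?_
      rw [sum_add_distrib, sum_const, ← sum_filter, sum_const, smul_eq_mul, smul_eq_mul, ← hG]
      exact le_of_eq (by ring)
    obtain ⟨sub, hsub⟩ : ∃ sub : (Fin N → Fin q) → Finset (Fin q), ∀ y ∈ G,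
        sub y ⊆ fib y ∧ (sub y).card = p + 1 := by
      have : ∀ y, ∃ s : Finset (Fin q), y ∈ G → s ⊆ fib y ∧ s.card = p + 1 := by
        intro y
        by_cases hy : y ∈ G
        · have hy' : p + 1 ≤ (fib y).card := by
            rw [hG] at hy
            exact (mem_filter.1 hy).2
          obtain ⟨s, hs1, hs2⟩ := exists_subset_card_eq hy'
          exact ⟨s, fun _ => ⟨hs1, hs2⟩⟩
        · exact ⟨∅, fun h => absurd h hy⟩
      choose sub hsub using this
      exact ⟨sub, hsub⟩
    have hGc : (G.card : ℝ) * z ^ d ≤ (q.choose (p + 1)) * z * W ^ N := by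
      cases d with
      | zero =>
        have : G = ∅ := by
          rw [eq_empty_iff_forall_notMem]
          intro y hy
          have := hF {0} (fun _ => sub y) ⟨fun s _ => (hsub y hy).2, ?_⟩
          · simp at this
          · intro g hg
            refine ⟨_, (hfib _ _).1 ((hsub y hy).1 (hg 0 (mem_singleton_self _))), ?_⟩
            intro s hs
            rw [mem_singleton.1 hs, Fin.cons_zero]
        rw [this, card_empty, Nat.cast_zero, zero_mul]
        positivity
      | succ d =>
        have h4 : G.card = ∑ T ∈ powersetCard (p + 1) (univ : Finset (Fin q)),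
            (G.filter (fun y => sub y = T)).card := by
          apply card_eq_sum_card_fiberwise
          intro y hy
          exact mem_coe.2 (mem_powersetCard.2 ⟨subset_univ _, (hsub y (mem_coe.1 hy)).2⟩)
        have h5 : ∀ T ∈ powersetCard (p + 1) (univ : Finset (Fin q)),
            ((G.filter (fun y => sub y = T)).card : ℝ) * z ^ d ≤ W ^ N := by
          intro T hT
          have hTc := (mem_powersetCard.1 hT).2
          by_cases hne : (G.filter (fun y => sub y = T)).Nonempty
          swap
          · rw [not_nonempty_iff_eq_empty.1 hne, card_empty, Nat.cast_zero, zero_mul]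
            positivity
          apply ih
          intro S T' hST
          have := hF (insert 0 (S.map (Fin.succEmb N))) (Fin.cons T T') ⟨?_, ?_⟩
          · rw [card_insert_of_notMem, card_map] at this
            · omega
            · intro h
              obtain ⟨s', _, hs''⟩ := mem_map.1 h
              exact Fin.succ_ne_zero _ hs''
          · intro s hs
            rcases mem_insert.1 hs with rfl | hs
            · rw [Fin.cons_zero]
              exact hTc
            · obtain ⟨s', hs', rfl⟩ := mem_map.1 hs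
              rw [Fin.coe_succEmb, Fin.cons_succ]
              exact hST.1 s' hs'
          · intro g hg
            obtain ⟨y, hy, hys⟩ := hST.2 (fun s => g s.succ) (fun s hs => by
              have := hg s.succ (mem_insert_of_mem (mem_map.2 ⟨s, hs, rfl⟩))
              rwa [Fin.cons_succ] at this)
            obtain ⟨hy1, hy2⟩ := mem_filter.1 hy
            have h0 : g 0 ∈ T := by
              have := hg 0 (mem_insert_self _ _)
              rwa [Fin.cons_zero] at this
            rw [← hy2] at h0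
            refine ⟨_, (hfib _ _).1 ((hsub y hy1).1 h0), ?_⟩
            intro s hs
            rcases mem_insert.1 hs with rfl | hs
            · rw [Fin.cons_zero]
            · obtain ⟨s', hs', rfl⟩ := mem_map.1 hs
              rw [Fin.coe_succEmb, Fin.cons_succ]
              exact hys s' hs'
        rw [h4, Nat.cast_sum, sum_mul, pow_succ]
        calc ∑ T ∈ powersetCard (p + 1) (univ : Finset (Fin q)),
              ((G.filter (fun y => sub y = T)).card : ℝ) * (z ^ d * z)
            ≤ ∑ _T ∈ powersetCard (p + 1) (univ : Finset (Fin q)), W ^ N * z := by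
              refine sum_le_sum fun T hT => ?_
              rw [← mul_assoc]
              exact mul_le_mul_of_nonneg_right (h5 T hT) hz.le
          _ = (q.choose (p + 1)) * z * W ^ N := by
              rw [sum_const, card_powersetCard, card_univ, Fintype.card_fin, nsmul_eq_mul]
              ring
    have h6 : (F.card : ℝ) ≤ p * P.card + q * G.card := by exact_mod_cast le_trans h1 h2
    have hzd : 0 ≤ z ^ d := by positivity
    calc (F.card : ℝ) * z ^ d ≤ (p * P.card + q * G.card) * z ^ d :=
          mul_le_mul_of_nonneg_right h6 hzd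
      _ = p * (P.card * z ^ d) + q * (G.card * z ^ d) := by ring
      _ ≤ p * W ^ N + q * ((q.choose (p + 1)) * z * W ^ N) := by
          apply add_le_add
          · exact mul_le_mul_of_nonneg_left hPc (by positivity)
          · exact mul_le_mul_of_nonneg_left hGc (by positivity)
      _ = (p + q * (q.choose (p + 1)) * z) * W ^ N := by ring
      _ = W ^ (N + 1) := by
          rw [← hW, pow_succ]
          ring

theorem shatE {α : Type} [Fintype α] [DecidableEq α] {q : ℕ} (p d : ℕ) (z : ℝ) (hz : 0 < z)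
    (hz1 : z ≤ 1) (F : Finset (α → Fin q))
    (h : (p + q * (q.choose (p + 1)) * z) ^ (Fintype.card α) < (F.card : ℝ) * z ^ d) :
    ∃ (S : Finset α) (T : α → Finset (Fin q)), ShatE p F S T ∧ d < S.card := by
  classical
  by_contra hcon
  push Not at hcon
  let e := Fintype.equivFin α
  have hinj : Function.Injective (fun (f : α → Fin q) => f ∘ e.symm) := by
    intro f f' hff
    funext a
    have := congrFun hff (e a)
    simpa using this
  have h1 := shatE_fin p z hz hz1 (Fintype.card α) d (F.image (fun f => f ∘ e.symm)) ?_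
  · rw [card_image_of_injective _ hinj] at h1
    linarith
  · intro S T hST
    have := hcon (S.map e.symm.toEmbedding) (fun a => T (e a)) ⟨?_, ?_⟩
    · rwa [card_map] at this
    · intro s hs
      obtain ⟨s', hs', rfl⟩ := mem_map.1 hs
      have := hST.1 s' hs'
      simpa using this
    · intro g hg
      obtain ⟨y, hy, hys⟩ := hST.2 (fun s => g (e.symm s)) (fun s hs => by
        have := hg (e.symm s) (mem_map.2 ⟨s, hs, rfl⟩)
        simpa using this)
      obtain ⟨f, hf, rfl⟩ := mem_image.1 hy
      refine ⟨f, hf, ?_⟩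
      intro s hs
      obtain ⟨s', hs', rfl⟩ := mem_map.1 hs
      exact hys s' hs'

/-- more than `q ^ ((p + 2) d) (p + 1) ^ N` maps -/
theorem shatE_nat {α : Type} [Fintype α] [DecidableEq α] {q : ℕ} (hq : 1 ≤ q) (p d : ℕ)
    (F : Finset (α → Fin q))
    (h : q ^ ((p + 2) * d) * (p + 1) ^ (Fintype.card α) < F.card) :
    ∃ (S : Finset α) (T : α → Finset (Fin q)), ShatE p F S T ∧ d < S.card := by
  have hq0 : (0 : ℝ) < q := by exact_mod_cast hq
  have hq1 : (1 : ℝ) ≤ q := by exact_mod_cast hq
  have hpow : (0 : ℝ) < (q : ℝ) ^ (p + 2) := by positivity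
  refine shatE p d ((q : ℝ) ^ (p + 2))⁻¹ (by positivity) ?_ F ?_
  · rw [inv_le_one₀ hpow]
    exact one_le_pow₀ hq1
  · have h1 : (p : ℝ) + q * (q.choose (p + 1)) * ((q : ℝ) ^ (p + 2))⁻¹ ≤ p + 1 := by
      have h2 : ((q.choose (p + 1) : ℕ) : ℝ) ≤ (q : ℝ) ^ (p + 1) := by
        exact_mod_cast Nat.choose_le_pow q (p + 1)
      have h3 : (q : ℝ) * (q.choose (p + 1)) * ((q : ℝ) ^ (p + 2))⁻¹ ≤ 1 := by
        rw [← div_eq_mul_inv, div_le_one hpow]
        calc (q : ℝ) * (q.choose (p + 1)) ≤ q * (q : ℝ) ^ (p + 1) :=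
              mul_le_mul_of_nonneg_left h2 hq0.le
          _ = (q : ℝ) ^ (p + 2) := by ring
      linarith
    have h4 : ((q : ℝ) ^ ((p + 2) * d)) * ((p : ℝ) + 1) ^ (Fintype.card α) < (F.card : ℝ) := by
      exact_mod_cast h
    have h9 : (0 : ℝ) < ((q : ℝ) ^ (p + 2)) ^ d := by positivity
    rw [inv_pow]
    refine (lt_div_iff₀ h9).2 ?_ |>.trans_eq (div_eq_mul_inv _ _)
    calc ((p : ℝ) + q * (q.choose (p + 1)) * ((q : ℝ) ^ (p + 2))⁻¹) ^ (Fintype.card α) *
          ((q : ℝ) ^ (p + 2)) ^ d ≤ ((p : ℝ) + 1) ^ (Fintype.card α) * ((q : ℝ) ^ (p + 2)) ^ d := by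
          apply mul_le_mul_of_nonneg_right _ (by positivity)
          exact pow_le_pow_left₀ (by positivity) h1 _
      _ = ((q : ℝ) ^ ((p + 2) * d)) * ((p : ℝ) + 1) ^ (Fintype.card α) := by
          rw [← pow_mul]
          ring
      _ < _ := h4

/-- a family that is not exponentially small contains all values on a set of positive density -/
theorem shatter_all (q : ℕ) (hq : 0 < q) : ∃ c : ℝ, 0 < c ∧ ∀ (α : Type) [Fintype α]
    [DecidableEq α] (F : Finset (α → Fin q)),
    Real.exp (-(c * (Fintype.card α : ℝ))) * (q : ℝ) ^ (Fintype.card α) < (F.card : ℝ) →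
    ∃ S : Finset α, c * (Fintype.card α : ℝ) ≤ (S.card : ℝ) ∧
      ∀ g : α → Fin q, ∃ f ∈ F, ∀ s ∈ S, f s = g s := by
  have hq0 : (0 : ℝ) < q := by exact_mod_cast hq
  have hq1 : (1 : ℝ) ≤ q := by exact_mod_cast hq
  have hl : 0 ≤ Real.log (2 * q) := Real.log_nonneg (by linarith)
  obtain ⟨c, hc, hc0⟩ : ∃ c : ℝ, c * (2 * q * (1 + Real.log (2 * q))) = 1 ∧ 0 < c :=
    ⟨1 / (2 * q * (1 + Real.log (2 * q))), by field_simp, by positivity⟩
  refine ⟨c, hc0, ?_⟩
  intro α _ _ F hF
  obtain ⟨N, hN⟩ : ∃ N : ℕ, N = Fintype.card α := ⟨_, rfl⟩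
  rw [← hN] at hF
  have hch : q.choose (q - 1 + 1) = 1 := by
    rw [Nat.sub_add_cancel hq, Nat.choose_self]
  have hlt : (((q - 1 : ℕ) : ℝ) + q * ((q.choose (q - 1 + 1) : ℕ) : ℝ) * (1 / (2 * q))) ^
      (Fintype.card α) < (F.card : ℝ) * (1 / (2 * q)) ^ ⌊c * N⌋₊ := by
    rw [hch, ← hN]
    have h1 : (((q - 1 : ℕ) : ℝ) + q * ((1 : ℕ) : ℝ) * (1 / (2 * q))) = q * (1 - 1 / (2 * q)) := by
      rw [Nat.cast_sub hq]
      push_cast
      field_simp
      ring
    rw [h1, mul_pow]
    have h2 : (1 - 1 / (2 * (q : ℝ))) ^ N ≤ Real.exp (-(N / (2 * q))) := by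
      have h3 : 1 - 1 / (2 * (q : ℝ)) ≤ Real.exp (-(1 / (2 * q))) := by
        have := Real.add_one_le_exp (-(1 / (2 * (q : ℝ))))
        linarith
      have h4 : 0 ≤ 1 - 1 / (2 * (q : ℝ)) := by
        rw [sub_nonneg, div_le_one (by positivity)]
        linarith
      calc (1 - 1 / (2 * (q : ℝ))) ^ N ≤ (Real.exp (-(1 / (2 * q)))) ^ N :=
            pow_le_pow_left₀ h4 h3 N
        _ = Real.exp (-(N / (2 * q))) := by
            rw [← Real.exp_nat_mul]
            congr 1
            ring
    have h5 : Real.exp (-(c * N * Real.log (2 * q))) ≤ (1 / (2 * (q : ℝ))) ^ ⌊c * N⌋₊ := by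
      have h6 : (1 / (2 * (q : ℝ))) = Real.exp (-Real.log (2 * q)) := by
        rw [Real.exp_neg, Real.exp_log (by positivity), one_div]
      rw [h6, ← Real.exp_nat_mul]
      apply Real.exp_le_exp.2
      have h7 : ((⌊c * (N : ℝ)⌋₊ : ℕ) : ℝ) ≤ c * N := Nat.floor_le (by positivity)
      nlinarith
    have h8 : Real.exp (-(N / (2 * q))) = Real.exp (-(c * N)) * Real.exp (-(c * N * Real.log (2 * q))) := by
      rw [← Real.exp_add]
      congr 1
      have : (N : ℝ) / (2 * q) = c * N * (1 + Real.log (2 * q)) := by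
        rw [div_eq_iff (by positivity)]
        calc (N : ℝ) = N * (c * (2 * q * (1 + Real.log (2 * q)))) := by rw [hc, mul_one]
          _ = _ := by ring
      rw [this]
      ring
    calc (q : ℝ) ^ N * (1 - 1 / (2 * (q : ℝ))) ^ N ≤ (q : ℝ) ^ N * Real.exp (-(N / (2 * q))) :=
          mul_le_mul_of_nonneg_left h2 (by positivity)
      _ = (Real.exp (-(c * N)) * (q : ℝ) ^ N) * Real.exp (-(c * N * Real.log (2 * q))) := by
          rw [h8]
          ring
      _ < (F.card : ℝ) * Real.exp (-(c * N * Real.log (2 * q))) :=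
          mul_lt_mul_of_pos_right hF (Real.exp_pos _)
      _ ≤ (F.card : ℝ) * (1 / (2 * (q : ℝ))) ^ ⌊c * N⌋₊ :=
          mul_le_mul_of_nonneg_left h5 (by positivity)
  obtain ⟨S, T, hST, hSc⟩ := shatE (q - 1) ⌊c * N⌋₊ (1 / (2 * q)) (by positivity)
    (by rw [div_le_one (by positivity)]; linarith) F hlt
  refine ⟨S, ?_, ?_⟩
  · rw [← hN]
    have h1 := Nat.lt_floor_add_one (c * N)
    have h2 : ((⌊c * (N : ℝ)⌋₊ : ℕ) : ℝ) + 1 ≤ (S.card : ℝ) := by exact_mod_cast hSc
    linarith
  · intro g
    apply hST.2 g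
    intro s hs
    have h1 := hST.1 s hs
    rw [Nat.sub_add_cancel hq] at h1
    have h2 : T s = univ := by
      rw [← card_eq_iff_eq_univ, h1, Fintype.card_fin]
    rw [h2]
    exact mem_univ _

end Pool.Agent.Helper88.MP
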