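import Pool.Agent.Helper88.MP.Ind

/-!
MP_120218, smoothed version: thinning, transversals, the chain of blocks.
-/

set_option autoImplicit false

namespace Pool.Agent.Helper88.MP

open Finset
open scoped Pointwise

/-- a subset with gaps at least `q` -/
theorem thin (q w : ℕ) (hq : 1 ≤ q) : ∀ (n : ℕ) (S : Finset ℤ), S.card = n →
    (∀ x : ℤ, (S.filter (fun a => x ≤ a ∧ a < x + q)).card ≤ w) →
    ∃ S' ⊆ S, (∀ a ∈ S', ∀ b ∈ S', a < b → a + q ≤ b) ∧ S.card ≤ w * S'.card := by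
  classical
  intro n
  induction n using Nat.strong_induction_on with
  | _ n ih =>
    intro S hS hw
    by_cases hne : S.Nonempty
    swap
    · refine ⟨∅, empty_subset _, fun a ha => absurd ha (notMem_empty a), ?_⟩
      rw [not_nonempty_iff_eq_empty.1 hne, card_empty]
      exact Nat.zero_le _
    obtain ⟨s₀, hs₀⟩ : ∃ s₀, s₀ = S.min' hne := ⟨_, rfl⟩
    have hs₀S : s₀ ∈ S := hs₀ ▸ S.min'_mem hne
    have hmin : ∀ a ∈ S, s₀ ≤ a := fun a ha => hs₀ ▸ S.min'_le a ha
    obtain ⟨S₁, hS₁⟩ : ∃ S₁ : Finset ℤ, S₁ = S.filter (fun a => s₀ + q ≤ a) := ⟨_, rfl⟩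
    have hsplit : S.card ≤ (S.filter (fun a => s₀ ≤ a ∧ a < s₀ + q)).card + S₁.card := by
      refine le_trans (card_le_card (t := S.filter (fun a => s₀ ≤ a ∧ a < s₀ + q) ∪ S₁) ?_)
        (card_union_le _ _)
      intro a ha
      rw [mem_union, hS₁, mem_filter, mem_filter]
      by_cases h : s₀ + q ≤ a
      · exact Or.inr ⟨ha, h⟩
      · exact Or.inl ⟨ha, hmin a ha, not_le.1 h⟩
    have hlt : S₁.card < n := by
      rw [← hS]
      apply card_lt_card
      rw [hS₁]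
      refine ⟨filter_subset _ _, ?_⟩
      intro h
      have := (mem_filter.1 (h hs₀S)).2
      omega
    obtain ⟨S', hS'1, hS'2, hS'3⟩ := ih S₁.card hlt S₁ rfl (by
      intro x
      refine le_trans (card_le_card ?_) (hw x)
      intro a ha
      rw [hS₁] at ha
      obtain ⟨ha1, ha2⟩ := mem_filter.1 ha
      exact mem_filter.2 ⟨(mem_filter.1 ha1).1, ha2⟩)
    have hge : ∀ a ∈ S', s₀ + q ≤ a := by
      intro a ha
      have := hS'1 ha
      rw [hS₁] at this
      exact (mem_filter.1 this).2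
    refine ⟨insert s₀ S', ?_, ?_, ?_⟩
    · intro a ha
      rcases mem_insert.1 ha with rfl | ha
      · exact hs₀S
      · have := hS'1 ha
        rw [hS₁] at this
        exact (mem_filter.1 this).1
    · intro a ha b hb hab
      rcases mem_insert.1 ha with ha' | ha'
      · rcases mem_insert.1 hb with hb' | hb'
        · omega
        · rw [ha']
          exact hge b hb'
      · rcases mem_insert.1 hb with hb' | hb'
        · have := hge a ha'
          omega
        · exact hS'2 a ha' b hb' hab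
    · rw [card_insert_of_notMem (fun h => by have := hge s₀ h; omega)]
      have := hw s₀
      calc S.card ≤ w + w * S'.card := by omega
        _ = w * (S'.card + 1) := by ring

/-- one of `m` transversals is good -/
theorem transversal (m : ℕ) (hm : 1 ≤ m) (S : Finset ℤ) (G : ℤ → Finset ℤ)
    (hG : ∀ s ∈ S, (G s).card = m) (X : Finset ℤ) :
    ∃ g : ℤ → ℤ, (∀ s ∈ S, g s ∈ G s) ∧
      (X * S.biUnion G).card ≤ m * (X * S.image g).card := by
  classical
  obtain ⟨g, hg1, hg2⟩ : ∃ g : Fin m → ℤ → ℤ, (∀ j, ∀ s ∈ S, g j s ∈ G s) ∧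
      ∀ s ∈ S, ∀ a ∈ G s, ∃ j, g j s = a := by
    refine ⟨fun j s => if h : (G s).card = m then (G s).orderEmbOfFin h j else 0, ?_, ?_⟩
    · intro j s hs
      have h := hG s hs
      simp only [dif_pos h]
      exact orderEmbOfFin_mem _ _ _
    · intro s hs a ha
      have h := hG s hs
      simp only [dif_pos h]
      have : a ∈ Set.range ((G s).orderEmbOfFin h) := by
        rw [range_orderEmbOfFin]
        exact mem_coe.2 ha
      exact this
  have hle : (X * S.biUnion G).card ≤ ∑ j : Fin m, (X * S.image (g j)).card := by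
    refine le_trans (card_le_card ?_) card_biUnion_le
    intro z hz
    obtain ⟨x, hx, y, hy, rfl⟩ := mem_mul.1 hz
    obtain ⟨s, hs, hys⟩ := mem_biUnion.1 hy
    obtain ⟨j, hj⟩ := hg2 s hs y hys
    exact mem_biUnion.2 ⟨j, mem_univ _, mul_mem_mul hx (mem_image.2 ⟨s, hs, hj⟩)⟩
  by_contra hcon
  push Not at hcon
  have h1 : ∑ j : Fin m, m * (X * S.image (g j)).card <
      ∑ _j : Fin m, (X * S.biUnion G).card :=
    sum_lt_sum_of_nonempty ⟨⟨0, hm⟩, mem_univ _⟩ fun j _ => hcon (g j) (hg1 j)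
  rw [← mul_sum, sum_const, card_univ, Fintype.card_fin, smul_eq_mul] at h1
  have := Nat.mul_le_mul_left m hle
  omega

/-- the one-step theorem for groups -/
def Groups (ε : ℝ) (m : ℕ) (c : ℝ) : Prop :=
  ∀ (S : Finset ℤ) (G : ℤ → Finset ℤ) (q : ℕ), S.Nonempty → (∀ s ∈ S, (G s).card = m) →
    (∀ s ∈ S, ∀ s' ∈ S, s ≠ s' → Disjoint (G s) (G s')) →
    (∀ s ∈ S, ∀ a ∈ G s, ∀ b ∈ G s, |a - b| ≤ q) →
    (q : ℝ) ≤ (S.card : ℝ) ^ (c * Real.log (Real.log S.card)) →
    (∀ s ∈ S, (0 : ℤ) ∉ G s) → ∀ X : Finset ℤ, X.Nonempty → (0 : ℤ) ∉ X →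
    c * ((S.card : ℝ) * X.card) ^ (1 - ε) ≤ ((X * S.biUnion G).card : ℝ)

theorem chainG (ε : ℝ) (m : ℕ) (hm : 1 ≤ m) (c : ℝ) (hc : 0 < c) (hε : 0 ≤ ε)
    (hS : Groups ε m c) (q : ℕ) (G : ℤ → Finset ℤ) (n K : ℕ) (hn : 1 ≤ n)
    (hqn : (q : ℝ) ≤ (n : ℝ) ^ (c * Real.log (Real.log n))) :
    ∀ k : ℕ, k ≤ K → ∀ B : Fin k → Finset ℤ, (∀ i, (B i).card = n) →
      (∀ i, ∀ s ∈ B i, (G s).card = m) →
      (∀ i, ∀ s ∈ B i, ∀ s' ∈ B i, s ≠ s' → Disjoint (G s) (G s')) →
      (∀ i, ∀ s ∈ B i, ∀ a ∈ G s, ∀ b ∈ G s, |a - b| ≤ q) →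
      (∀ i, ∀ s ∈ B i, (0 : ℤ) ∉ G s) →
      ∀ X : Finset ℤ, X.Nonempty → (0 : ℤ) ∉ X → X.card ≤ n ^ (K - k) →
      ∃ g : Fin k → ℤ → ℤ, (∀ i, ∀ s ∈ B i, g i s ∈ G s) ∧ ∀ P : Finset ℤ,
        (∀ i, ∀ s ∈ B i, g i s ∈ P) →
        (c / m * (n : ℝ) ^ (1 - K * ε)) ^ k * (X.card : ℝ) ≤ ((X * P ^ k).card : ℝ) := by
  classical
  intro k
  induction k with
  | zero =>
    intro _ B _ _ _ _ _ X _ _ _
    refine ⟨fun i => i.elim0, fun i => i.elim0, ?_⟩
    intro P _
    simp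
  | succ k ih =>
    intro hk B hB hG hdis hdiam hG0 X hX hX0 hXc
    have hm0 : (0 : ℝ) < m := by exact_mod_cast hm
    have hn0 : (0 : ℝ) < n := by exact_mod_cast hn
    have hn1 : (1 : ℝ) ≤ n := by exact_mod_cast hn
    have hB0 : (B 0).Nonempty := by
      rw [← card_pos, hB 0]
      omega
    have hle := hS (B 0) G q hB0 (hG 0) (hdis 0) (hdiam 0) (by rw [hB 0]; exact hqn) (hG0 0)
      X hX hX0
    obtain ⟨g, hg, htr⟩ := transversal m hm (B 0) G (hG 0) X
    rw [hB 0] at hle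
    obtain ⟨X', hX'⟩ : ∃ X' : Finset ℤ, X' = X * (B 0).image g := ⟨_, rfl⟩
    rw [← hX'] at htr
    have htr' : ((X * (B 0).biUnion G).card : ℝ) ≤ m * (X'.card : ℝ) := by exact_mod_cast htr
    have hle2 : c / m * ((n : ℝ) * X.card) ^ (1 - ε) ≤ (X'.card : ℝ) := by
      rw [div_mul_eq_mul_div, div_le_iff₀ hm0]
      linarith
    have hXc0 : (0 : ℝ) < X.card := by exact_mod_cast card_pos.2 hX
    have hXn : ((n : ℝ) * X.card) ≤ (n : ℝ) ^ K := by
      have h1 : (X.card : ℝ) ≤ (n : ℝ) ^ (K - (k + 1)) := by exact_mod_cast hXc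
      calc (n : ℝ) * X.card ≤ n * (n : ℝ) ^ (K - (k + 1)) := mul_le_mul_of_nonneg_left h1 hn0.le
        _ = (n : ℝ) ^ (K - (k + 1) + 1) := by rw [pow_succ]; ring
        _ ≤ (n : ℝ) ^ K := pow_le_pow_right₀ hn1 (by omega)
    have hθ : c / m * (n : ℝ) ^ (1 - K * ε) * (X.card : ℝ) ≤ (X'.card : ℝ) := by
      refine le_trans ?_ hle2
      have h1 : (n : ℝ) ^ (-(K * ε)) ≤ ((n : ℝ) * X.card) ^ (-ε) := by
        have h2 : (n : ℝ) ^ (-(K * ε)) = ((n : ℝ) ^ K) ^ (-ε) := by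
          rw [← Real.rpow_natCast, ← Real.rpow_mul hn0.le]
          congr 1
          ring
        rw [h2]
        exact Real.rpow_le_rpow_of_nonpos (by positivity) hXn (by linarith)
      have h3 : ((n : ℝ) * X.card) ^ (1 - ε) = ((n : ℝ) * X.card) * ((n : ℝ) * X.card) ^ (-ε) := by
        rw [sub_eq_add_neg, Real.rpow_add (by positivity), Real.rpow_one]
      have h4 : (n : ℝ) ^ (1 - K * ε) = n * (n : ℝ) ^ (-(K * ε)) := by
        rw [sub_eq_add_neg, Real.rpow_add hn0, Real.rpow_one]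
      rw [h3, h4]
      calc c / m * (n * (n : ℝ) ^ (-(K * ε))) * (X.card : ℝ) =
          c / m * ((n : ℝ) * X.card * (n : ℝ) ^ (-(K * ε))) := by ring
        _ ≤ c / m * ((n : ℝ) * X.card * ((n : ℝ) * X.card) ^ (-ε)) := by
            apply mul_le_mul_of_nonneg_left _ (by positivity)
            exact mul_le_mul_of_nonneg_left h1 (by positivity)
    have hX'p : 0 < X'.card := by
      have : (0 : ℝ) < (X'.card : ℝ) := lt_of_lt_of_le (by positivity) hθ
      exact_mod_cast this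
    have hX'0 : (0 : ℤ) ∉ X' := by
      rw [hX']
      intro h0
      obtain ⟨x, hx, y, hy, hxy⟩ := Finset.mem_mul.1 h0
      obtain ⟨s, hs, rfl⟩ := Finset.mem_image.1 hy
      rcases mul_eq_zero.1 hxy with h | h
      · exact hX0 (h ▸ hx)
      · exact hG0 0 s hs (h ▸ hg s hs)
    have hX'c : X'.card ≤ n ^ (K - k) := by
      rw [hX']
      refine le_trans card_mul_le (le_trans (Nat.mul_le_mul hXc card_image_le) ?_)
      rw [hB 0, ← pow_succ]
      exact Nat.pow_le_pow_right hn (by omega)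
    obtain ⟨g', hg', hP⟩ := ih (by omega) (fun i => B i.succ) (fun i => hB _) (fun i => hG _)
      (fun i => hdis _) (fun i => hdiam _) (fun i => hG0 _) X' (card_pos.1 hX'p) hX'0 hX'c
    refine ⟨Fin.cons g g', ?_, ?_⟩
    · intro i
      refine Fin.cases ?_ ?_ i
      · exact hg
      · intro j
        exact hg' j
    · intro P hPP
      have h1 := hP P (fun i b hb => by
        have := hPP i.succ b hb
        rwa [Fin.cons_succ] at this)
      have h2 : X' * P ^ k ⊆ X * P ^ (k + 1) := by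
        rw [hX', pow_succ', ← mul_assoc]
        refine mul_subset_mul (mul_subset_mul_left ?_) (Finset.Subset.refl _)
        intro z hz
        obtain ⟨b, hb, rfl⟩ := mem_image.1 hz
        have := hPP 0 b hb
        rwa [Fin.cons_zero] at this
      have h3 : ((X' * P ^ k).card : ℝ) ≤ ((X * P ^ (k + 1)).card : ℝ) := by
        exact_mod_cast card_le_card h2
      calc (c / m * (n : ℝ) ^ (1 - K * ε)) ^ (k + 1) * (X.card : ℝ) =
          (c / m * (n : ℝ) ^ (1 - K * ε)) ^ k * (c / m * (n : ℝ) ^ (1 - K * ε) * (X.card : ℝ)) := by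
            ring
        _ ≤ (c / m * (n : ℝ) ^ (1 - K * ε)) ^ k * (X'.card : ℝ) :=
            mul_le_mul_of_nonneg_left hθ (by positivity)
        _ ≤ _ := le_trans h1 h3

end Pool.Agent.Helper88.MP
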