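import Mathlib

/-!
MP_120218, smoothed version: inequalities.
-/

set_option autoImplicit false

namespace Pool.Agent.Helper88.MP

theorem loglog_half {N n : ℝ} (hN : Real.exp 4 ≤ N) (hn : Real.log N / 2 ≤ Real.log n) :
    Real.log (Real.log N) / 2 ≤ Real.log (Real.log n) := by
  have hN0 : 0 < N := lt_of_lt_of_le (Real.exp_pos _) hN
  have h4 : 4 ≤ Real.log N := (Real.le_log_iff_exp_le hN0).2 hN
  have h1 : Real.log (Real.log N / 2) ≤ Real.log (Real.log n) :=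
    Real.log_le_log (by linarith) hn
  have h2 : Real.log (Real.log N / 2) = Real.log (Real.log N) - Real.log 2 :=
    Real.log_div (by linarith) (by norm_num)
  have h3 : 2 * Real.log 2 ≤ Real.log (Real.log N) := by
    have : Real.log 4 ≤ Real.log (Real.log N) := Real.log_le_log (by norm_num) h4
    have h5 : Real.log 4 = 2 * Real.log 2 := by
      rw [show (4 : ℝ) = 2 ^ (2 : ℕ) by norm_num, Real.log_pow]
      norm_num
    linarith
  linarith

/-- the window condition passes to `n ≥ N ^ (1 - μ)` -/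
theorem window (c₀ c : ℝ) (hc₀ : 0 < c₀) (hc : c ≤ c₀ / 4) (μ : ℝ) (hμ : μ ≤ 1 / 2)
    (q : ℝ) (N n : ℝ) (hN : Real.exp 4 ≤ N) (hn : N ^ (1 - μ) ≤ n)
    (hq : q ≤ N ^ (c * Real.log (Real.log N))) : q ≤ n ^ (c₀ * Real.log (Real.log n)) := by
  have hN0 : 0 < N := lt_of_lt_of_le (Real.exp_pos _) hN
  have h4 : 4 ≤ Real.log N := (Real.le_log_iff_exp_le hN0).2 hN
  have hn0 : 0 < n := lt_of_lt_of_le (by positivity) hn
  have h1 : Real.log N / 2 ≤ Real.log n := by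
    have h2 : Real.log (N ^ (1 - μ)) ≤ Real.log n := Real.log_le_log (by positivity) hn
    rw [Real.log_rpow hN0] at h2
    nlinarith
  have h2 := loglog_half hN h1
  have h3 : 0 ≤ Real.log (Real.log N) := Real.log_nonneg (by linarith)
  refine le_trans hq ?_
  rw [Real.rpow_def_of_pos hN0, Real.rpow_def_of_pos hn0]
  apply Real.exp_le_exp.2
  have h5 : c * (Real.log N * Real.log (Real.log N)) ≤
      c₀ / 4 * (Real.log N * Real.log (Real.log N)) :=
    mul_le_mul_of_nonneg_right hc (by positivity)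
  have h6 : Real.log N / 2 * (Real.log (Real.log N) / 2) ≤ Real.log n * Real.log (Real.log n) :=
    mul_le_mul h1 h2 (by linarith) (by linarith)
  have h7 : c₀ * (Real.log N / 2 * (Real.log (Real.log N) / 2)) ≤
      c₀ * (Real.log n * Real.log (Real.log n)) := mul_le_mul_of_nonneg_left h6 hc₀.le
  nlinarith

/-- losses -/
theorem losses (μ : ℝ) (hμ0 : 0 < μ) (hμ1 : μ ≤ 1) (K : ℝ) (hK : 0 < K) :
    ∃ N₀ : ℕ, ∀ (c : ℝ), 0 ≤ c → c ≤ μ / 8 → ∀ N q : ℕ, N₀ ≤ N → 1 ≤ q →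
      (q : ℝ) ≤ (N : ℝ) ^ (c * Real.log (Real.log N)) →
      K * ((Nat.log 2 q : ℝ) + 1) * (N : ℝ) ^ c ≤ (N : ℝ) ^ μ := by
  obtain ⟨R, hR⟩ : ∃ R : ℝ, R = (192 * K / μ ^ 2) ^ (2 / μ) := ⟨_, rfl⟩
  refine ⟨max 3 ⌈R⌉₊, ?_⟩
  intro c hc0 hc N q hN hq hqN
  have hN3 : (3 : ℝ) ≤ N := by exact_mod_cast le_trans (le_max_left _ _) hN
  have hNR : R ≤ (N : ℝ) := by
    have : (⌈R⌉₊ : ℝ) ≤ N := by exact_mod_cast le_trans (le_max_right _ _) hN
    exact le_trans (Nat.le_ceil _) this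
  have hN0 : (0 : ℝ) < N := by linarith
  have hN1 : (1 : ℝ) ≤ N := by linarith
  have hq0 : (0 : ℝ) < q := by exact_mod_cast hq
  have hl1 : 1 ≤ Real.log N := by
    rw [Real.le_log_iff_exp_le hN0]
    have := Real.exp_one_lt_three
    linarith
  have hll : Real.log (Real.log N) ≤ Real.log N := by
    have := Real.log_le_sub_one_of_pos (by linarith : (0 : ℝ) < Real.log N)
    linarith
  have hll0 : 0 ≤ Real.log (Real.log N) := Real.log_nonneg hl1
  have hc1 : c ≤ 1 := by linarith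
  have hlq : Real.log q ≤ Real.log N ^ 2 := by
    have h1 := Real.log_le_log hq0 hqN
    rw [Real.log_rpow hN0] at h1
    have h2 : c * Real.log (Real.log N) ≤ 1 * Real.log N := mul_le_mul hc1 hll hll0 one_pos.le
    nlinarith
  have hL : (Nat.log 2 q : ℝ) + 1 ≤ 3 * Real.log N ^ 2 := by
    have h1 : (Nat.log 2 q : ℝ) * Real.log 2 ≤ Real.log q := by
      have h2 : 2 ^ (Nat.log 2 q) ≤ q := Nat.pow_log_le_self 2 (by omega)
      have h3 : ((2 : ℝ) ^ (Nat.log 2 q)) ≤ q := by exact_mod_cast h2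
      have h4 := Real.log_le_log (by positivity) h3
      rwa [Real.log_pow] at h4
    have h5 := Real.log_two_gt_d9
    have h6 : (0 : ℝ) ≤ (Nat.log 2 q : ℝ) := by positivity
    nlinarith
  have hlog : Real.log N ≤ (N : ℝ) ^ (μ / 8) / (μ / 8) :=
    Real.log_le_rpow_div hN0.le (by linarith)
  have hlog2 : Real.log N ^ 2 ≤ 64 / μ ^ 2 * (N : ℝ) ^ (μ / 4) := by
    calc Real.log N ^ 2 ≤ ((N : ℝ) ^ (μ / 8) / (μ / 8)) ^ 2 :=
          pow_le_pow_left₀ (by linarith) hlog 2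
      _ = 64 / μ ^ 2 * ((N : ℝ) ^ (μ / 8)) ^ 2 := by
          rw [div_pow]
          field_simp
          ring
      _ = 64 / μ ^ 2 * (N : ℝ) ^ (μ / 4) := by
          rw [← Real.rpow_natCast ((N : ℝ) ^ (μ / 8)), ← Real.rpow_mul hN0.le]
          congr 2
          push_cast
          ring
  have hbig : 192 * K / μ ^ 2 ≤ (N : ℝ) ^ (μ / 2) := by
    have h1 : R ^ (μ / 2) ≤ (N : ℝ) ^ (μ / 2) := by
      apply Real.rpow_le_rpow _ hNR (by linarith)
      rw [hR]
      positivity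
    have h2 : R ^ (μ / 2) = 192 * K / μ ^ 2 := by
      rw [hR, ← Real.rpow_mul (by positivity)]
      have : 2 / μ * (μ / 2) = 1 := by field_simp
      rw [this, Real.rpow_one]
    linarith
  have hNc : (N : ℝ) ^ c ≤ (N : ℝ) ^ (μ / 8) := Real.rpow_le_rpow_of_exponent_le hN1 hc
  calc K * ((Nat.log 2 q : ℝ) + 1) * (N : ℝ) ^ c
      ≤ K * (3 * (64 / μ ^ 2 * (N : ℝ) ^ (μ / 4))) * (N : ℝ) ^ (μ / 8) := by
        apply mul_le_mul _ hNc (by positivity) (by positivity)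
        apply mul_le_mul_of_nonneg_left _ hK.le
        linarith
    _ = (192 * K / μ ^ 2) * ((N : ℝ) ^ (μ / 4) * (N : ℝ) ^ (μ / 8)) := by
        field_simp
        ring
    _ ≤ (N : ℝ) ^ (μ / 2) * ((N : ℝ) ^ (μ / 4) * (N : ℝ) ^ (μ / 8)) :=
        mul_le_mul_of_nonneg_right hbig (by positivity)
    _ = (N : ℝ) ^ (μ / 2 + (μ / 4 + μ / 8)) := by
        rw [Real.rpow_add hN0, Real.rpow_add hN0]
    _ ≤ (N : ℝ) ^ μ := Real.rpow_le_rpow_of_exponent_le hN1 (by linarith)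

end Pool.Agent.Helper88.MP
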