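import Pool.Agent.Helper88.MP.SmoothA
import Pool.Agent.Helper88.MP.SmoothN
import Pool.Agent.Helper88.MP.ShatterE

/-!
MP_120218, smoothed version: at most `C ^ N` maps are bad.
-/

set_option autoImplicit false

namespace Pool.Agent.Helper88.MP

open Finset
open scoped Pointwise

/-- a bad family of more than `(2 m) ^ N` maps is impossible -/
theorem extract (p : ℕ) (c₀ : ℝ) (hc₀ : 0 < c₀) (e' : ℝ) (he0 : 0 ≤ e')
    (hG : Groups e' (p + 1) c₀) (k : ℕ) (hk : 1 ≤ k)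
    (α : Type) [Fintype α] [DecidableEq α] [Nonempty α] (v : α → ℤ) (hv : Function.Injective v)
    (q : ℕ) (hq : 1 ≤ q) (w n : ℕ) (hn : 1 ≤ n)
    (hqn : (q : ℝ) ≤ (n : ℝ) ^ (c₀ * Real.log (Real.log n)))
    (hw : ∀ x : ℤ, ((univ : Finset α).filter (fun a => x ≤ v a ∧ v a < x + q)).card ≤ w)
    (hNn : (p + 2) * (Nat.log 2 q + 1) * (w * (k * n + 1)) ≤ Fintype.card α)
    (F : Finset (α → Fin q)) (hF : (2 * (p + 1)) ^ Fintype.card α < F.card) :
    ∃ f ∈ F, (c₀ / (p + 1 : ℕ) * (n : ℝ) ^ (1 - k * e')) ^ k ≤ (((per v f) ^ k).card : ℝ) := by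
  classical
  obtain ⟨N, hN⟩ : ∃ N : ℕ, N = Fintype.card α := ⟨_, rfl⟩
  obtain ⟨L, hL⟩ : ∃ L : ℕ, L = Nat.log 2 q + 1 := ⟨_, rfl⟩
  have hL0 : 0 < L := by omega
  have hqL : q ≤ 2 ^ L := by
    rw [hL]
    exact (Nat.lt_pow_succ_log_self (by norm_num) q).le
  rw [← hL] at hNn
  have hpL : 0 < (p + 2) * L := Nat.mul_pos (by omega) hL0
  have h1 : q ^ ((p + 2) * (N / ((p + 2) * L))) * (p + 1) ^ (Fintype.card α) < F.card := by
    refine lt_of_le_of_lt ?_ hF
    rw [mul_pow 2 (p + 1) (Fintype.card α), ← hN]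
    apply Nat.mul_le_mul_right
    calc q ^ ((p + 2) * (N / ((p + 2) * L))) ≤ (2 ^ L) ^ ((p + 2) * (N / ((p + 2) * L))) :=
          Nat.pow_le_pow_left hqL _
      _ = 2 ^ (((p + 2) * L) * (N / ((p + 2) * L))) := by
          rw [← pow_mul]
          congr 1
          ring
      _ ≤ 2 ^ N := Nat.pow_le_pow_right (by norm_num) (Nat.mul_div_le _ _)
  obtain ⟨S, T, hST, hSc⟩ := shatE_nat hq p _ F h1
  have hS1 : N < (p + 2) * L * S.card + 1 := by
    have h2 : N < (p + 2) * L * (N / ((p + 2) * L) + 1) := Nat.lt_mul_div_succ N hpL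
    have h3 : (p + 2) * L * (N / ((p + 2) * L) + 1) ≤ (p + 2) * L * S.card :=
      Nat.mul_le_mul_left _ hSc
    omega
  have hS2 : w * (k * n + 1) ≤ S.card := by
    have h2 : (p + 2) * L * (w * (k * n + 1)) ≤ (p + 2) * L * S.card := by
      rw [← hN] at hNn
      omega
    exact Nat.le_of_mul_le_mul_left h2 hpL
  obtain ⟨SZ, hSZ⟩ : ∃ SZ : Finset ℤ, SZ = S.image v := ⟨_, rfl⟩
  have hSZc : SZ.card = S.card := by
    rw [hSZ, card_image_of_injective _ hv]
  obtain ⟨S', hS'1, hS'2, hS'3⟩ := thin q w hq _ SZ rfl (by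
    intro x
    refine le_trans ?_ (hw x)
    have h2 : SZ.filter (fun a => x ≤ a ∧ a < x + q) ⊆
        ((univ : Finset α).filter (fun a => x ≤ v a ∧ v a < x + q)).image v := by
      intro z hz
      obtain ⟨hz1, hz2⟩ := mem_filter.1 hz
      rw [hSZ] at hz1
      obtain ⟨a, _, rfl⟩ := mem_image.1 hz1
      exact mem_image.2 ⟨a, mem_filter.2 ⟨mem_univ _, hz2⟩, rfl⟩
    exact le_trans (card_le_card h2) card_image_le)
  have hw0 : 0 < w := by
    obtain ⟨a⟩ := (inferInstance : Nonempty α)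
    refine lt_of_lt_of_le ?_ (hw (v a))
    rw [card_pos]
    exact ⟨a, mem_filter.2 ⟨mem_univ _, le_rfl, by
      have : (0 : ℤ) < q := by exact_mod_cast hq
      omega⟩⟩
  have hS'c : k * n + 1 ≤ S'.card := by
    have : w * (k * n + 1) ≤ w * S'.card := by
      rw [hSZc] at hS'3
      omega
    exact Nat.le_of_mul_le_mul_left this hw0
  obtain ⟨u, hu⟩ : ∃ u : ℤ → α, ∀ a, u (v a) = a :=
    ⟨Function.invFun v, Function.leftInverse_invFun hv⟩
  obtain ⟨G, hGd⟩ : ∃ G : ℤ → Finset ℤ, ∀ s, G s =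
      (T (u s)).image (fun t : Fin q => s + ((t : ℕ) : ℤ)) :=
    ⟨fun s => (T (u s)).image (fun t : Fin q => s + ((t : ℕ) : ℤ)), fun _ => rfl⟩
  have hSu : ∀ s ∈ SZ, u s ∈ S ∧ v (u s) = s := by
    intro s hs
    rw [hSZ] at hs
    obtain ⟨a, ha, rfl⟩ := mem_image.1 hs
    rw [hu]
    exact ⟨ha, rfl⟩
  have hGc : ∀ s ∈ SZ, (G s).card = p + 1 := by
    intro s hs
    rw [hGd, card_image_of_injective]
    · exact hST.1 _ (hSu s hs).1
    · intro t t' htt
      simp only at htt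
      exact Fin.ext (by omega)
  have hGm : ∀ s a, a ∈ G s → s ≤ a ∧ a < s + q := by
    intro s a ha
    rw [hGd] at ha
    obtain ⟨t, _, rfl⟩ := mem_image.1 ha
    have := t.2
    constructor <;> omega
  have hGdis : ∀ s ∈ S', ∀ s' ∈ S', s ≠ s' → Disjoint (G s) (G s') := by
    intro s hs s' hs' hne
    rw [disjoint_left]
    intro a ha ha'
    have h2 := hGm s a ha
    have h3 := hGm s' a ha'
    rcases lt_or_gt_of_ne hne with h | h
    · have := hS'2 s hs s' hs' h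
      omega
    · have := hS'2 s' hs' s hs h
      omega
  obtain ⟨S'', hS''⟩ : ∃ S'' : Finset ℤ, S'' = S'.filter (fun s => (0 : ℤ) ∉ G s) := ⟨_, rfl⟩
  have hS''sub : S'' ⊆ S' := by
    rw [hS'']
    exact filter_subset _ _
  have hS''c : k * n ≤ S''.card := by
    obtain ⟨S₀, hS₀⟩ : ∃ S₀ : Finset ℤ, S₀ = S'.filter (fun s => (0 : ℤ) ∈ G s) := ⟨_, rfl⟩
    have h2 : S₀.card ≤ 1 := by
      rw [card_le_one]
      intro a ha b hb
      rw [hS₀] at ha hb
      obtain ⟨ha1, ha2⟩ := mem_filter.1 ha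
      obtain ⟨hb1, hb2⟩ := mem_filter.1 hb
      by_contra hne
      exact (disjoint_left.1 (hGdis a ha1 b hb1 hne)) ha2 hb2
    have h3 : S' ⊆ S'' ∪ S₀ := by
      intro a ha
      rw [mem_union, hS'', hS₀, mem_filter, mem_filter]
      by_cases h : (0 : ℤ) ∈ G a
      · exact Or.inr ⟨ha, h⟩
      · exact Or.inl ⟨ha, h⟩
    have h4 := (card_le_card h3).trans (card_union_le _ _)
    omega
  obtain ⟨g0⟩ : Nonempty ((Fin k × Fin n) ↪ {a // a ∈ S''}) :=
    Function.Embedding.nonempty_of_card_le (by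
      rw [Fintype.card_prod, Fintype.card_fin, Fintype.card_fin, Fintype.card_coe]
      exact hS''c)
  obtain ⟨B, hB⟩ : ∃ B : Fin k → Finset ℤ, ∀ i, B i =
      (univ : Finset (Fin n)).image (fun j : Fin n => ((g0 (i, j) : {a // a ∈ S''}) : ℤ)) :=
    ⟨fun i => (univ : Finset (Fin n)).image (fun j : Fin n => ((g0 (i, j) : {a // a ∈ S''}) : ℤ)),
      fun i => rfl⟩
  have hBmem : ∀ i b, b ∈ B i → ∃ j, ((g0 (i, j) : {a // a ∈ S''}) : ℤ) = b := by
    intro i b hb
    rw [hB] at hb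
    obtain ⟨j, _, hj⟩ := mem_image.1 hb
    exact ⟨j, hj⟩
  have hBc : ∀ i, (B i).card = n := by
    intro i
    rw [hB, card_image_of_injective, card_univ, Fintype.card_fin]
    intro j j' hjj
    exact congrArg Prod.snd (g0.injective (Subtype.ext hjj))
  have hBdisj : ∀ i i' b, b ∈ B i → b ∈ B i' → i = i' := by
    intro i i' b hb hb'
    obtain ⟨j, hj⟩ := hBmem i b hb
    obtain ⟨j', hj'⟩ := hBmem i' b hb'
    exact congrArg Prod.fst (g0.injective (Subtype.ext (hj.trans hj'.symm)))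
  have hBS : ∀ i b, b ∈ B i → b ∈ S'' := by
    intro i b hb
    obtain ⟨j, rfl⟩ := hBmem i b hb
    exact (g0 (i, j)).2
  obtain ⟨g, hg, hPall⟩ := chainG e' (p + 1) (by omega) c₀ hc₀ he0 hG q G n k hn hqn k le_rfl B
    hBc (fun i s hs => hGc s (hS'1 (hS''sub (hBS i s hs))))
    (fun i s hs s' hs' hne => hGdis s (hS''sub (hBS i s hs)) s' (hS''sub (hBS i s' hs')) hne)
    (fun i s _ a ha b hb => by
      have h2 := hGm s a ha
      have h3 := hGm s b hb
      rw [abs_le]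
      constructor <;> omega)
    (fun i s hs => by
      have := hBS i s hs
      rw [hS''] at this
      exact (mem_filter.1 this).2)
    {1} (singleton_nonempty _) (by rw [mem_singleton]; norm_num)
    (by rw [card_singleton]; exact Nat.one_le_pow _ _ hn)
  have hchoice : ∀ a : α, ∃ t : Fin q, (a ∈ S → t ∈ T a) ∧
      ∀ i, v a ∈ B i → v a + ((t : ℕ) : ℤ) = g i (v a) := by
    intro a
    by_cases h : ∃ i, v a ∈ B i
    · obtain ⟨i, hi⟩ := h
      have h2 := hg i (v a) hi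
      rw [hGd, hu] at h2
      obtain ⟨t, ht, ht'⟩ := mem_image.1 h2
      refine ⟨t, fun _ => ht, ?_⟩
      intro i' hi'
      rw [hBdisj i' i _ hi' hi]
      exact ht'
    · by_cases ha : a ∈ S
      · have h3 : (T a).Nonempty := by
          rw [← card_pos, hST.1 a ha]
          omega
        obtain ⟨t, ht⟩ := h3
        exact ⟨t, fun _ => ht, fun i hi => absurd ⟨i, hi⟩ h⟩
      · exact ⟨⟨0, hq⟩, fun h' => absurd h' ha, fun i hi => absurd ⟨i, hi⟩ h⟩
  choose γ hγ1 hγ2 using hchoice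
  obtain ⟨f, hfF, hfg⟩ := hST.2 γ (fun s hs => hγ1 s hs)
  refine ⟨f, hfF, ?_⟩
  have hfin := hPall (per v f) (by
    intro i b hb
    have hbZ := hSu b (hS'1 (hS''sub (hBS i b hb)))
    refine mem_image.2 ⟨u b, mem_univ _, ?_⟩
    rw [hfg (u b) hbZ.1]
    have := hγ2 (u b) i (by rw [hbZ.2]; exact hb)
    rw [this, hbZ.2])
  have h1' : ({1} : Finset ℤ) * (per v f) ^ k = (per v f) ^ k := by
    have : ({1} : Finset ℤ) = 1 := rfl
    rw [this, one_mul]
  rw [h1', card_singleton, Nat.cast_one, mul_one] at hfin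
  exact hfin

end Pool.Agent.Helper88.MP
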