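import Pool.Agent.Helper88.MP.SmoothB

/-!
MP_120218, smoothed version with every `X`: at most `C ^ N` maps are bad, for `q ≤ N ^ c`.
-/

set_option autoImplicit false

namespace Pool.Agent.Helper88.MP

open Finset
open scoped Pointwise

/-- `P ^ k` expands every finite set of non-zero complex numbers -/
def GoodX (k : ℕ) (c ε : ℝ) (b : ℕ) (P : Finset ℤ) : Prop :=
  ∀ X : Finset ℂ, X.Nonempty → (0 : ℂ) ∉ X →
    c * (b : ℝ) ^ ((k : ℝ) - ε) * (X.card : ℝ) ^ (1 - ε) ≤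
      (((P ^ k).image (fun z : ℤ => (z : ℂ)) * X).card : ℝ)

/-- all but `m` translates are good for every `X` -/
def AllX (k : ℕ) (ε : ℝ) (m : ℕ) (c : ℝ) : Prop :=
  ∀ S : Finset ℤ, S.Nonempty → ∃ Z : Finset ℤ, Z.card ≤ m ∧ ∀ t : ℤ, 0 ≤ t →
    (t : ℝ) ≤ (S.card : ℝ) ^ c → t ∉ Z → GoodX k c ε S.card (S.image (fun s => s + t))

theorem GoodX.mono {k : ℕ} {c ε : ℝ} {b : ℕ} {P P' : Finset ℤ} (h : GoodX k c ε b P)
    (hP : P ⊆ P') : GoodX k c ε b P' := by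
  classical
  intro X hX hX0
  refine le_trans (h X hX hX0) ?_
  apply Nat.cast_le.2
  apply card_le_card
  exact mul_subset_mul (image_subset_image (pow_subset_pow_left hP)) (Finset.Subset.refl _)

theorem extractX (m : ℕ) (c₀ : ℝ) (k : ℕ) (ε : ℝ) (hA : AllX k ε m c₀)
    (α : Type) [Fintype α] [DecidableEq α] [Nonempty α] (v : α → ℤ) (hv : Function.Injective v)
    (q : ℕ) (hq : 1 ≤ q) (n : ℕ) (hn : 1 ≤ n)
    (hNn : (m + 2) * (Nat.log 2 q + 1) * (q ^ (m + 1) * n) ≤ Fintype.card α)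
    (hqn : (q : ℝ) ≤ (n : ℝ) ^ c₀) (hc₀ : 0 < c₀)
    (F : Finset (α → Fin q)) (hF : (2 * (m + 1)) ^ Fintype.card α < F.card) :
    ∃ f ∈ F, ∃ b : ℕ, n ≤ b ∧ GoodX k c₀ ε b (per v f) := by
  classical
  obtain ⟨N, hN⟩ : ∃ N : ℕ, N = Fintype.card α := ⟨_, rfl⟩
  obtain ⟨L, hL⟩ : ∃ L : ℕ, L = Nat.log 2 q + 1 := ⟨_, rfl⟩
  have hL0 : 0 < L := by omega
  have hqL : q ≤ 2 ^ L := by
    rw [hL]
    exact (Nat.lt_pow_succ_log_self (by norm_num) q).le
  rw [← hL] at hNn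
  have hpL : 0 < (m + 2) * L := Nat.mul_pos (by omega) hL0
  have h1 : q ^ ((m + 2) * (N / ((m + 2) * L))) * (m + 1) ^ (Fintype.card α) < F.card := by
    refine lt_of_le_of_lt ?_ hF
    rw [mul_pow 2 (m + 1) (Fintype.card α), ← hN]
    apply Nat.mul_le_mul_right
    calc q ^ ((m + 2) * (N / ((m + 2) * L))) ≤ (2 ^ L) ^ ((m + 2) * (N / ((m + 2) * L))) :=
          Nat.pow_le_pow_left hqL _
      _ = 2 ^ (((m + 2) * L) * (N / ((m + 2) * L))) := by
          rw [← pow_mul]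
          congr 1
          ring
      _ ≤ 2 ^ N := Nat.pow_le_pow_right (by norm_num) (Nat.mul_div_le _ _)
  obtain ⟨S, T, hST, hSc⟩ := shatE_nat hq m _ F h1
  have hS1 : N < (m + 2) * L * S.card + 1 := by
    have h2 : N < (m + 2) * L * (N / ((m + 2) * L) + 1) := Nat.lt_mul_div_succ N hpL
    have h3 : (m + 2) * L * (N / ((m + 2) * L) + 1) ≤ (m + 2) * L * S.card :=
      Nat.mul_le_mul_left _ hSc
    omega
  have hS2 : q ^ (m + 1) * n ≤ S.card := by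
    have h2 : (m + 2) * L * (q ^ (m + 1) * n) ≤ (m + 2) * L * S.card := by
      rw [← hN] at hNn
      omega
    exact Nat.le_of_mul_le_mul_left h2 hpL
  -- pigeonhole
  have hq0 : 0 < q ^ (m + 1) := by positivity
  have hSne : S.Nonempty := by
    rw [← card_pos]
    have : 0 < q ^ (m + 1) * n := Nat.mul_pos hq0 hn
    omega
  obtain ⟨T0, hT0c, hT0⟩ : ∃ T0 : Finset (Fin q), T0.card = m + 1 ∧
      S.card ≤ q ^ (m + 1) * (S.filter (fun s => T s = T0)).card := by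
    by_contra h
    push Not at h
    have h2 := card_eq_sum_card_fiberwise (f := T) (s := S)
      (t := powersetCard (m + 1) (univ : Finset (Fin q))) (fun s hs =>
        mem_coe.2 (mem_powersetCard.2 ⟨subset_univ _, hST.1 s (mem_coe.1 hs)⟩))
    have hne : (powersetCard (m + 1) (univ : Finset (Fin q))).Nonempty := by
      obtain ⟨s, hs⟩ := hSne
      exact ⟨T s, mem_powersetCard.2 ⟨subset_univ _, hST.1 s hs⟩⟩
    have h3 : ∑ T0 ∈ powersetCard (m + 1) (univ : Finset (Fin q)),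
        q ^ (m + 1) * (S.filter (fun s => T s = T0)).card <
        ∑ _T0 ∈ powersetCard (m + 1) (univ : Finset (Fin q)), S.card :=
      sum_lt_sum_of_nonempty hne fun T0 hT0 => h T0 (mem_powersetCard.1 hT0).2
    rw [← mul_sum, ← h2, sum_const, card_powersetCard, card_univ, Fintype.card_fin,
      smul_eq_mul] at h3
    have h4 : q.choose (m + 1) * S.card ≤ q ^ (m + 1) * S.card :=
      Nat.mul_le_mul_right _ (Nat.choose_le_pow q (m + 1))
    omega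
  obtain ⟨S0, hS0⟩ : ∃ S0 : Finset α, S0 = S.filter (fun s => T s = T0) := ⟨_, rfl⟩
  rw [← hS0] at hT0
  have hS0n : n ≤ S0.card := by
    have : q ^ (m + 1) * n ≤ q ^ (m + 1) * S0.card := le_trans hS2 hT0
    exact Nat.le_of_mul_le_mul_left this hq0
  obtain ⟨SZ, hSZ⟩ : ∃ SZ : Finset ℤ, SZ = S0.image v := ⟨_, rfl⟩
  have hSZc : SZ.card = S0.card := by
    rw [hSZ, card_image_of_injective _ hv]
  have hSZne : SZ.Nonempty := by
    rw [← card_pos]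
    omega
  obtain ⟨Z, hZc, hZ⟩ := hA SZ hSZne
  obtain ⟨t, ht, htZ⟩ : ∃ t ∈ T0, ((t : ℕ) : ℤ) ∉ Z := by
    by_contra h
    push Not at h
    have h2 : (T0.image (fun t : Fin q => ((t : ℕ) : ℤ))).card ≤ Z.card := by
      apply card_le_card
      intro z hz
      obtain ⟨t, ht, rfl⟩ := mem_image.1 hz
      exact h t ht
    rw [card_image_of_injective, hT0c] at h2
    · omega
    · intro a b hab
      simp only [Nat.cast_inj] at hab
      exact Fin.ext hab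
  have hgood := hZ ((t : ℕ) : ℤ) (by positivity) (by
    have h2 : ((t : ℕ) : ℝ) ≤ q := by exact_mod_cast t.2.le
    have h3 : (n : ℝ) ^ c₀ ≤ (SZ.card : ℝ) ^ c₀ := by
      apply Real.rpow_le_rpow (by positivity) _ hc₀.le
      rw [hSZc]
      exact_mod_cast hS0n
    push_cast
    linarith) htZ
  obtain ⟨γ, hγ1, hγ2⟩ : ∃ γ : α → Fin q, (∀ s ∈ S, γ s ∈ T s) ∧ ∀ s ∈ S0, γ s = t := by
    have : ∀ a : α, ∃ u : Fin q, (a ∈ S → u ∈ T a) ∧ (a ∈ S0 → u = t) := by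
      intro a
      by_cases ha0 : a ∈ S0
      · refine ⟨t, fun _ => ?_, fun _ => rfl⟩
        rw [hS0] at ha0
        rw [(mem_filter.1 ha0).2]
        exact ht
      · by_cases ha : a ∈ S
        · have h3 : (T a).Nonempty := by
            rw [← card_pos, hST.1 a ha]
            omega
          obtain ⟨u, hu⟩ := h3
          exact ⟨u, fun _ => hu, fun h => absurd h ha0⟩
        · exact ⟨t, fun h => absurd h ha, fun h => absurd h ha0⟩
    choose γ h1 h2 using this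
    exact ⟨γ, fun s hs => h1 s hs, fun s hs => h2 s hs⟩
  obtain ⟨f, hfF, hfg⟩ := hST.2 γ hγ1
  refine ⟨f, hfF, SZ.card, by rw [hSZc]; exact hS0n, hgood.mono ?_⟩
  intro z hz
  obtain ⟨s, hs, rfl⟩ := mem_image.1 hz
  rw [hSZ] at hs
  obtain ⟨a, ha, rfl⟩ := mem_image.1 hs
  have haS : a ∈ S := by
    rw [hS0] at ha
    exact (mem_filter.1 ha).1
  refine mem_image.2 ⟨a, mem_univ _, ?_⟩
  rw [hfg a haS, hγ2 a ha]

open Classical in
theorem fewbadX (hone : ∀ (k : ℕ) (ε : ℝ), 1 ≤ k → 0 < ε → ∃ (m : ℕ) (c : ℝ), 0 < c ∧ AllX k ε m c)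
    (k : ℕ) (hk : 1 ≤ k) (ε : ℝ) (hε : 0 < ε) :
    ∃ (C : ℕ) (c : ℝ), 1 ≤ C ∧ 0 < c ∧ ∀ (α : Type) [Fintype α] [Nonempty α]
      (v : α → ℤ), Function.Injective v → ∀ q : ℕ, 1 ≤ q →
      (q : ℝ) ≤ (Fintype.card α : ℝ) ^ c →
      ((univ : Finset (α → Fin q)).filter (fun f =>
        ¬ GoodX k c ε (Fintype.card α) (per v f))).card ≤ C ^ Fintype.card α := by
  have hk1 : (1 : ℝ) ≤ k := by exact_mod_cast hk
  have hk0 : (0 : ℝ) < k := by linarith
  obtain ⟨d, hd0, hd1, hdε⟩ : ∃ d : ℝ, 0 < d ∧ d ≤ 1 ∧ d ≤ ε :=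
    ⟨min ε 1, lt_min hε one_pos, min_le_right _ _, min_le_left _ _⟩
  obtain ⟨μ, hμ, hμ0⟩ : ∃ μ : ℝ, μ * k = d / 2 ∧ 0 < μ :=
    ⟨d / (2 * k), by field_simp, by positivity⟩
  have hμ1 : μ ≤ 1 / 2 := by nlinarith
  obtain ⟨m, c₀, hc₀, hA⟩ := hone k (d / 2) hk (by linarith)
  obtain ⟨N₁, hN₁⟩ := losses μ hμ0 (by linarith) (2 * ((m : ℝ) + 2)) (by positivity)
  obtain ⟨N₀, hN₀⟩ : ∃ N₀ : ℕ, N₀ = max N₁ (max 1 ⌈Real.exp 4⌉₊) := ⟨_, rfl⟩
  have hN₀1 : N₁ ≤ N₀ := by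
    rw [hN₀]
    exact le_max_left _ _
  have hN₀2 : 1 ≤ N₀ := by
    rw [hN₀]
    exact le_trans (le_max_left _ _) (le_max_right _ _)
  have hN₀3 : Real.exp 4 ≤ N₀ := by
    refine le_trans (Nat.le_ceil _) ?_
    rw [hN₀]
    exact_mod_cast le_trans (le_max_right _ _) (le_max_right _ _)
  obtain ⟨c, hc, hcA, hcB, hcC, hcD⟩ : ∃ c : ℝ, 0 < c ∧ c ≤ c₀ / 2 ∧
      c * ((m : ℝ) + 1) ≤ μ / 8 ∧ c ≤ c₀ ∧ c ≤ 1 := by
    refine ⟨min (min (c₀ / 2) (μ / 8 / ((m : ℝ) + 1))) 1, ?_, ?_, ?_, ?_, min_le_right _ _⟩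
    · exact lt_min (lt_min (by positivity) (by positivity)) one_pos
    · exact le_trans (min_le_left _ _) (min_le_left _ _)
    · have : min (min (c₀ / 2) (μ / 8 / ((m : ℝ) + 1))) 1 ≤ μ / 8 / ((m : ℝ) + 1) :=
        le_trans (min_le_left _ _) (min_le_right _ _)
      rwa [le_div_iff₀ (by positivity)] at this
    · have := le_trans (min_le_left (min (c₀ / 2) (μ / 8 / ((m : ℝ) + 1))) 1) (min_le_left _ _)
      linarith
  refine ⟨max (2 * (m + 1)) N₀, c, le_trans (by omega) (le_max_left _ _), hc, ?_⟩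
  intro α _ _ v hv q hq hqN
  obtain ⟨N, hN⟩ : ∃ N : ℕ, N = Fintype.card α := ⟨_, rfl⟩
  have hNpos : 0 < N := by
    rw [hN]
    exact Fintype.card_pos
  have hN1 : (1 : ℝ) ≤ N := by exact_mod_cast hNpos
  have hNr : (0 : ℝ) < N := by linarith
  rw [← hN] at hqN ⊢
  by_cases hbig : N₀ ≤ N
  swap
  · -- few maps in all
    have hqN0 : q ≤ N₀ := by
      have h1 : (q : ℝ) ≤ N := by
        refine le_trans hqN ?_
        calc (N : ℝ) ^ c ≤ (N : ℝ) ^ (1 : ℝ) := Real.rpow_le_rpow_of_exponent_le hN1 hcD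
          _ = N := Real.rpow_one _
      have h2 : q ≤ N := by exact_mod_cast h1
      omega
    refine le_trans (card_le_univ _) ?_
    rw [Fintype.card_fun, Fintype.card_fin, ← hN]
    exact Nat.pow_le_pow_left (le_trans hqN0 (le_max_right _ _)) N
  have hbigR : (N₀ : ℝ) ≤ N := by exact_mod_cast hbig
  by_contra hcon
  rw [not_le] at hcon
  obtain ⟨n, hn⟩ : ∃ n : ℕ, n = ⌈(N : ℝ) ^ (1 - μ)⌉₊ := ⟨_, rfl⟩
  have hn1 : (N : ℝ) ^ (1 - μ) ≤ n := by
    rw [hn]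
    exact Nat.le_ceil _
  have hNμ : (1 : ℝ) ≤ (N : ℝ) ^ (1 - μ) := Real.one_le_rpow hN1 (by linarith)
  have hn2 : (n : ℝ) ≤ 2 * (N : ℝ) ^ (1 - μ) := by
    have := Nat.ceil_lt_add_one (show (0 : ℝ) ≤ (N : ℝ) ^ (1 - μ) by positivity)
    rw [← hn] at this
    linarith
  have hnp : 1 ≤ n := by
    have : (1 : ℝ) ≤ n := le_trans hNμ hn1
    exact_mod_cast this
  have hnr : (0 : ℝ) < n := by exact_mod_cast hnp
  -- the window
  have hqn : (q : ℝ) ≤ (n : ℝ) ^ c₀ := by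
    calc (q : ℝ) ≤ (N : ℝ) ^ c := hqN
      _ ≤ (N : ℝ) ^ ((1 - μ) * c₀) := Real.rpow_le_rpow_of_exponent_le hN1 (by nlinarith)
      _ = ((N : ℝ) ^ (1 - μ)) ^ c₀ := Real.rpow_mul hNr.le _ _
      _ ≤ (n : ℝ) ^ c₀ := Real.rpow_le_rpow (by positivity) hn1 hc₀.le
  have hll : 1 ≤ Real.log (Real.log N) := by
    have h4 : 4 ≤ Real.log N := (Real.le_log_iff_exp_le hNr).2 (le_trans hN₀3 hbigR)
    rw [Real.le_log_iff_exp_le (by linarith)]
    have := Real.exp_one_lt_three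
    linarith
  have hcm : c ≤ c * ((m : ℝ) + 1) := by
    have : (0 : ℝ) ≤ m := by positivity
    nlinarith
  have hloss := hN₁ (c * ((m : ℝ) + 1)) (by positivity) hcB N q (le_trans hN₀1 hbig) hq (by
    refine le_trans hqN ?_
    apply Real.rpow_le_rpow_of_exponent_le hN1
    nlinarith)
  have hqm : (q : ℝ) ^ (m + 1) ≤ (N : ℝ) ^ (c * ((m : ℝ) + 1)) := by
    calc (q : ℝ) ^ (m + 1) ≤ ((N : ℝ) ^ c) ^ (m + 1) :=
          pow_le_pow_left₀ (by positivity) hqN _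
      _ = (N : ℝ) ^ (c * ((m : ℝ) + 1)) := by
          rw [← Real.rpow_natCast ((N : ℝ) ^ c), ← Real.rpow_mul hNr.le]
          push_cast
          rfl
  have hNn : (m + 2) * (Nat.log 2 q + 1) * (q ^ (m + 1) * n) ≤ Fintype.card α := by
    rw [← hN]
    have h1 : (((m + 2) * (Nat.log 2 q + 1) * (q ^ (m + 1) * n) : ℕ) : ℝ) ≤ N := by
      push_cast
      calc ((m : ℝ) + 2) * ((Nat.log 2 q : ℝ) + 1) * ((q : ℝ) ^ (m + 1) * n)
          ≤ ((m : ℝ) + 2) * ((Nat.log 2 q : ℝ) + 1) *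
            ((N : ℝ) ^ (c * ((m : ℝ) + 1)) * (2 * (N : ℝ) ^ (1 - μ))) := by
            apply mul_le_mul_of_nonneg_left _ (by positivity)
            exact mul_le_mul hqm hn2 (by positivity) (by positivity)
        _ = (2 * ((m : ℝ) + 2) * ((Nat.log 2 q : ℝ) + 1) * (N : ℝ) ^ (c * ((m : ℝ) + 1))) *
            (N : ℝ) ^ (1 - μ) := by ring
        _ ≤ (N : ℝ) ^ μ * (N : ℝ) ^ (1 - μ) := mul_le_mul_of_nonneg_right hloss (by positivity)
        _ = N := by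
            rw [← Real.rpow_add hNr]
            rw [show μ + (1 - μ) = 1 by ring, Real.rpow_one]
    exact_mod_cast h1
  have hF : (2 * (m + 1)) ^ Fintype.card α < ((univ : Finset (α → Fin q)).filter (fun f =>
        ¬ GoodX k c ε N (per v f))).card := by
    rw [← hN]
    exact lt_of_le_of_lt (Nat.pow_le_pow_left (le_max_left _ _) N) hcon
  obtain ⟨f, hf, b, hnb, hgood⟩ := extractX m c₀ k (d / 2) hA α v hv q hq n hnp hNn hqn hc₀ _ hF
  apply (mem_filter.1 hf).2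
  intro X hX hX0
  refine le_trans ?_ (hgood X hX hX0)
  have hX1 : (1 : ℝ) ≤ X.card := by exact_mod_cast card_pos.2 hX
  have hbn : (N : ℝ) ^ (1 - μ) ≤ b := le_trans hn1 (by exact_mod_cast hnb)
  have h1 : (X.card : ℝ) ^ (1 - ε) ≤ (X.card : ℝ) ^ (1 - d / 2) :=
    Real.rpow_le_rpow_of_exponent_le hX1 (by linarith)
  have h2 : (N : ℝ) ^ ((k : ℝ) - ε) ≤ (b : ℝ) ^ ((k : ℝ) - d / 2) := by
    calc (N : ℝ) ^ ((k : ℝ) - ε) ≤ (N : ℝ) ^ ((1 - μ) * ((k : ℝ) - d / 2)) := by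
          apply Real.rpow_le_rpow_of_exponent_le hN1
          have h3 : (1 - μ) * ((k : ℝ) - d / 2) = k - d / 2 - μ * k + μ * (d / 2) := by ring
          rw [h3, hμ]
          have : 0 ≤ μ * (d / 2) := by positivity
          linarith
      _ = ((N : ℝ) ^ (1 - μ)) ^ ((k : ℝ) - d / 2) := Real.rpow_mul hNr.le _ _
      _ ≤ (b : ℝ) ^ ((k : ℝ) - d / 2) := Real.rpow_le_rpow (by positivity) hbn (by linarith)
  calc c * (N : ℝ) ^ ((k : ℝ) - ε) * (X.card : ℝ) ^ (1 - ε)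
      ≤ c₀ * (b : ℝ) ^ ((k : ℝ) - d / 2) * (X.card : ℝ) ^ (1 - d / 2) := by
        apply mul_le_mul _ h1 (by positivity) (by positivity)
        exact mul_le_mul hcC h2 (by positivity) hc₀.le
    _ = _ := rfl

end Pool.Agent.Helper88.MP
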